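import Pool.Agent.EXQ.Lim
import Pool.Agent.EXM.Sh
import Pool.Agent.EXP.Hur

/-!
# EXQ / BSh: bounded roots and bounded sheets at infinity

PROOF.  `root_near`: `EXP.hurwitz` for `X ↦ F(X, i T α) / T^J → (pj F (i α)).eval X` (`lim_top`, `pj_smul`).
`bsheet`: `r' ≤ r` with `pj F α` nonzero on `0 < |X - κ| ≤ r'`; on `|X - κ| = r'` one has `|(pj F x).eval X| ≥ 2 c` for
`x` near `i α` (continuity, compactness), so by `lim_top` there is no root with `|X - κ| = r'` over `ball (i T α) (η T)`, `T` large.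
`Sh18.delta_inf`, `Sh18.sheet_ball` give the sheet through a given root with `|X - κ| ≤ ρ < r'`; the ball is connected, so
`|X₀ - κ| < r'` on it. (`degreeOf`, `Δ` as in EXM/Sh.)
-/

set_option autoImplicit false

namespace Pool.Agent.EXQ

open MvPolynomial Filter Topology Pool.Agent.EXP Pool.Agent.EXM

private theorem pj_ipt {m : ℕ} (F : MvPolynomial (Fin (m + 1)) ℂ) (α : Fin m → ℝ) :
    pj F (ipt 1 α) = Polynomial.C (Complex.I ^ xd F) * pj F fun j => (α j : ℂ) := by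
  rw [← pj_smul]
  congr 1
  funext j
  simp [ipt]

private theorem pj_ipt_ne {m : ℕ} (F : MvPolynomial (Fin (m + 1)) ℂ) (α : Fin m → ℝ)
    (hne : (pj F fun j => (α j : ℂ)) ≠ 0) : pj F (ipt 1 α) ≠ 0 := by
  rw [pj_ipt]
  exact mul_ne_zero (Polynomial.C_ne_zero.2 (pow_ne_zero _ Complex.I_ne_zero)) hne

private theorem not_ev_zero (p : Polynomial ℂ) (hp : p ≠ 0) (κ : ℂ) :
    ¬ ∀ᶠ z in 𝓝 κ, p.eval z = 0 := by
  intro h
  have h1 : Set.Infinite {z | p.eval z = 0} := infinite_of_mem_nhds κ h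
  exact hp (Polynomial.eq_zero_of_infinite_isRoot p h1)

private theorem poly_an (p : Polynomial ℂ) (s : Set ℂ) : AnalyticOnNhd ℂ (fun z => p.eval z) s :=
  fun z _ => (p.differentiable.analyticAt z)

private theorem ipt_eq {m : ℕ} (T : ℝ) (α : Fin m → ℝ) :
    ipt T α = fun j => (T : ℂ) * ipt 1 α j := by
  funext j
  simp only [ipt, Complex.ofReal_one]
  ring

theorem root_near {m : ℕ} (F : MvPolynomial (Fin (m + 1)) ℂ) (α : Fin m → ℝ) (κ : ℂ)
    (hκ : (pj F fun j => (α j : ℂ)).eval κ = 0) (hne : (pj F fun j => (α j : ℂ)) ≠ 0)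
    (ρ : ℝ) (hρ : 0 < ρ) :
    ∀ᶠ T : ℝ in atTop, ∃ X : ℂ, eval (Fin.cons X (ipt T α) : Fin (m + 1) → ℂ) F = 0 ∧
      ‖X - κ‖ ≤ ρ := by
  have hne' := pj_ipt_ne F α hne
  have hκ' : (pj F (ipt 1 α)).eval κ = 0 := by
    rw [pj_ipt, Polynomial.eval_mul, hκ, mul_zero]
  obtain ⟨d, hd, hur⟩ := hurwitz (fun z => (pj F (ipt 1 α)).eval z) κ ρ hρ
    (poly_an _ _) hκ' (not_ev_zero _ hne' κ)
  obtain ⟨C, hC0, hC⟩ := lim_top F (max ‖ipt 1 α‖ (‖κ‖ + ρ))
  filter_upwards [eventually_ge_atTop (1 : ℝ), eventually_gt_atTop (C / d)] with T hT1 hT2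
  have hT0 : (0 : ℝ) < T := by linarith
  have hTC : (T : ℂ) ≠ 0 := by exact_mod_cast hT0.ne'
  have hg1 : AnalyticOnNhd ℂ (fun X : ℂ => eval (Fin.cons X (fun j => (T : ℂ) * ipt 1 α j) :
      Fin (m + 1) → ℂ) F / (T : ℂ) ^ xd F) (Metric.closedBall κ ρ) := by
    intro X _
    have h1 : AnalyticAt ℂ (fun X : ℂ => eval (Fin.cons X (fun j => (T : ℂ) * ipt 1 α j) :
        Fin (m + 1) → ℂ) F) X := by
      have h2 : (fun X : ℂ => eval (Fin.cons X (fun j => (T : ℂ) * ipt 1 α j) :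
          Fin (m + 1) → ℂ) F) = fun X => (fp F (fun j => (T : ℂ) * ipt 1 α j)).eval X := by
        funext X
        rw [fp_eval]
      rw [h2]
      exact (fp F _).differentiable.analyticAt X
    exact h1.div analyticAt_const (pow_ne_zero _ hTC)
  have hg2 : ∀ X ∈ Metric.closedBall κ ρ,
      ‖eval (Fin.cons X (fun j => (T : ℂ) * ipt 1 α j) : Fin (m + 1) → ℂ) F / (T : ℂ) ^ xd F -
        (pj F (ipt 1 α)).eval X‖ < d := by
    intro X hX
    have h1 := hC T hT1 (ipt 1 α) (le_max_left _ _) X (by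
      have h2 : ‖X - κ‖ ≤ ρ := by
        rw [← dist_eq_norm]
        exact hX
      have h3 := norm_sub_norm_le X κ
      exact le_trans (by linarith) (le_max_right _ _))
    refine lt_of_le_of_lt h1 ?_
    rw [div_lt_iff₀ hT0]
    rw [div_lt_iff₀ hd] at hT2
    linarith
  obtain ⟨z, hz, hz0⟩ := hur _ hg1 hg2
  refine ⟨z, ?_, ?_⟩
  · rw [ipt_eq T α]
    rcases div_eq_zero_iff.1 hz0 with h | h
    · exact h
    · exact absurd h (pow_ne_zero _ hTC)
  · rw [← dist_eq_norm]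
    exact hz

private theorem cont_pj {m : ℕ} (F : MvPolynomial (Fin (m + 1)) ℂ) :
    Continuous fun v : (Fin m → ℂ) × ℂ => (pj F v.1).eval v.2 := by
  have h1 : (fun v : (Fin m → ℂ) × ℂ => (pj F v.1).eval v.2) =
      fun v => ∑ a ∈ (finSuccEquiv ℂ m F).support, eval v.1 (topc F a) * v.2 ^ a := by
    funext v
    rw [pj, Polynomial.eval_finsetSum]
    exact Finset.sum_congr rfl fun a _ => Polynomial.eval_monomial
  rw [h1]
  refine continuous_finsetSum _ fun a _ => ?_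
  exact ((MvPolynomial.continuous_eval _).comp continuous_fst).mul (continuous_snd.pow a)

theorem bsheet {m : ℕ} (F : MvPolynomial (Fin (m + 1)) ℂ) (Δ : MvPolynomial (Fin m) ℂ)
    (hΔ : ∀ x : Fin m → ℂ, eval x Δ ≠ 0 →
      (fp F x).natDegree = degreeOf 0 F ∧ (fp F x).Separable)
    (α : Fin m → ℝ)
    (hΔα : eval (fun j => (α j : ℂ)) (homogeneousComponent Δ.totalDegree Δ) ≠ 0) (κ : ℂ)
    (hne : (pj F fun j => (α j : ℂ)) ≠ 0) (r : ℝ) (hr : 0 < r) :
    ∃ η ρ : ℝ, 0 < η ∧ 0 < ρ ∧ ∀ᶠ T : ℝ in atTop, ∀ X : ℂ,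
      eval (Fin.cons X (ipt T α) : Fin (m + 1) → ℂ) F = 0 → ‖X - κ‖ ≤ ρ →
      ∃ X₀ : (Fin m → ℂ) → ℂ, DifferentiableOn ℂ X₀ (Metric.ball (ipt T α) (η * T)) ∧
        X₀ (ipt T α) = X ∧ ∀ x ∈ Metric.ball (ipt T α) (η * T),
          eval (Fin.cons (X₀ x) x : Fin (m + 1) → ℂ) F = 0 ∧ ‖X₀ x - κ‖ ≤ r := by
  have hne' := pj_ipt_ne F α hne
  -- a circle without zeros
  obtain ⟨r', hr'0, hr'r, hcirc⟩ : ∃ r' : ℝ, 0 < r' ∧ r' ≤ r ∧
      ∀ X : ℂ, ‖X - κ‖ = r' → (pj F (ipt 1 α)).eval X ≠ 0 := by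
    have hiso : ∀ᶠ z in 𝓝[≠] κ, (pj F (ipt 1 α)).eval z ≠ 0 :=
      ((pj F (ipt 1 α)).differentiable.analyticAt κ).eventually_eq_zero_or_eventually_ne_zero.resolve_left
        (not_ev_zero _ hne' κ)
    rw [eventually_nhdsWithin_iff, Metric.eventually_nhds_iff] at hiso
    obtain ⟨e, he, hiso⟩ := hiso
    refine ⟨min r (e / 2), lt_min hr (by linarith), min_le_left _ _, fun X hX => ?_⟩
    have h1 : min r (e / 2) ≤ e / 2 := min_le_right _ _
    have h2 : 0 < min r (e / 2) := lt_min hr (by linarith)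
    refine hiso (by rw [dist_eq_norm]; linarith) ?_
    intro h
    rw [Set.mem_singleton_iff] at h
    rw [h, sub_self, norm_zero] at hX
    linarith
  -- the minimum on the circle
  obtain ⟨c, hc, hcmin⟩ : ∃ c : ℝ, 0 < c ∧ ∀ X : ℂ, ‖X - κ‖ = r' →
      c ≤ ‖(pj F (ipt 1 α)).eval X‖ := by
    have hsph : IsCompact (Metric.sphere κ r') := isCompact_sphere κ r'
    have hne2 : (Metric.sphere κ r').Nonempty := NormedSpace.sphere_nonempty.2 hr'0.le
    obtain ⟨z1, hz1, hmin⟩ := hsph.exists_isMinOn hne2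
      ((pj F (ipt 1 α)).continuous.norm.continuousOn)
    have hz1' : ‖z1 - κ‖ = r' := by
      rw [← dist_eq_norm]
      exact hz1
    refine ⟨‖(pj F (ipt 1 α)).eval z1‖, norm_pos_iff.2 (hcirc z1 hz1'), fun X hX => hmin ?_⟩
    rw [Metric.mem_sphere, dist_eq_norm]
    exact hX
  -- nearby points
  obtain ⟨δ, hδ, hδc⟩ : ∃ δ : ℝ, 0 < δ ∧ ∀ ξ : Fin m → ℂ, ‖ξ - ipt 1 α‖ < δ →
      ∀ X : ℂ, ‖X - κ‖ = r' → c / 2 < ‖(pj F ξ).eval X‖ := by
    have hK : IsCompact (Metric.closedBall (ipt 1 α) 1 ×ˢ Metric.sphere κ r') :=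
      (isCompact_closedBall _ _).prod (isCompact_sphere _ _)
    have huc := hK.uniformContinuousOn_of_continuous (cont_pj F).continuousOn
    rw [Metric.uniformContinuousOn_iff] at huc
    obtain ⟨δ, hδ, h⟩ := huc (c / 2) (by positivity)
    refine ⟨min δ 1, lt_min hδ one_pos, fun ξ hξ X hX => ?_⟩
    have hX' : X ∈ Metric.sphere κ r' := by
      rw [Metric.mem_sphere, dist_eq_norm]
      exact hX
    have h1 := h (ξ, X) ⟨by
        rw [Metric.mem_closedBall, dist_eq_norm]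
        exact (hξ.trans_le (min_le_right _ _)).le, hX'⟩ (ipt 1 α, X)
      ⟨Metric.mem_closedBall_self zero_le_one, hX'⟩ (by
        rw [Prod.dist_eq]
        simp only [dist_self]
        rw [dist_eq_norm]
        exact max_lt (hξ.trans_le (min_le_left _ _)) hδ)
    rw [dist_eq_norm] at h1
    simp only at h1
    have h2 := hcmin X hX
    have h3 := norm_sub_norm_le ((pj F (ipt 1 α)).eval X) ((pj F ξ).eval X)
    rw [norm_sub_rev] at h1
    linarith
  obtain ⟨η₂, hη₂, hdel⟩ := Sh18.delta_inf Δ α hΔα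
  obtain ⟨C, hC0, hC⟩ := lim_top F (max (‖ipt 1 α‖ + δ) (‖κ‖ + r'))
  set η := min δ η₂ with hη
  have hη0 : 0 < η := lt_min hδ hη₂
  refine ⟨η, r' / 2, hη0, by positivity, ?_⟩
  filter_upwards [hdel, eventually_ge_atTop (1 : ℝ), eventually_gt_atTop (C / (c / 2))]
    with T hTd hT1 hT2 X hX hXκ
  have hT0 : (0 : ℝ) < T := by linarith
  have hTC : (T : ℂ) ≠ 0 := by exact_mod_cast hT0.ne'
  obtain ⟨X₀, hXd, hXc, hXz⟩ := Sh18.sheet_ball F Δ hΔ (ipt T α) (η * T) (by positivity)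
    (fun x hx => hTd x (Metric.ball_subset_ball (mul_le_mul_of_nonneg_right (min_le_right _ _)
      hT0.le) hx)) X hX
  refine ⟨X₀, hXd, hXc, fun x hx => ⟨hXz x hx, ?_⟩⟩
  by_contra hcon
  push Not at hcon
  have hpc : IsPreconnected (Metric.ball (ipt T α) (η * T)) := (convex_ball _ _).isPreconnected
  have hcf : ContinuousOn (fun x => ‖X₀ x - κ‖) (Metric.ball (ipt T α) (η * T)) :=
    (hXd.continuousOn.sub continuousOn_const).norm
  have h1 := hpc.intermediate_value (Metric.mem_ball_self (by positivity)) hx hcf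
  obtain ⟨y, hy, hyv⟩ := h1 ⟨(by rw [hXc]; linarith : ‖X₀ (ipt T α) - κ‖ ≤ r'),
    (by linarith : r' ≤ ‖X₀ x - κ‖)⟩
  simp only at hyv
  -- rescale `y`
  set ξ : Fin m → ℂ := (T : ℂ)⁻¹ • y with hξ
  have hyξ : y = fun j => (T : ℂ) * ξ j := by
    funext j
    simp only [hξ, Pi.smul_apply, smul_eq_mul]
    rw [← mul_assoc, mul_inv_cancel₀ hTC, one_mul]
  have hξn : ‖ξ - ipt 1 α‖ < δ := by
    have h2 : ξ - ipt 1 α = (T : ℂ)⁻¹ • (y - ipt T α) := by
      have h3 : ipt T α = (T : ℂ) • ipt 1 α := ipt_eq T α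
      rw [smul_sub, h3, smul_smul, inv_mul_cancel₀ hTC, one_smul]
    rw [h2, norm_smul, norm_inv, Complex.norm_real, Real.norm_of_nonneg hT0.le,
      inv_mul_lt_iff₀ hT0]
    rw [Metric.mem_ball, dist_eq_norm] at hy
    refine hy.trans_le ?_
    rw [mul_comm]
    exact mul_le_mul_of_nonneg_left (min_le_left _ _) hT0.le
  have h2 := hδc ξ hξn (X₀ y) hyv
  have h3 := hC T hT1 ξ (by
      have h4 := norm_sub_norm_le ξ (ipt 1 α)
      exact le_trans (by linarith) (le_max_left _ _)) (X₀ y) (by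
      have h4 := norm_sub_norm_le (X₀ y) κ
      exact le_trans (by linarith) (le_max_right _ _))
  rw [← hyξ, hXz y hy, zero_div, zero_sub, norm_neg] at h3
  have h4 : C / T < c / 2 := by
    rw [div_lt_iff₀ hT0]
    rw [div_lt_iff₀ (by positivity)] at hT2
    linarith
  linarith

end Pool.Agent.EXQ
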