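import Mathlib

/-!
# EXQ / Lip: Lipschitz bound on half of a ball, and near-identity maps

PROOF.  `lip_ball`: for `x, y ∈ ball a (R/2)` use the complex line through `x, y` (Schwarz estimate
`Complex.dist_le_div_mul_dist_of_mapsTo_ball`). `near_id`: for `y ∈ ball a (R/4)` the map `x ↦ y + Ξ x` is a contraction of
`closedBall a (R/2)`; `ψ y` its fixed point; `ψ` is Lipschitz; differentiable by `HasFDerivAt.of_local_left_inverse` (the
derivative of `Ξ` has norm `≤ 1/2` by `HasFDerivAt.le_of_lip'`).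
-/

set_option autoImplicit false

namespace Pool.Agent.EXQ

open Filter Topology

theorem lip_ball {m : ℕ} {E : Type} [NormedAddCommGroup E] [NormedSpace ℂ E] [CompleteSpace E] (a : Fin m → ℂ) (R M : ℝ)
    (hR : 0 < R) (f : (Fin m → ℂ) → E) (hf : DifferentiableOn ℂ f (Metric.ball a R))
    (hM : ∀ x ∈ Metric.ball a R, ‖f x‖ ≤ M) :
    ∀ x ∈ Metric.ball a (R / 2), ∀ y ∈ Metric.ball a (R / 2),
      ‖f x - f y‖ ≤ 8 * M / R * ‖x - y‖ := by
  intro x hx y hy
  have hsub : Metric.ball a (R / 2) ⊆ Metric.ball a R := Metric.ball_subset_ball (by linarith)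
  have hfx := hM x (hsub hx)
  have hfy := hM y (hsub hy)
  have hM0 : 0 ≤ M := (norm_nonneg _).trans hfx
  by_cases hfar : R / 2 ≤ ‖x - y‖
  · calc ‖f x - f y‖ ≤ ‖f x‖ + ‖f y‖ := norm_sub_le _ _
      _ ≤ 8 * M / R * (R / 2) := by
          have : 8 * M / R * (R / 2) = 4 * M := by field_simp; ring
          linarith
      _ ≤ _ := mul_le_mul_of_nonneg_left hfar (by positivity)
  push Not at hfar
  rcases hM0.eq_or_lt with hM00 | hMpos
  · have h1 : f x = 0 := by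
      rw [← norm_le_zero_iff, hM00]; exact hfx
    have h2 : f y = 0 := by
      rw [← norm_le_zero_iff, hM00]; exact hfy
    rw [h1, h2, sub_zero, norm_zero]
    positivity
  rcases eq_or_ne x y with hxy | hxy
  · rw [hxy, sub_self, norm_zero, sub_self, norm_zero, mul_zero]
  have hd : 0 < ‖x - y‖ := norm_pos_iff.2 (sub_ne_zero.2 hxy)
  obtain ⟨ρ, hρ⟩ : ∃ ρ : ℝ, ρ = R / (2 * ‖x - y‖) := ⟨_, rfl⟩
  have hρ1 : 1 < ρ := by
    rw [hρ, one_lt_div (by positivity)]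
    linarith
  have hρd : ρ * ‖x - y‖ = R / 2 := by
    rw [hρ]; field_simp
  have hline : Set.MapsTo (fun t : ℂ => y + t • (x - y)) (Metric.ball (0 : ℂ) ρ)
      (Metric.ball a R) := by
    intro t ht
    rw [mem_ball_zero_iff] at ht
    rw [Metric.mem_ball, dist_eq_norm] at hy ⊢
    calc ‖y + t • (x - y) - a‖ = ‖(y - a) + t • (x - y)‖ := by congr 1; abel
      _ ≤ ‖y - a‖ + ‖t • (x - y)‖ := norm_add_le _ _
      _ = ‖y - a‖ + ‖t‖ * ‖x - y‖ := by rw [norm_smul]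
      _ < R / 2 + ρ * ‖x - y‖ := add_lt_add hy (mul_lt_mul_of_pos_right ht hd)
      _ = R := by rw [hρd]; ring
  have hdiff : DifferentiableOn ℂ (fun t : ℂ => f (y + t • (x - y))) (Metric.ball (0 : ℂ) ρ) := by
    refine hf.comp ?_ hline
    fun_prop
  have hmaps : Set.MapsTo (fun t : ℂ => f (y + t • (x - y))) (Metric.ball (0 : ℂ) ρ)
      (Metric.closedBall ((fun t : ℂ => f (y + t • (x - y))) 0) (4 * M)) := by
    intro t ht
    have h1 := hM _ (hline ht)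
    rw [Metric.mem_closedBall, dist_eq_norm]
    simp only [zero_smul, add_zero]
    calc ‖f (y + t • (x - y)) - f y‖ ≤ ‖f (y + t • (x - y))‖ + ‖f y‖ := norm_sub_le _ _
      _ ≤ 4 * M := by linarith
  have h1 : (1 : ℂ) ∈ Metric.ball (0 : ℂ) ρ := by
    rw [mem_ball_zero_iff, norm_one]
    exact hρ1
  have h2 := Complex.dist_le_div_mul_dist_of_mapsTo_ball hdiff hmaps h1
  simp only [zero_smul, add_zero, one_smul, add_sub_cancel, dist_eq_norm, sub_zero, norm_one,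
    mul_one] at h2
  calc ‖f x - f y‖ ≤ 4 * M / ρ := h2
    _ = 8 * M / R * ‖x - y‖ := by
        rw [hρ]
        field_simp
        ring

theorem near_id {m : ℕ} (a : Fin m → ℂ) (R : ℝ) (hR : 0 < R) (Ξ : (Fin m → ℂ) → Fin m → ℂ)
    (hΞ : DifferentiableOn ℂ Ξ (Metric.ball a R)) (hb : ∀ x ∈ Metric.ball a R, ‖Ξ x‖ ≤ R / 16)
    (hL : ∀ x ∈ Metric.ball a R, ∀ y ∈ Metric.ball a R, ‖Ξ x - Ξ y‖ ≤ 1 / 2 * ‖x - y‖) :
    ∃ ψ : (Fin m → ℂ) → Fin m → ℂ, DifferentiableOn ℂ ψ (Metric.ball a (R / 4)) ∧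
      ∀ y ∈ Metric.ball a (R / 4), ψ y ∈ Metric.ball a R ∧ ψ y - Ξ (ψ y) = y := by
  have hsub : Metric.closedBall a (R / 2) ⊆ Metric.ball a R :=
    Metric.closedBall_subset_ball (by linarith)
  have hfix : ∀ y ∈ Metric.ball a (R / 4), ∃ x ∈ Metric.closedBall a (R / 2), y + Ξ x = x := by
    intro y hy
    have hmaps : Set.MapsTo (fun x => y + Ξ x) (Metric.closedBall a (R / 2))
        (Metric.closedBall a (R / 2)) := by
      intro x hx
      rw [Metric.mem_closedBall, dist_eq_norm]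
      have h1 := hb x (hsub hx)
      rw [Metric.mem_ball, dist_eq_norm] at hy
      calc ‖y + Ξ x - a‖ = ‖(y - a) + Ξ x‖ := by congr 1; abel
        _ ≤ ‖y - a‖ + ‖Ξ x‖ := norm_add_le _ _
        _ ≤ R / 2 := by linarith
    have hcon : ContractingWith (1 / 2) (hmaps.restrict (fun x => y + Ξ x) _ _) := by
      refine ⟨by rw [← NNReal.coe_lt_coe]; norm_num, LipschitzWith.of_dist_le_mul ?_⟩
      rintro ⟨x, hx⟩ ⟨x', hx'⟩
      have h1 := hL x (hsub hx) x' (hsub hx')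
      show dist (y + Ξ x) (y + Ξ x') ≤ _ * dist x x'
      rw [dist_eq_norm, dist_eq_norm, add_sub_add_left_eq_sub]
      simpa using h1
    obtain ⟨x, hx, hfx, -⟩ := hcon.exists_fixedPoint' Metric.isClosed_closedBall.isComplete hmaps
      (x := a) (Metric.mem_closedBall_self (by linarith)) (edist_ne_top _ _)
    exact ⟨x, hx, hfx⟩
  choose! ψ hψ1 hψ2 using hfix
  have hψlip : ∀ y ∈ Metric.ball a (R / 4), ∀ y' ∈ Metric.ball a (R / 4),
      ‖ψ y - ψ y'‖ ≤ 2 * ‖y - y'‖ := by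
    intro y hy y' hy'
    have h1 : ψ y - ψ y' = (y - y') + (Ξ (ψ y) - Ξ (ψ y')) := by
      calc ψ y - ψ y' = (y + Ξ (ψ y)) - (y' + Ξ (ψ y')) := by rw [hψ2 y hy, hψ2 y' hy']
        _ = _ := by abel
    have h2 := hL _ (hsub (hψ1 y hy)) _ (hsub (hψ1 y' hy'))
    have h3 : ‖ψ y - ψ y'‖ ≤ ‖y - y'‖ + ‖Ξ (ψ y) - Ξ (ψ y')‖ := by
      calc ‖ψ y - ψ y'‖ = ‖(y - y') + (Ξ (ψ y) - Ξ (ψ y'))‖ := by rw [← h1]
        _ ≤ _ := norm_add_le _ _
    linarith
  refine ⟨ψ, ?_, fun y hy => ⟨hsub (hψ1 y hy), ?_⟩⟩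
  · intro y hy
    have hnhds : Metric.ball a (R / 4) ∈ 𝓝 y := Metric.isOpen_ball.mem_nhds hy
    have hcont : ContinuousAt ψ y := by
      rw [Metric.continuousAt_iff]
      intro ε hε
      obtain ⟨δ, hδ, hδ2⟩ := Metric.mem_nhds_iff.1 hnhds
      refine ⟨min δ (ε / 2), lt_min hδ (by linarith), fun {y'} hy' => ?_⟩
      have h1 : y' ∈ Metric.ball a (R / 4) :=
        hδ2 (Metric.mem_ball.2 (hy'.trans_le (min_le_left _ _)))
      have h2 := hψlip y' h1 y hy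
      have h3 := hy'.trans_le (min_le_right _ _)
      rw [dist_eq_norm] at h3 ⊢
      linarith
    set x0 := ψ y with hx0
    have hx0b : x0 ∈ Metric.ball a R := hsub (hψ1 y hy)
    have hx0n : Metric.ball a R ∈ 𝓝 x0 := Metric.isOpen_ball.mem_nhds hx0b
    have hd : HasFDerivAt Ξ (fderiv ℂ Ξ x0) x0 :=
      ((hΞ x0 hx0b).differentiableAt hx0n).hasFDerivAt
    have hnorm : ‖fderiv ℂ Ξ x0‖ ≤ 1 / 2 := by
      refine hd.le_of_lip' (by norm_num) ?_
      filter_upwards [hx0n] with z hz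
      exact hL z hz x0 hx0b
    have hlt : ‖fderiv ℂ Ξ x0‖ < 1 := by linarith
    set e : (Fin m → ℂ) ≃L[ℂ] (Fin m → ℂ) :=
      ContinuousLinearEquiv.unitsEquiv ℂ (Fin m → ℂ) (Units.oneSub (fderiv ℂ Ξ x0) hlt) with he
    have hg : HasFDerivAt (fun x => x - Ξ x) (e : (Fin m → ℂ) →L[ℂ] (Fin m → ℂ)) x0 := by
      have h1 : (e : (Fin m → ℂ) →L[ℂ] (Fin m → ℂ)) =
          ContinuousLinearMap.id ℂ (Fin m → ℂ) - fderiv ℂ Ξ x0 := by
        ext v
        rfl
      rw [h1]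
      exact (hasFDerivAt_id x0).sub hd
    have hinv : ∀ᶠ y' in 𝓝 y, (fun x => x - Ξ x) (ψ y') = y' := by
      filter_upwards [hnhds] with y' hy'
      show ψ y' - Ξ (ψ y') = y'
      rw [sub_eq_iff_eq_add]
      exact (hψ2 y' hy').symm
    exact (HasFDerivAt.of_local_left_inverse hcont hg hinv).differentiableAt.differentiableWithinAt
  · rw [sub_eq_iff_eq_add]
    exact (hψ2 y hy).symm

end Pool.Agent.EXQ
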