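import Pool.Agent.EXQ.BSh
import Pool.Agent.EXQ.Lip

/-!
# EXQ / BrA: a branch with `X_k → κ`

PROOF.  `root_near` gives `T_k → ∞` and roots `X_k → κ` over `i T_k α` (diagonal). For the sheet condition with `ε`: `bsheet`
with `r = 1` gives `η`, `ρ` and sheets through `X_k` with `|X₀ - κ| ≤ 1` on `ball (i T_k α) (η T_k)`; `lip_ball` for `X₀ - κ`:
`|X₀ x - X_k| ≤ (8 / (η T_k)) ‖x - i T_k α‖ ≤ ε ‖x - i T_k α‖` on `ball (i T_k α) ((η/2) T_k)` for large `k`.
-/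

set_option autoImplicit false

namespace Pool.Agent.EXQ

open MvPolynomial Filter Topology Pool.Agent.EXP Pool.Agent.EXM

theorem branchA {m : ℕ} (F : MvPolynomial (Fin (m + 1)) ℂ) (Δ : MvPolynomial (Fin m) ℂ)
    (hΔ : ∀ x : Fin m → ℂ, eval x Δ ≠ 0 →
      (fp F x).natDegree = degreeOf 0 F ∧ (fp F x).Separable)
    (α : Fin m → ℝ)
    (hΔα : eval (fun j => (α j : ℂ)) (homogeneousComponent Δ.totalDegree Δ) ≠ 0) (κ : ℂ)
    (hκ : (pj F fun j => (α j : ℂ)).eval κ = 0) (hne : (pj F fun j => (α j : ℂ)) ≠ 0) :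
    ∃ (T : ℕ → ℝ) (X : ℕ → ℂ), Branch F 0 α (fun _ => 0) T X ∧ Tendsto X atTop (𝓝 κ) := by
  have hex : ∀ n : ℕ, ∃ (T : ℝ) (X : ℂ), (n : ℝ) ≤ T ∧
      eval (Fin.cons X (ipt T α) : Fin (m + 1) → ℂ) F = 0 ∧ ‖X - κ‖ ≤ 1 / ((n : ℝ) + 1) := by
    intro n
    obtain ⟨T, ⟨X, hX, hX2⟩, hT⟩ := ((root_near F α κ hκ hne (1 / ((n : ℝ) + 1))
      (by positivity)).and (eventually_ge_atTop (n : ℝ))).exists
    exact ⟨T, X, hT, hX, hX2⟩
  choose T X hT hX hX2 using hex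
  have htend : Tendsto T atTop atTop := tendsto_atTop_mono hT tendsto_natCast_atTop_atTop
  have hXκ : Tendsto X atTop (𝓝 κ) := by
    rw [tendsto_iff_norm_sub_tendsto_zero]
    exact squeeze_zero (fun n => norm_nonneg _) hX2 tendsto_one_div_add_atTop_nhds_zero_nat
  refine ⟨T, X, ⟨htend, hX, ?_, ?_⟩, hXκ⟩
  · have h1 : Tendsto (fun k => (((T k)⁻¹ : ℝ) : ℂ)) atTop (𝓝 ((0 : ℝ) : ℂ)) :=
      (Complex.continuous_ofReal.tendsto 0).comp (tendsto_inv_atTop_zero.comp htend)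
    have h2 := hXκ.mul h1
    rw [Complex.ofReal_zero, mul_zero] at h2
    rw [Complex.ofReal_zero, mul_zero]
    refine h2.congr fun k => ?_
    rw [Complex.ofReal_inv, div_eq_mul_inv]
  · intro ε hε
    obtain ⟨η, ρ, hη, hρ, hev⟩ := bsheet F Δ hΔ α hΔα κ hne 1 one_pos
    refine ⟨η / 2, by positivity, ?_⟩
    have h1 : ∀ᶠ k in atTop, ‖X k - κ‖ ≤ ρ := by
      have h2 := (tendsto_iff_norm_sub_tendsto_zero.1 hXκ).eventually (eventually_lt_nhds hρ)
      filter_upwards [h2] with k hk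
      exact hk.le
    filter_upwards [h1, htend.eventually hev, htend.eventually_ge_atTop 1,
      htend.eventually_ge_atTop (8 / (η * ε))] with k hk1 hk2 hk3 hk4
    obtain ⟨X₀, hX₀, hX₀a, hX₀b⟩ := hk2 (X k) (hX k) hk1
    have hTk : 0 < T k := by linarith
    have hR : 0 < η * T k := by positivity
    have hsub : Metric.ball (ipt (T k) α) (η / 2 * T k) ⊆ Metric.ball (ipt (T k) α) (η * T k) := by
      apply Metric.ball_subset_ball
      nlinarith
    refine ⟨X₀, hX₀.mono hsub, hX₀a, fun x hx => ⟨(hX₀b x (hsub hx)).1, ?_⟩⟩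
    have hlip := lip_ball (ipt (T k) α) (η * T k) 1 hR (fun x => X₀ x - κ)
      (hX₀.sub_const κ) (fun x hx => (hX₀b x hx).2) x (by
        rw [show η * T k / 2 = η / 2 * T k by ring]
        exact hx) (ipt (T k) α) (Metric.mem_ball_self (by positivity))
    have h3 : X₀ x - X k - ∑ j, (((fun _ => 0 : Fin m → ℝ) j : ℝ) : ℂ) *
        (x j - ipt (T k) α j) = X₀ x - κ - (X₀ (ipt (T k) α) - κ) := by
      rw [hX₀a]
      simp
    rw [h3]
    refine hlip.trans ?_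
    apply mul_le_mul_of_nonneg_right _ (norm_nonneg _)
    rw [mul_one, div_le_iff₀ hR]
    rw [div_le_iff₀ (by positivity)] at hk4
    linarith [hk4]

end Pool.Agent.EXQ
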