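import Mathlib
import Pool.Agent.EXP.Elim

/-!
# EXQ / LowerAlg: the two-variable algebra and analysis of EXQ/Lower
-/

set_option autoImplicit false

namespace Pool.Agent.EXQ

open Filter Topology

/-- evaluation of a two-variable polynomial -/
noncomputable def ev2 (p : MvPolynomial (Fin 2) ℂ) (a b : ℂ) : ℂ := MvPolynomial.eval ![a, b] p

section elimB

open MvPolynomial

private theorem elimB {m n : ℕ} (F : MvPolynomial (Fin (m + 1)) ℂ) (hF : Irreducible F)
    (hF0 : 0 < degreeOf 0 F) (h : MvPolynomial (Fin (m + 1) ⊕ Fin n) ℂ) (w₀ : Fin n → ℂ)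
    (hw : ¬ F ∣ aeval (Sum.elim X fun j => C (w₀ j)) h) :
    ∃ (E : MvPolynomial (Fin m) (MvPolynomial (Fin n) ℂ))
      (p q : Polynomial (MvPolynomial (Fin m) (MvPolynomial (Fin n) ℂ))),
      map (eval w₀) E ≠ 0 ∧
      ∀ (z : Fin (m + 1) → ℂ) (w : Fin n → ℂ),
        eval (fun j => z j.succ) (map (eval w) E) =
          eval z F * p.eval₂ ((eval (fun j => z j.succ)).comp (map (eval w))) (z 0) +
          eval (Sum.elim z w) h *
            q.eval₂ ((eval (fun j => z j.succ)).comp (map (eval w))) (z 0) := by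
  classical
  -- the polynomials over `A`
  let Ψ : MvPolynomial (Fin (m + 1) ⊕ Fin n) ℂ →+*
      Polynomial (MvPolynomial (Fin m) (MvPolynomial (Fin n) ℂ)) :=
    eval₂Hom ((Polynomial.C : _ →+* _).comp ((C : _ →+* _).comp C))
      (Sum.elim (Fin.cases Polynomial.X (fun j => Polynomial.C (X j)))
        (fun j => Polynomial.C (C (X j))))
  set f := Ψ (rename Sum.inl F) with hfd
  set g := Ψ h with hgd
  -- specialisation `Y -> w`
  have hmap : ∀ (w : Fin n → ℂ) (P : MvPolynomial (Fin (m + 1) ⊕ Fin n) ℂ),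
      (Ψ P).map (map (eval w) : MvPolynomial (Fin m) (MvPolynomial (Fin n) ℂ) →+*
        MvPolynomial (Fin m) ℂ) =
      finSuccEquiv ℂ m (aeval (Sum.elim X fun j => C (w j)) P) := by
    intro w P
    have h1 : (Polynomial.mapRingHom (map (eval w) : MvPolynomial (Fin m)
        (MvPolynomial (Fin n) ℂ) →+* MvPolynomial (Fin m) ℂ)).comp Ψ =
        ((finSuccEquiv ℂ m : MvPolynomial (Fin (m + 1)) ℂ →+* Polynomial (MvPolynomial (Fin m) ℂ))).comp
          ((aeval (Sum.elim X fun j => C (w j)) :
            MvPolynomial (Fin (m + 1) ⊕ Fin n) ℂ →ₐ[ℂ] MvPolynomial (Fin (m + 1)) ℂ) :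
            MvPolynomial (Fin (m + 1) ⊕ Fin n) ℂ →+* MvPolynomial (Fin (m + 1)) ℂ) := by
      refine MvPolynomial.ringHom_ext ?_ ?_
      · intro c
        simp [Ψ, finSuccEquiv_apply]
      · rintro (j | j)
        · refine Fin.cases ?_ (fun j => ?_) j
          · simp [Ψ, finSuccEquiv_X_zero]
          · simp [Ψ, finSuccEquiv_X_succ]
        · simp [Ψ, finSuccEquiv_apply]
    exact congrArg (fun φ => φ P) h1
  have hf₀ : ∀ w : Fin n → ℂ, f.map (map (eval w)) = finSuccEquiv ℂ m F := by
    intro w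
    rw [hfd, hmap, aeval_rename]
    have h3 : (Sum.elim X fun j => C (w j)) ∘ Sum.inl
        = (X : Fin (m + 1) → MvPolynomial (Fin (m + 1)) ℂ) := rfl
    rw [h3, aeval_X_left_apply]
  set a := (finSuccEquiv ℂ m F).natDegree with ha
  have ha0 : a ≠ 0 := by
    rw [ha, natDegree_finSuccEquiv]
    omega
  have hfmap : f = (finSuccEquiv ℂ m F).map
      (map C : MvPolynomial (Fin m) ℂ →+* MvPolynomial (Fin m) (MvPolynomial (Fin n) ℂ)) := by
    have h1 : Ψ.comp (rename (R := ℂ) (Sum.inl : Fin (m + 1) → Fin (m + 1) ⊕ Fin n) :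
          MvPolynomial (Fin (m + 1)) ℂ →+* MvPolynomial (Fin (m + 1) ⊕ Fin n) ℂ) =
        (Polynomial.mapRingHom (map C : MvPolynomial (Fin m) ℂ →+*
          MvPolynomial (Fin m) (MvPolynomial (Fin n) ℂ))).comp
        (finSuccEquiv ℂ m : MvPolynomial (Fin (m + 1)) ℂ →+*
          Polynomial (MvPolynomial (Fin m) ℂ)) := by
      refine MvPolynomial.ringHom_ext ?_ ?_
      · intro c
        simp [Ψ, finSuccEquiv_apply]
      · intro j
        refine Fin.cases ?_ (fun j => ?_) j
        · simp [Ψ, finSuccEquiv_X_zero]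
        · simp [Ψ, finSuccEquiv_X_succ]
    exact congrArg (fun φ => φ F) h1
  have hfa : f.natDegree ≤ a := by
    rw [hfmap]
    exact Polynomial.natDegree_map_le
  obtain ⟨p, q, -, -, hpq⟩ := Polynomial.exists_mul_add_mul_eq_C_resultant f g hfa
      (le_refl g.natDegree) (Or.inl ha0)
  refine ⟨Polynomial.resultant f g a g.natDegree, p, q, ?_, ?_⟩
  · rw [← Polynomial.resultant_map_map, hf₀]
    have hgm : g.map (map (eval w₀)) =
        finSuccEquiv ℂ m (aeval (Sum.elim X fun j => C (w₀ j)) h) := hmap w₀ h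
    rw [hgm]
    set G := finSuccEquiv ℂ m (aeval (Sum.elim X fun j => C (w₀ j)) h) with hG
    have hdeg : G.natDegree ≤ g.natDegree := by
      rw [← hgm]
      exact Polynomial.natDegree_map_le
    obtain ⟨k, hk⟩ := Nat.exists_eq_add_of_le hdeg
    rw [hk, Polynomial.resultant_add_right_deg _ _ _ _ _ le_rfl]
    refine mul_ne_zero (pow_ne_zero _ ?_) ?_
    · have h2 : (finSuccEquiv ℂ m F).coeff a = (finSuccEquiv ℂ m F).leadingCoeff := rfl
      rw [h2, Polynomial.leadingCoeff_ne_zero]
      intro h3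
      rw [h3, Polynomial.natDegree_zero] at ha
      exact ha0 ha
    · refine Pool.Agent.EXP.res_ne ?_ ha0 ?_
      · exact (MulEquiv.irreducible_iff (finSuccEquiv ℂ m)).2 hF
      · intro h2
        exact hw ((map_dvd_iff (finSuccEquiv ℂ m)).1 h2)
  · intro z w
    set σ : MvPolynomial (Fin m) (MvPolynomial (Fin n) ℂ) →+* ℂ :=
      (eval (fun j => z j.succ)).comp (map (eval w)) with hσ
    have h1 : ∀ P : MvPolynomial (Fin (m + 1) ⊕ Fin n) ℂ,
        (Ψ P).eval₂ σ (z 0) = eval (Sum.elim z w) P := by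
      intro P
      have h2 : (Polynomial.eval₂RingHom σ (z 0)).comp Ψ = eval (Sum.elim z w) := by
        refine MvPolynomial.ringHom_ext ?_ ?_
        · intro c
          simp [Ψ, hσ]
        · rintro (j | j)
          · refine Fin.cases ?_ (fun j => ?_) j
            · simp [Ψ]
            · simp [Ψ, hσ]
          · simp [Ψ, hσ]
      exact congrArg (fun φ => φ P) h2
    have h3 := congrArg (fun P => Polynomial.eval₂ σ (z 0) P) hpq
    simp only [Polynomial.eval₂_add, Polynomial.eval₂_mul, Polynomial.eval₂_C] at h3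
    have h4 : f.eval₂ σ (z 0) = eval z F := by
      rw [hfd, h1, eval_rename]
      rfl
    have h5 : g.eval₂ σ (z 0) = eval (Sum.elim z w) h := by
      rw [hgd, h1]
    rw [h4, h5] at h3
    exact h3.symm

end elimB

private theorem ev2_mul (p q : MvPolynomial (Fin 2) ℂ) (a b : ℂ) :
    ev2 (p * q) a b = ev2 p a b * ev2 q a b := map_mul _ _ _

private theorem ev2_eq (p : MvPolynomial (Fin 2) ℂ) (a b : ℂ) :
    ev2 p a b = ∑ d ∈ p.support, p.coeff d * (a ^ d 0 * b ^ d 1) := by
  unfold ev2
  rw [MvPolynomial.eval_eq']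
  refine Finset.sum_congr rfl fun d _ => ?_
  rw [Fin.prod_univ_two]
  rfl

private theorem ev2_indep0 {p : MvPolynomial (Fin 2) ℂ} (h : p.degreeOf 0 = 0) (a a' b : ℂ) :
    ev2 p a b = ev2 p a' b := by
  rw [ev2_eq, ev2_eq]
  refine Finset.sum_congr rfl fun d hd => ?_
  have : d 0 = 0 := by
    have := MvPolynomial.monomial_le_degreeOf 0 hd
    omega
  rw [this, pow_zero, pow_zero]

private theorem ev2_indep1 {p : MvPolynomial (Fin 2) ℂ} (h : p.degreeOf 1 = 0) (a b b' : ℂ) :
    ev2 p a b = ev2 p a b' := by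
  rw [ev2_eq, ev2_eq]
  refine Finset.sum_congr rfl fun d hd => ?_
  have : d 1 = 0 := by
    have := MvPolynomial.monomial_le_degreeOf 1 hd
    omega
  rw [this, pow_zero, pow_zero]

private theorem exists_ev2_ne {p : MvPolynomial (Fin 2) ℂ} (h : p ≠ 0) : ∃ a b, ev2 p a b ≠ 0 := by
  by_contra hcon
  push Not at hcon
  apply h
  apply MvPolynomial.funext
  intro x
  have e : x = ![x 0, x 1] := by
    ext i; fin_cases i <;> rfl
  rw [e]
  exact (hcon (x 0) (x 1)).trans (map_zero _).symm

private theorem eval3_02 (p : MvPolynomial (Fin 2) ℂ) (x y t : ℂ) :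
    MvPolynomial.eval ![x, y, t] (MvPolynomial.rename ![0, 2] p) = ev2 p x t := by
  rw [MvPolynomial.eval_rename]
  unfold ev2
  congr 2
  ext i; fin_cases i <;> rfl

private theorem eval3_12 (p : MvPolynomial (Fin 2) ℂ) (x y t : ℂ) :
    MvPolynomial.eval ![x, y, t] (MvPolynomial.rename ![1, 2] p) = ev2 p y t := by
  rw [MvPolynomial.eval_rename]
  unfold ev2
  congr 2
  ext i; fin_cases i <;> rfl

/-- The case of an irreducible `P` which involves `X` and `T`. -/
private theorem resIrr (P N : MvPolynomial (Fin 2) ℂ) (hP : Irreducible P) (hN : N ≠ 0)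
    (h0 : P.degreeOf 0 ≠ 0) (h1 : P.degreeOf 1 ≠ 0) :
    ∃ (R : MvPolynomial (Fin 2) ℂ) (A B : MvPolynomial (Fin 3) ℂ), R ≠ 0 ∧
      ∀ x y t, ev2 R x y = MvPolynomial.eval ![x, y, t] A * ev2 P x t +
        MvPolynomial.eval ![x, y, t] B * ev2 N y t := by
  classical
  obtain ⟨y₀, t₀, hyt⟩ := exists_ev2_ne hN
  have hswap : Function.Injective (![1, 0] : Fin 2 → Fin 2) := by
    intro i j h
    fin_cases i <;> fin_cases j <;> simp at h ⊢
  let e : Fin 2 ≃ Fin 2 := Equiv.swap 0 1
  set F : MvPolynomial (Fin 2) ℂ := MvPolynomial.rename e P with hFd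
  have hF : Irreducible F := (MulEquiv.irreducible_iff (MvPolynomial.renameEquiv ℂ e)).2 hP
  have hFe : ∀ z : Fin 2 → ℂ, MvPolynomial.eval z F = ev2 P (z 1) (z 0) := by
    intro z
    rw [hFd, MvPolynomial.eval_rename]
    unfold ev2
    congr 2
    ext i; fin_cases i <;> rfl
  have hFd0 : F.degreeOf 0 = P.degreeOf 1 := by
    have := MvPolynomial.degreeOf_rename_of_injective (p := P) e.injective 1
    exact this
  have hFd1 : F.degreeOf 1 = P.degreeOf 0 := by
    have := MvPolynomial.degreeOf_rename_of_injective (p := P) e.injective 0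
    exact this
  have hcomp : (MvPolynomial.aeval (Sum.elim MvPolynomial.X fun _ : Fin 1 => MvPolynomial.C y₀))
      (MvPolynomial.rename (![Sum.inr 0, Sum.inl 0] : Fin 2 → Fin 2 ⊕ Fin 1) N) =
      (MvPolynomial.aeval ![MvPolynomial.C y₀, MvPolynomial.X 0] N : MvPolynomial (Fin 2) ℂ) := by
    rw [MvPolynomial.aeval_rename]
    congr 2
    ext i : 1
    fin_cases i <;> rfl
  obtain ⟨E, p, q, hE, hEv⟩ := elimB (m := 1) (n := 1) F hF (by omega)
    (MvPolynomial.rename ![Sum.inr 0, Sum.inl 0] N) (fun _ => y₀) (by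
      rintro ⟨Q, hQ⟩
      rw [hcomp] at hQ
      have hne : (MvPolynomial.aeval ![MvPolynomial.C y₀, MvPolynomial.X 0] N :
          MvPolynomial (Fin 2) ℂ) ≠ 0 := by
        intro h
        apply hyt
        have h2 := congrArg (MvPolynomial.eval (fun _ : Fin 2 => t₀)) h
        rw [map_zero] at h2
        rw [← h2]
        have h3 : (MvPolynomial.eval (fun _ : Fin 2 => t₀)).comp
            ((MvPolynomial.aeval ![MvPolynomial.C y₀, MvPolynomial.X 0] :
              MvPolynomial (Fin 2) ℂ →ₐ[ℂ] MvPolynomial (Fin 2) ℂ) :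
              MvPolynomial (Fin 2) ℂ →+* MvPolynomial (Fin 2) ℂ) =
            MvPolynomial.eval ![y₀, t₀] := by
          refine MvPolynomial.ringHom_ext ?_ ?_
          · intro c; simp
          · intro i; fin_cases i <;> simp
        exact (congrArg (fun φ => φ N) h3).symm
      have hdeg : (MvPolynomial.aeval ![MvPolynomial.C y₀, MvPolynomial.X 0] N :
          MvPolynomial (Fin 2) ℂ).degreeOf 1 = 0 := by
        clear hQ hne hcomp hyt hN
        induction N using MvPolynomial.induction_on with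
        | C a => simp
        | add a b ha hb =>
          rw [map_add]
          have := MvPolynomial.degreeOf_add_le (1 : Fin 2)
            (MvPolynomial.aeval ![MvPolynomial.C y₀, MvPolynomial.X 0] a)
            (MvPolynomial.aeval ![MvPolynomial.C y₀, MvPolynomial.X 0] b)
          rw [ha, hb] at this
          simpa using this
        | mul_X a i ha =>
          rw [map_mul]
          have h2 : (MvPolynomial.aeval ![MvPolynomial.C y₀, MvPolynomial.X 0]
              (MvPolynomial.X i : MvPolynomial (Fin 2) ℂ) :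
              MvPolynomial (Fin 2) ℂ).degreeOf 1 = 0 := by
            fin_cases i
            · simp
            · simp [MvPolynomial.degreeOf_X]
          have := MvPolynomial.degreeOf_mul_le (1 : Fin 2)
            (MvPolynomial.aeval ![MvPolynomial.C y₀, MvPolynomial.X 0] a)
            (MvPolynomial.aeval ![MvPolynomial.C y₀, MvPolynomial.X 0]
              (MvPolynomial.X i : MvPolynomial (Fin 2) ℂ))
          rw [ha, h2] at this
          simpa using this
      rw [hQ] at hne hdeg
      rw [MvPolynomial.degreeOf_mul_eq (left_ne_zero_of_mul hne) (right_ne_zero_of_mul hne)]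
        at hdeg
      omega)
  let τ : MvPolynomial (Fin 1) (MvPolynomial (Fin 1) ℂ) →+* MvPolynomial (Fin 2) ℂ :=
    MvPolynomial.eval₂Hom
      (MvPolynomial.rename (fun _ : Fin 1 => (1 : Fin 2)) :
        MvPolynomial (Fin 1) ℂ →ₐ[ℂ] MvPolynomial (Fin 2) ℂ).toRingHom
      (fun _ => MvPolynomial.X 0)
  let τ3 : MvPolynomial (Fin 1) (MvPolynomial (Fin 1) ℂ) →+* MvPolynomial (Fin 3) ℂ :=
    MvPolynomial.eval₂Hom
      (MvPolynomial.rename (fun _ : Fin 1 => (1 : Fin 3)) :
        MvPolynomial (Fin 1) ℂ →ₐ[ℂ] MvPolynomial (Fin 3) ℂ).toRingHom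
      (fun _ => MvPolynomial.X 0)
  have hτ : ∀ x y : ℂ, (MvPolynomial.eval ![x, y]).comp τ =
      (MvPolynomial.eval (fun _ : Fin 1 => x)).comp
        (MvPolynomial.map (MvPolynomial.eval (fun _ : Fin 1 => y))) := by
    intro x y
    refine MvPolynomial.ringHom_ext ?_ ?_
    · intro c
      simp only [τ, RingHom.comp_apply, MvPolynomial.coe_eval₂Hom, MvPolynomial.eval₂_C,
        MvPolynomial.map_C, MvPolynomial.eval_C]
      change MvPolynomial.eval ![x, y] (MvPolynomial.rename _ c) = _
      rw [MvPolynomial.eval_rename]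
      rfl
    · intro i
      simp [τ]
  have hτ3 : ∀ x y t : ℂ, (MvPolynomial.eval ![x, y, t]).comp τ3 =
      (MvPolynomial.eval (fun _ : Fin 1 => x)).comp
        (MvPolynomial.map (MvPolynomial.eval (fun _ : Fin 1 => y))) := by
    intro x y t
    refine MvPolynomial.ringHom_ext ?_ ?_
    · intro c
      simp only [τ3, RingHom.comp_apply, MvPolynomial.coe_eval₂Hom, MvPolynomial.eval₂_C,
        MvPolynomial.map_C, MvPolynomial.eval_C]
      change MvPolynomial.eval ![x, y, t] (MvPolynomial.rename _ c) = _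
      rw [MvPolynomial.eval_rename]
      rfl
    · intro i
      simp [τ3]
  refine ⟨τ E, p.eval₂ τ3 (MvPolynomial.X 2), q.eval₂ τ3 (MvPolynomial.X 2), ?_, ?_⟩
  · intro hz
    apply hE
    apply MvPolynomial.funext
    intro x
    have e : x = fun _ => x 0 := by
      ext i; fin_cases i; rfl
    rw [map_zero, e]
    have h := congrArg (fun φ => φ E) (hτ (x 0) y₀)
    simp only [RingHom.comp_apply] at h
    rw [← h, hz, map_zero]
  · intro x y t
    have h := hEv ![t, x] (fun _ => y)
    have e1 : (fun j : Fin 1 => (![t, x] : Fin 2 → ℂ) j.succ) = fun _ => x := by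
      ext j; fin_cases j; rfl
    rw [e1] at h
    have e2 := congrArg (fun φ => φ E) (hτ x y)
    simp only [RingHom.comp_apply] at e2
    have e3 : MvPolynomial.eval (Sum.elim ![t, x] fun _ : Fin 1 => y)
        (MvPolynomial.rename (![Sum.inr 0, Sum.inl 0] : Fin 2 → Fin 2 ⊕ Fin 1) N) =
        ev2 N y t := by
      rw [MvPolynomial.eval_rename]
      unfold ev2
      congr 2
      ext i; fin_cases i <;> rfl
    have e4 : ∀ r : Polynomial (MvPolynomial (Fin 1) (MvPolynomial (Fin 1) ℂ)),
        MvPolynomial.eval ![x, y, t] (r.eval₂ τ3 (MvPolynomial.X 2)) =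
        r.eval₂ ((MvPolynomial.eval (fun _ : Fin 1 => x)).comp
          (MvPolynomial.map (MvPolynomial.eval (fun _ : Fin 1 => y)))) t := by
      intro r
      rw [Polynomial.hom_eval₂, hτ3]
      congr 1
      simp
    rw [hFe, e3] at h
    unfold ev2 at h ⊢
    rw [e2, h, e4, e4]
    simp only [Matrix.cons_val_zero, Matrix.cons_val_one]
    ring

/-- the general identity -/
private theorem resGen (N : MvPolynomial (Fin 2) ℂ) (hN : N ≠ 0) (P : MvPolynomial (Fin 2) ℂ)
    (hP : P ≠ 0) :
    ∃ (c : Polynomial ℂ) (P' R : MvPolynomial (Fin 2) ℂ) (A B : MvPolynomial (Fin 3) ℂ),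
      c ≠ 0 ∧ R ≠ 0 ∧ (∀ x t, ev2 P x t = c.eval t * ev2 P' x t) ∧
      ∀ x y t, ev2 R x y = MvPolynomial.eval ![x, y, t] A * ev2 P' x t +
        MvPolynomial.eval ![x, y, t] B * ev2 N y t := by
  induction P using WfDvdMonoid.induction_on_irreducible with
  | zero => exact absurd rfl hP
  | unit u hu =>
    obtain ⟨a, ha, rfl⟩ := MvPolynomial.isUnit_iff_eq_C_of_isReduced.1 hu
    refine ⟨Polynomial.C a, 1, 1, 1, 0, ?_, one_ne_zero, ?_, ?_⟩
    · rw [Ne, Polynomial.C_eq_zero]; exact ha.ne_zero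
    · intro x t; simp [ev2]
    · intro x y t; simp [ev2]
  | mul a i ha hi ih =>
    obtain ⟨c1, P1, R1, A1, B1, hc1, hR1, h1, h1'⟩ := ih ha
    have key : ∃ (c : Polynomial ℂ) (P' R : MvPolynomial (Fin 2) ℂ) (A B : MvPolynomial (Fin 3) ℂ),
        c ≠ 0 ∧ R ≠ 0 ∧ (∀ x t, ev2 i x t = c.eval t * ev2 P' x t) ∧
        ∀ x y t, ev2 R x y = MvPolynomial.eval ![x, y, t] A * ev2 P' x t +
          MvPolynomial.eval ![x, y, t] B * ev2 N y t := by
      by_cases h0 : i.degreeOf 0 = 0
      · obtain ⟨x0, t0, hx0⟩ := exists_ev2_ne hi.ne_zero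
        have hc : ∀ x t, (MvPolynomial.aeval ![Polynomial.C x0, Polynomial.X] i :
            Polynomial ℂ).eval t = ev2 i x t := by
          intro x t
          rw [ev2_indep0 h0 x x0 t]
          have h3 : (Polynomial.evalRingHom t).comp
              ((MvPolynomial.aeval ![Polynomial.C x0, Polynomial.X] :
                MvPolynomial (Fin 2) ℂ →ₐ[ℂ] Polynomial ℂ) :
                MvPolynomial (Fin 2) ℂ →+* Polynomial ℂ) = MvPolynomial.eval ![x0, t] := by
            refine MvPolynomial.ringHom_ext ?_ ?_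
            · intro c; simp
            · intro j; fin_cases j <;> simp
          exact congrArg (fun φ => φ i) h3
        refine ⟨MvPolynomial.aeval ![Polynomial.C x0, Polynomial.X] i, 1, 1, 1, 0, ?_,
          one_ne_zero, ?_, ?_⟩
        · intro hz
          apply hx0
          rw [← hc x0 t0, hz, Polynomial.eval_zero]
        · intro x t
          rw [hc x t]; simp [ev2]
        · intro x y t; simp [ev2]
      · by_cases h1 : i.degreeOf 1 = 0
        · obtain ⟨x0, t0, hx0⟩ := exists_ev2_ne hi.ne_zero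
          have hR : ∀ x y t, ev2 (MvPolynomial.aeval ![MvPolynomial.X 0, MvPolynomial.C t0] i) x y =
              ev2 i x t := by
            intro x y t
            rw [ev2_indep1 h1 x t t0]
            have h3 : (MvPolynomial.eval ![x, y]).comp
                ((MvPolynomial.aeval ![MvPolynomial.X 0, MvPolynomial.C t0] :
                  MvPolynomial (Fin 2) ℂ →ₐ[ℂ] MvPolynomial (Fin 2) ℂ) :
                  MvPolynomial (Fin 2) ℂ →+* MvPolynomial (Fin 2) ℂ) =
                MvPolynomial.eval ![x, t0] := by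
              refine MvPolynomial.ringHom_ext ?_ ?_
              · intro c; simp
              · intro j; fin_cases j <;> simp
            exact congrArg (fun φ => φ i) h3
          refine ⟨1, i, MvPolynomial.aeval ![MvPolynomial.X 0, MvPolynomial.C t0] i, 1, 0,
            one_ne_zero, ?_, ?_, ?_⟩
          · intro hz
            apply hx0
            rw [← hR x0 0 t0, hz]
            exact map_zero _
          · intro x t; simp
          · intro x y t
            rw [hR x y t]; simp
        · obtain ⟨R, A, B, hR, h⟩ := resIrr i N hi hN h0 h1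
          exact ⟨1, i, R, A, B, one_ne_zero, hR, fun x t => by simp, h⟩
    obtain ⟨c2, P2, R2, A2, B2, hc2, hR2, h2, h2'⟩ := key
    refine ⟨c2 * c1, P2 * P1, R2 * R1, A2 * A1,
      A2 * MvPolynomial.rename ![0, 2] P2 * B1 + B2 * A1 * MvPolynomial.rename ![0, 2] P1 +
        B2 * B1 * MvPolynomial.rename ![1, 2] N, mul_ne_zero hc2 hc1, mul_ne_zero hR2 hR1, ?_, ?_⟩
    · intro x t
      rw [ev2_mul, ev2_mul, h1, h2, Polynomial.eval_mul]; ring
    · intro x y t
      rw [ev2_mul, ev2_mul, h1' x y t, h2' x y t]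
      simp only [map_mul, map_add, eval3_02, eval3_12]
      ring

/-- `P(X, T)`, `N(y, T)`, `P(κ, ·)` not zero: a nonzero `R(X, y)` and a nonzero `c(T)` with
`c(T) R(X, y) ∈ (P, N)`; here in the form of the consequence used: `A`, `B'` polynomials in `X, y, T`. Alternative: `P` has no
roots near `κ` for large `T`. -/
theorem resPN (P N : MvPolynomial (Fin 2) ℂ) (κ : ℂ) (hP : ∃ T : ℂ, ev2 P κ T ≠ 0) (hN : N ≠ 0) :
    (∃ r : ℝ, 0 < r ∧ ∀ᶠ T : ℝ in atTop, ∀ X : ℂ, ‖X - κ‖ ≤ r → ev2 P X T ≠ 0) ∨
    ∃ (R : MvPolynomial (Fin 2) ℂ) (B : MvPolynomial (Fin 3) ℂ), R ≠ 0 ∧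
      ∀ᶠ T : ℝ in atTop, ∀ X y : ℂ, ev2 P X T = 0 →
        ev2 R X y = MvPolynomial.eval ![X, y, (T : ℂ)] B * ev2 N y T := by
  right
  have hP0 : P ≠ 0 := by
    rintro rfl
    obtain ⟨T, hT⟩ := hP
    exact hT (map_zero _)
  obtain ⟨c, P', R, A, B, hc, hR, h1, h2⟩ := resGen N hN P hP0
  refine ⟨R, B, hR, ?_⟩
  have hfin : {z : ℂ | c.IsRoot z}.Finite := Polynomial.finite_setOf_isRoot hc
  obtain ⟨M, hM⟩ := hfin.isBounded.exists_norm_le
  filter_upwards [eventually_gt_atTop M, eventually_ge_atTop (0 : ℝ)] with T hT hT0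
  intro X y hPX
  have hcT : c.eval (T : ℂ) ≠ 0 := by
    intro h
    have := hM (T : ℂ) h
    rw [Complex.norm_real, Real.norm_of_nonneg hT0] at this
    linarith
  rw [h1] at hPX
  have h3 : ev2 P' X T = 0 := (mul_eq_zero.1 hPX).resolve_left hcT
  rw [h2 X y T, h3, mul_zero, zero_add]

/-- `R(X, exp X)` has finite order at `κ` -/
theorem expXR (R : MvPolynomial (Fin 2) ℂ) (hR : R ≠ 0) (κ : ℂ) :
    ∃ (r c : ℝ) (M : ℕ), 0 < r ∧ 0 < c ∧ ∀ X : ℂ, ‖X - κ‖ ≤ r →
      c * ‖X - κ‖ ^ M ≤ ‖ev2 R X (Complex.exp X)‖ := by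
  have hdiff : Differentiable ℂ (fun X => ev2 R X (Complex.exp X)) := by
    have : (fun X => ev2 R X (Complex.exp X)) = fun X => ∑ d ∈ R.support,
        R.coeff d * (X ^ d 0 * (Complex.exp X) ^ d 1) := by
      ext X; exact ev2_eq _ _ _
    rw [this]
    fun_prop
  have han : AnalyticAt ℂ (fun X => ev2 R X (Complex.exp X)) κ := hdiff.analyticAt κ
  have hnz : ¬ ∀ᶠ X in 𝓝 κ, ev2 R X (Complex.exp X) = 0 := by
    intro h
    have hall : ∀ X, ev2 R X (Complex.exp X) = 0 := by
      have hA : AnalyticOnNhd ℂ (fun X => ev2 R X (Complex.exp X)) Set.univ :=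
        fun z _ => hdiff.analyticAt z
      have := hA.eqOn_zero_of_preconnected_of_eventuallyEq_zero isPreconnected_univ
        (Set.mem_univ κ) h
      intro X
      exact this (Set.mem_univ X)
    -- `R(x, exp X)` vanishes for all `x`
    have h2 : ∀ X x : ℂ, ev2 R x (Complex.exp X) = 0 := by
      intro X x
      have hpoly : (MvPolynomial.aeval ![Polynomial.X, Polynomial.C (Complex.exp X)] R :
          Polynomial ℂ) = 0 := by
        apply Polynomial.eq_zero_of_infinite_isRoot
        refine Set.infinite_of_injective_forall_mem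
          (f := fun k : ℕ => X + (k : ℂ) * (2 * Real.pi * Complex.I)) ?_ ?_
        · intro k l hkl
          have h3 : (k : ℂ) * (2 * Real.pi * Complex.I) = (l : ℂ) * (2 * Real.pi * Complex.I) :=
            add_left_cancel hkl
          exact_mod_cast mul_right_cancel₀ Complex.two_pi_I_ne_zero h3
        · intro k
          have h3 : (Polynomial.evalRingHom (X + (k : ℂ) * (2 * Real.pi * Complex.I))).comp
              ((MvPolynomial.aeval ![Polynomial.X, Polynomial.C (Complex.exp X)] :
                MvPolynomial (Fin 2) ℂ →ₐ[ℂ] Polynomial ℂ) :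
                MvPolynomial (Fin 2) ℂ →+* Polynomial ℂ) =
              MvPolynomial.eval ![X + (k : ℂ) * (2 * Real.pi * Complex.I), Complex.exp X] := by
            refine MvPolynomial.ringHom_ext ?_ ?_
            · intro c; simp
            · intro j; fin_cases j <;> simp
          have h4 := congrArg (fun φ => φ R) h3
          have h5 : Complex.exp X = Complex.exp (X + (k : ℂ) * (2 * Real.pi * Complex.I)) := by
            rw [Complex.exp_add, Complex.exp_nat_mul_two_pi_mul_I, mul_one]
          change Polynomial.eval _ _ = 0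
          refine Eq.trans h4 ?_
          have h6 := hall (X + (k : ℂ) * (2 * Real.pi * Complex.I))
          rw [← h5] at h6
          exact h6
      have h3 : (Polynomial.evalRingHom x).comp
          ((MvPolynomial.aeval ![Polynomial.X, Polynomial.C (Complex.exp X)] :
            MvPolynomial (Fin 2) ℂ →ₐ[ℂ] Polynomial ℂ) :
            MvPolynomial (Fin 2) ℂ →+* Polynomial ℂ) =
          MvPolynomial.eval ![x, Complex.exp X] := by
        refine MvPolynomial.ringHom_ext ?_ ?_
        · intro c; simp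
        · intro j; fin_cases j <;> simp
      have h4 := congrArg (fun φ => φ R) h3
      unfold ev2
      refine Eq.trans h4.symm ?_
      change Polynomial.eval x (MvPolynomial.aeval _ R) = 0
      rw [hpoly, Polynomial.eval_zero]
    -- hence `R * X 1 = 0`
    have h3 : R * MvPolynomial.X 1 = 0 := by
      apply MvPolynomial.funext
      intro z
      have e : z = ![z 0, z 1] := by ext i; fin_cases i <;> rfl
      rw [map_mul, map_zero, MvPolynomial.eval_X]
      by_cases hz : z 1 = 0
      · rw [hz, mul_zero]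
      · have h4 := h2 (Complex.log (z 1)) (z 0)
        rw [Complex.exp_log hz] at h4
        unfold ev2 at h4
        rw [← e] at h4
        rw [h4, zero_mul]
    rcases mul_eq_zero.1 h3 with h4 | h4
    · exact hR h4
    · exact MvPolynomial.X_ne_zero (1 : Fin 2) h4
  obtain ⟨n, g, hg, hg0, hfg⟩ := (han.exists_eventuallyEq_pow_smul_nonzero_iff).2 hnz
  have hg1 : ∀ᶠ X in 𝓝 κ, ‖g κ‖ / 2 < ‖g X‖ := by
    have h0 : 0 < ‖g κ‖ := norm_pos_iff.2 hg0
    exact hg.continuousAt.norm.eventually (lt_mem_nhds (by linarith))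
  obtain ⟨r, hr, hball⟩ := Metric.eventually_nhds_iff.1 (hg1.and hfg)
  refine ⟨r / 2, ‖g κ‖ / 2, n, by positivity, by have := norm_pos_iff.2 hg0; positivity, ?_⟩
  intro X hX
  obtain ⟨h5, h6⟩ := hball (y := X) (by rw [dist_eq_norm]; linarith)
  rw [h6, norm_smul, norm_pow, mul_comm]
  exact mul_le_mul_of_nonneg_left h5.le (by positivity)

end Pool.Agent.EXQ
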