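import Mathlib

/-!
# EXQ / NoVert: no vertical components (part (1) of EXQ/Gen)

PROOF.  Let `A = ℂ[the variables other than x_i, X]`, i.e. regard `g` as a polynomial in `x_i` over `ℂ[x''][X]`. It is irreducible of
positive degree, so primitive: its coefficients `g_k ∈ ℂ[x''][X]` have no common factor of positive degree in `X`, so by Gauss they
generate the unit ideal of `ℂ(x'')[X]`: clear denominators.
-/

set_option autoImplicit false

namespace Pool.Agent.EXQ

open MvPolynomial

attribute [local instance] Polynomial.algebra in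
/-- Core: `B` a UFD (here `ℂ[x'']`), `g ∈ B[X][s]` irreducible of positive degree in `s`. -/
theorem bezout_of_irreducible {B : Type} [CommRing B] [IsDomain B] [UniqueFactorizationMonoid B]
    (g : Polynomial (Polynomial B)) (hg : Irreducible g) (hd : 0 < g.natDegree) :
    ∃ c : B, c ≠ 0 ∧ Polynomial.C c ∈ Ideal.span (Set.range g.coeff) := by
  by_contra hcon
  set I : Ideal (Polynomial B) := Ideal.span (Set.range g.coeff) with hI
  let K := FractionRing B
  let S : Submonoid (Polynomial B) := (nonZeroDivisors B).map Polynomial.C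
  have hloc : IsLocalization S (Polynomial K) := Polynomial.isLocalization (nonZeroDivisors B) K
  have hdis : Disjoint (I : Set (Polynomial B)) S := by
    rw [Set.disjoint_left]
    rintro x hx ⟨c, hc, rfl⟩
    exact hcon ⟨c, nonZeroDivisors.ne_zero hc, hx⟩
  obtain ⟨P, hP, hIP, hPS⟩ := I.exists_le_prime_disjoint S hdis
  have hlead : g.coeff g.natDegree ≠ 0 := by
    have : g ≠ 0 := hg.ne_zero
    exact Polynomial.leadingCoeff_ne_zero.2 this
  have hP0 : P ≠ ⊥ := by
    intro h
    rw [h] at hIP
    exact hlead ((Submodule.mem_bot _).1 (hIP (Ideal.subset_span ⟨_, rfl⟩)))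
  obtain ⟨p, hpP, hp⟩ := hP.exists_mem_prime_of_ne_bot hP0
  have hle : Ideal.span {p} ≤ P := (Ideal.span_singleton_le_iff_mem P).2 hpP
  have hsp : (Ideal.span {p}).IsPrime := (Ideal.span_singleton_prime hp.ne_zero).2 hp
  have hsd : Disjoint (S : Set (Polynomial B)) (Ideal.span {p} : Ideal (Polynomial B)) :=
    (Set.disjoint_of_subset_left hle hPS).symm
  have h1 := IsLocalization.isPrime_of_isPrime_disjoint S (Polynomial K) _ hsp hsd
  have h2 := IsLocalization.isPrime_of_isPrime_disjoint S (Polynomial K) _ hP hPS.symm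
  have hinj : Function.Injective (algebraMap (Polynomial B) (Polynomial K)) := by
    rw [show algebraMap (Polynomial B) (Polynomial K) = Polynomial.mapRingHom (algebraMap B K)
      from rfl]
    exact Polynomial.map_injective _ (IsFractionRing.injective B K)
  have hne : Ideal.map (algebraMap (Polynomial B) (Polynomial K)) (Ideal.span {p}) ≠ ⊥ := by
    rw [Ideal.map_span, Set.image_singleton, Ne, Ideal.span_singleton_eq_bot]
    intro h
    exact hp.ne_zero (hinj (by rw [h, map_zero]))
  have h3 := IsPrime.to_maximal_ideal hne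
  have h4 : Ideal.map (algebraMap (Polynomial B) (Polynomial K)) (Ideal.span {p}) =
      Ideal.map (algebraMap (Polynomial B) (Polynomial K)) P :=
    h3.eq_of_le h2.ne_top (Ideal.map_mono hle)
  have h5 : P = Ideal.span {p} := by
    rw [← IsLocalization.under_map_of_isPrime_disjoint S (Polynomial K) hP hPS.symm, ← h4,
      IsLocalization.under_map_of_isPrime_disjoint S (Polynomial K) hsp hsd]
  have h6 : ∀ k, p ∣ g.coeff k := fun k => by
    have : g.coeff k ∈ P := hIP (Ideal.subset_span ⟨k, rfl⟩)
    rw [h5] at this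
    exact Ideal.mem_span_singleton.1 this
  have h7 : Polynomial.C p ∣ g := (Polynomial.C_dvd_iff_dvd_coeff _ _).2 h6
  obtain ⟨q, hq⟩ := h7
  rcases hg.isUnit_or_isUnit hq with h | h
  · exact hp.not_isUnit (Polynomial.isUnit_C.1 h)
  · have : g.natDegree = 0 := by
      rw [hq, Polynomial.natDegree_mul (Polynomial.C_ne_zero.2 hp.ne_zero) h.ne_zero,
        Polynomial.natDegree_C, Polynomial.natDegree_eq_zero_of_isUnit h]
    omega

/-- The variables: `i.succ` first, then `0`, then the others. -/
private def eqv {m : ℕ} (i : Fin m) : Fin (m + 1) ≃ Option (Option {j : Fin m // j ≠ i}) where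
  toFun := Fin.cases (some none) fun j => if h : j = i then none else some (some ⟨j, h⟩)
  invFun o := o.elim i.succ fun o' => o'.elim 0 fun j => j.1.succ
  left_inv := by
    refine Fin.cases rfl fun j => ?_
    by_cases h : j = i
    · simp [h]
    · simp [h]
  right_inv := by
    rintro (_ | _ | ⟨j, hj⟩)
    · simp
    · simp
    · simp [hj]

private noncomputable def isoV {m : ℕ} (i : Fin m) : MvPolynomial (Fin (m + 1)) ℂ ≃+*
    Polynomial (Polynomial (MvPolynomial {j : Fin m // j ≠ i} ℂ)) :=
  ((renameEquiv ℂ (eqv i)).trans (optionEquivLeft ℂ _)).toRingEquiv.trans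
    (Polynomial.mapEquiv (optionEquivLeft ℂ {j : Fin m // j ≠ i}).toRingEquiv)

theorem no_vert {m : ℕ} (g : MvPolynomial (Fin (m + 1)) ℂ) (hg : Irreducible g) (i : Fin m)
    (hi : 0 < degreeOf i.succ g) :
    ∃ c : MvPolynomial (Fin m) ℂ, c ≠ 0 ∧ ∀ x : Fin m → ℂ, eval x c ≠ 0 →
      (∀ s : ℂ, eval (Function.update x i s) c ≠ 0) ∧
      ∀ κ : ℂ, ∃ s : ℂ, eval (Fin.cons κ (Function.update x i s) : Fin (m + 1) → ℂ) g ≠ 0 := by
  have hG : Irreducible (isoV i g) := (MulEquiv.irreducible_iff (isoV i)).2 hg
  have hdeg : (isoV i g).natDegree = degreeOf i.succ g := by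
    have e1 : isoV i g = Polynomial.map
        ((optionEquivLeft ℂ {j : Fin m // j ≠ i}).toRingEquiv : _ →+* _)
        (optionEquivLeft ℂ _ (rename (eqv i) g)) := rfl
    rw [e1, Polynomial.natDegree_map_eq_of_injective
      (fun _ _ h => (optionEquivLeft ℂ {j : Fin m // j ≠ i}).injective h),
      natDegree_optionEquivLeft]
    have e2 : (none : Option (Option {j : Fin m // j ≠ i})) = eqv i i.succ := by
      simp [eqv]
    rw [e2, degreeOf_rename_of_injective (eqv i).injective]
  obtain ⟨c, hc0, hc⟩ := bezout_of_irreducible (isoV i g) hG (by omega)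
  refine ⟨rename Subtype.val c, ?_, fun x hx => ⟨fun s => ?_, fun κ => ?_⟩⟩
  · intro h
    exact hc0 (rename_injective _ Subtype.val_injective (by rw [h, map_zero]))
  · rw [eval_rename] at hx ⊢
    have : Function.update x i s ∘ (Subtype.val : {j : Fin m // j ≠ i} → Fin m) =
        x ∘ Subtype.val := by
      funext j
      simp [Function.update_of_ne j.2]
    rw [this]
    exact hx
  · by_contra hcon
    have hcon' : ∀ s : ℂ, eval (Fin.cons κ (Function.update x i s) : Fin (m + 1) → ℂ) g = 0 :=
      fun s => by
        by_contra h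
        exact hcon ⟨s, h⟩
    let φ : Polynomial (MvPolynomial {j : Fin m // j ≠ i} ℂ) →+* ℂ :=
      Polynomial.eval₂RingHom (eval (x ∘ Subtype.val)) κ
    have hev : ∀ s : ℂ, ∀ f : MvPolynomial (Fin (m + 1)) ℂ,
        eval (Fin.cons κ (Function.update x i s) : Fin (m + 1) → ℂ) f =
        Polynomial.eval₂ φ s (isoV i f) := by
      intro s f
      have : (eval (Fin.cons κ (Function.update x i s) : Fin (m + 1) → ℂ)) =
          (Polynomial.eval₂RingHom φ s).comp (isoV i : _ →+* _) := by
        refine MvPolynomial.ringHom_ext (fun r => ?_) fun j => ?_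
        · simp [isoV, φ, Polynomial.mapEquiv]
        · refine Fin.cases ?_ (fun j => ?_) j
          · have h0 : (0 : Fin (m + 1)) ≠ i.succ := (Fin.succ_ne_zero i).symm
            simp [isoV, φ, eqv, Polynomial.mapEquiv, Function.update_of_ne h0]
          · by_cases h : j = i
            · subst h
              simp [isoV, φ, eqv, Polynomial.mapEquiv]
            · simp [isoV, φ, eqv, h, Polynomial.mapEquiv]
      rw [this]
      rfl
    have hz : (isoV i g).map φ = 0 := by
      refine Polynomial.funext fun s => ?_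
      rw [Polynomial.eval_map, ← hev, hcon', Polynomial.eval_zero]
    have hk : ∀ k, φ ((isoV i g).coeff k) = 0 := fun k => by
      rw [← Polynomial.coeff_map, hz, Polynomial.coeff_zero]
    have hspan : Ideal.span (Set.range (isoV i g).coeff) ≤ RingHom.ker φ := by
      rw [Ideal.span_le]
      rintro _ ⟨k, rfl⟩
      exact hk k
    have hφc : φ (Polynomial.C c) = 0 := hspan hc
    rw [eval_rename] at hx
    apply hx
    simpa [φ] using hφc

end Pool.Agent.EXQ
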