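import Pool.Agent.EXQ.Lim
import Pool.Agent.EXP.Avoid
import Pool.Agent.EXP.Elim
import Pool.Agent.EXQ.NoVert
import Pool.Agent.EXQ.LowerAlg

/-!
# EXQ / Gen: a generic direction with a varying root of the top part
-/

set_option autoImplicit false

namespace Pool.Agent.EXQ

open MvPolynomial Filter Topology Pool.Agent.EXP Pool.Agent.EXM

/-- an irreducible factor which involves `X` -/
private theorem gn_fac {m : ℕ} (P : MvPolynomial (Fin (m + 1)) ℂ) (hP : P ≠ 0)
    (h0 : 0 < degreeOf 0 P) : ∃ g, Irreducible g ∧ g ∣ P ∧ 0 < degreeOf 0 g := by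
  induction P using WfDvdMonoid.induction_on_irreducible with
  | zero => exact absurd rfl hP
  | unit u hu =>
    exfalso
    obtain ⟨a, ha, rfl⟩ := MvPolynomial.isUnit_iff_eq_C_of_isReduced.1 hu
    rw [degreeOf_C] at h0
    exact lt_irrefl _ h0
  | mul a i ha hi ih =>
    by_cases h1 : 0 < degreeOf 0 i
    · exact ⟨i, hi, Dvd.intro _ rfl, h1⟩
    · have h2 := degreeOf_mul_le (0 : Fin (m + 1)) i a
      obtain ⟨g, hg1, hg2, hg3⟩ := ih ha (by omega)
      exact ⟨g, hg1, hg2.trans (Dvd.intro_left _ rfl), hg3⟩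

/-- roots in `X` -/
private theorem gn_root {m : ℕ} (g : MvPolynomial (Fin (m + 1)) ℂ) (h0 : 0 < degreeOf 0 g)
    (x : Fin m → ℂ) (hx : eval x (finSuccEquiv ℂ m g).leadingCoeff ≠ 0) :
    ∃ κ : ℂ, eval (Fin.cons κ x : Fin (m + 1) → ℂ) g = 0 := by
  have h1 : (Polynomial.map (eval x) (finSuccEquiv ℂ m g)).degree ≠ 0 := by
    rw [Polynomial.degree_map_eq_of_leadingCoeff_ne_zero _ hx]
    intro h2
    have h3 : (finSuccEquiv ℂ m g).natDegree = 0 :=
      Polynomial.natDegree_eq_zero_iff_degree_le_zero.2 h2.le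
    rw [natDegree_finSuccEquiv] at h3
    omega
  obtain ⟨κ, hκ⟩ := IsAlgClosed.exists_root _ h1
  exact ⟨κ, by rw [eval_eq_eval_mv_eval']; exact hκ⟩

private theorem gn_lc {m : ℕ} (g : MvPolynomial (Fin (m + 1)) ℂ) (hg : g ≠ 0) :
    (finSuccEquiv ℂ m g).leadingCoeff ≠ 0 := by
  rw [Polynomial.leadingCoeff_ne_zero]
  intro h
  exact hg ((finSuccEquiv ℂ m).injective (by rw [h, map_zero]))

/-- substitution of two variables -/
private noncomputable def gsub {m : ℕ} (α : Fin m → ℂ) (i : Fin m) :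
    MvPolynomial (Fin (m + 1)) ℂ →ₐ[ℂ] MvPolynomial (Fin 2) ℂ :=
  aeval (Fin.cons (X 0) (fun j => if j = i then X 1 else C (α j)) :
    Fin (m + 1) → MvPolynomial (Fin 2) ℂ)

private theorem gsub_ev {m : ℕ} (α : Fin m → ℂ) (i : Fin m) (f : MvPolynomial (Fin (m + 1)) ℂ)
    (a b : ℂ) : ev2 (gsub α i f) a b = eval (Fin.cons a (Function.update α i b) : Fin (m + 1) → ℂ) f := by
  unfold ev2 gsub
  have h : ((eval ![a, b]).comp (aeval (Fin.cons (X 0) (fun j => if j = i then X 1 else C (α j)) :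
      Fin (m + 1) → MvPolynomial (Fin 2) ℂ) : MvPolynomial (Fin (m + 1)) ℂ →ₐ[ℂ] _).toRingHom) =
      eval (Fin.cons a (Function.update α i b) : Fin (m + 1) → ℂ) := by
    refine MvPolynomial.ringHom_ext (fun r => by simp) fun j => ?_
    refine Fin.cases ?_ (fun j => ?_) j
    · simp [-Fin.cons_update]
    · by_cases hj : j = i
      · subst hj
        simp [-Fin.cons_update]
      · simp [hj, -Fin.cons_update]
  exact RingHom.congr_fun h f

/-- one variable -/
private noncomputable def gone {m : ℕ} (α : Fin m → ℂ) (i : Fin m) :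
    MvPolynomial (Fin m) ℂ →ₐ[ℂ] Polynomial ℂ :=
  aeval (fun j => if j = i then Polynomial.X else Polynomial.C (α j))

private theorem gone_ev {m : ℕ} (α : Fin m → ℂ) (i : Fin m) (f : MvPolynomial (Fin m) ℂ)
    (b : ℂ) : (gone α i f).eval b = eval (Function.update α i b) f := by
  unfold gone
  have h : ((Polynomial.evalRingHom b).comp (aeval (fun j => if j = i then Polynomial.X else
      Polynomial.C (α j)) : MvPolynomial (Fin m) ℂ →ₐ[ℂ] Polynomial ℂ).toRingHom) =
      eval (Function.update α i b) := by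
    refine MvPolynomial.ringHom_ext (fun r => by simp) fun j => ?_
    by_cases hj : j = i
    · subst hj
      simp
    · simp [hj]
  exact RingHom.congr_fun h f

/-- the zeros of `R(X, exp X)` -/
private theorem gn_zeros (R : MvPolynomial (Fin 2) ℂ) (hR : R ≠ 0) :
    {κ : ℂ | ev2 R κ (Complex.exp κ) = 0}.Countable := by
  set Z : Set ℂ := {κ : ℂ | ev2 R κ (Complex.exp κ) = 0} with hZ
  have hd : DiscreteTopology Z := by
    rw [discreteTopology_subtype_iff]
    intro κ _
    obtain ⟨r, c, M, hr, hc, h⟩ := expXR R hR κ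
    rw [← disjoint_iff, Filter.disjoint_principal_right]
    rw [mem_nhdsWithin_iff_exists_mem_nhds_inter]
    refine ⟨Metric.closedBall κ r, Metric.closedBall_mem_nhds κ hr, ?_⟩
    rintro z ⟨hz1, hz2⟩ hz3
    have h1 := h z (by rw [← dist_eq_norm]; exact hz1)
    have h2 : ev2 R z (Complex.exp z) = 0 := hz3
    rw [h2, norm_zero] at h1
    have h3 : 0 < ‖z - κ‖ := norm_pos_iff.2 (sub_ne_zero.2 hz2)
    have h4 : 0 < c * ‖z - κ‖ ^ M := by positivity
    linarith
  have : Countable Z := TopologicalSpace.separableSpace_iff_countable.1 inferInstance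
  exact Set.countable_coe_iff.1 this

theorem gen_kappa {m : ℕ} (F : MvPolynomial (Fin (m + 1)) ℂ) (hA : ∃ a, 1 ≤ a ∧ topc F a ≠ 0)
    (hvar : ∀ κ : ℂ, ∃ x : Fin m → ℂ, (pj F x).eval κ ≠ 0)
    (N : MvPolynomial (Fin (m + 1)) ℂ) (hN : N ≠ 0) (S : MvPolynomial (Fin m) ℂ) (hS : S ≠ 0)
    (B : Set ℂ) (hB : B.Countable) :
    ∃ (α : Fin m → ℝ) (κ : ℂ), (pj F fun j => (α j : ℂ)).eval κ = 0 ∧
      (pj F fun j => (α j : ℂ)) ≠ 0 ∧ eval (fun j => (α j : ℂ)) S ≠ 0 ∧ κ ∉ B ∧
      eval (Fin.cons (Complex.exp κ) fun j => (α j : ℂ)) N ≠ 0 := by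
  classical
  obtain ⟨a, ha1, ha⟩ := hA
  -- the top part
  set Pp : Polynomial (MvPolynomial (Fin m) ℂ) :=
    ∑ a ∈ (finSuccEquiv ℂ m F).support, Polynomial.monomial a (topc F a) with hPp
  set P : MvPolynomial (Fin (m + 1)) ℂ := (finSuccEquiv ℂ m).symm Pp with hPdef
  have hPe : finSuccEquiv ℂ m P = Pp := by rw [hPdef, AlgEquiv.apply_symm_apply]
  have hev : ∀ (κ : ℂ) (x : Fin m → ℂ), eval (Fin.cons κ x : Fin (m + 1) → ℂ) P =
      (pj F x).eval κ := by
    intro κ x
    rw [eval_eq_eval_mv_eval', hPe, hPp, Polynomial.map_sum]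
    unfold pj
    simp only [Polynomial.map_monomial]
  have hcoef : Pp.coeff a = topc F a := by
    rw [hPp, Polynomial.finsetSum_coeff, Finset.sum_eq_single a]
    · rw [Polynomial.coeff_monomial, if_pos rfl]
    · intro b _ hb
      rw [Polynomial.coeff_monomial, if_neg hb]
    · intro hna
      rw [Polynomial.notMem_support_iff] at hna
      exfalso
      apply ha
      unfold topc
      rw [hna, map_zero]
  have hP0 : P ≠ 0 := by
    intro h
    apply ha
    rw [← hcoef, ← hPe, h, map_zero, Polynomial.coeff_zero]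
  have hPd : 0 < degreeOf 0 P := by
    rw [← natDegree_finSuccEquiv, hPe]
    have h1 := Polynomial.le_natDegree_of_ne_zero (n := a) (p := Pp) (by rw [hcoef]; exact ha)
    omega
  obtain ⟨g, hg, hgP, hg0⟩ := gn_fac P hP0 hPd
  -- it involves some `x_i`
  obtain ⟨i, hi⟩ : ∃ i : Fin m, 0 < degreeOf i.succ g := by
    by_contra hcon
    push Not at hcon
    obtain ⟨x0, hx0⟩ : ∃ x0 : Fin m → ℂ, eval x0 (finSuccEquiv ℂ m g).leadingCoeff ≠ 0 := by
      by_contra h
      push Not at h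
      exact gn_lc g hg.ne_zero (MvPolynomial.funext fun x => by rw [h x, map_zero])
    obtain ⟨κ, hκ⟩ := gn_root g hg0 x0 hx0
    obtain ⟨x, hx⟩ := hvar κ
    apply hx
    rw [← hev]
    obtain ⟨q, hq⟩ := hgP
    have h1 : eval (Fin.cons κ x : Fin (m + 1) → ℂ) g =
        eval (Fin.cons κ x0 : Fin (m + 1) → ℂ) g := by
      refine MvPolynomial.hom_congr_vars (by ext; simp) (fun j hj _ => ?_) rfl
      rw [eval_X, eval_X]
      rw [mem_vars_iff_degreeOf_ne_zero] at hj
      refine Fin.cases (fun _ => ?_) (fun j hj => ?_) j hj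
      · simp
      · exact absurd (Nat.le_zero.1 (hcon j)) hj
    rw [hq, map_mul, h1, hκ, zero_mul]
  obtain ⟨c, hc0, hc⟩ := no_vert g hg i hi
  -- generic `α₀`
  set W : MvPolynomial (Fin m) ℂ := (finSuccEquiv ℂ m g).leadingCoeff * topc F a * S *
    (finSuccEquiv ℂ m N).leadingCoeff with hW
  have hW0 : W ≠ 0 := mul_ne_zero (mul_ne_zero (mul_ne_zero (gn_lc g hg.ne_zero) ha) hS)
    (gn_lc N hN)
  obtain ⟨α₀, hα₀⟩ := exists_real_avoid (ι := Unit) (fun _ => c * W)
    (fun _ => mul_ne_zero hc0 hW0)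
  have hα := hα₀ ()
  rw [map_mul] at hα
  set β : Fin m → ℂ := fun j => (α₀ j : ℂ) with hβ
  have hcβ : eval β c ≠ 0 := left_ne_zero_of_mul hα
  have hWβ : eval β W ≠ 0 := right_ne_zero_of_mul hα
  obtain ⟨-, hnv⟩ := hc β hcβ
  have hupd : Function.update β i (β i) = β := Function.update_eq_self i β
  -- two variables
  set P2 := gsub β i g with hP2
  set N2 := gsub β i N with hN2
  have hN20 : N2 ≠ 0 := by
    intro h
    have h1 : ∀ y : ℂ, eval (Fin.cons y β : Fin (m + 1) → ℂ) N = 0 := by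
      intro y
      have h2 := gsub_ev β i N y (β i)
      rw [hupd, ← hN2, h] at h2
      rw [← h2]
      simp [ev2]
    have h3 : Polynomial.map (eval β) (finSuccEquiv ℂ m N) = 0 := by
      apply Polynomial.funext
      intro y
      rw [← eval_eq_eval_mv_eval', h1 y, Polynomial.eval_zero]
    have h4 := congrArg (fun p => Polynomial.coeff p (finSuccEquiv ℂ m N).natDegree) h3
    simp only [Polynomial.coeff_map, Polynomial.coeff_zero] at h4
    apply hWβ
    rw [hW, map_mul]
    rw [show eval β (finSuccEquiv ℂ m N).leadingCoeff = 0 from h4, mul_zero]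
  obtain ⟨R, Bp, hR, hRev⟩ : ∃ (R : MvPolynomial (Fin 2) ℂ) (Bp : MvPolynomial (Fin 3) ℂ),
      R ≠ 0 ∧ ∀ᶠ T : ℝ in atTop, ∀ X y : ℂ, ev2 P2 X T = 0 →
        ev2 R X y = MvPolynomial.eval ![X, y, (T : ℂ)] Bp * ev2 N2 y T := by
    have hmul : ∀ a b : ℂ, ev2 ((X 0 * X 1 - 1) * P2) a b = (a * b - 1) * ev2 P2 a b := by
      intro a b
      simp [ev2]
    rcases resPN ((X 0 * X 1 - 1) * P2) N2 0 (by
      obtain ⟨s, hs⟩ := hnv 0
      refine ⟨s, ?_⟩
      rw [hmul, zero_mul, hP2, gsub_ev]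
      exact mul_ne_zero (by norm_num) hs) hN20 with ⟨r, hr, hev1⟩ | ⟨R, Bp, hR, hev1⟩
    · exfalso
      obtain ⟨T, hT1, hT2⟩ := (hev1.and (eventually_ge_atTop (max 1 (1 / r)))).exists
      have hT3 : 1 ≤ T := (le_max_left _ _).trans hT2
      have hT4 : 1 / r ≤ T := (le_max_right _ _).trans hT2
      apply hT1 (1 / (T : ℂ))
      · rw [sub_zero, norm_div, norm_one, Complex.norm_real, Real.norm_of_nonneg (by linarith)]
        rw [div_le_iff₀ (by linarith)]
        rw [div_le_iff₀ hr] at hT4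
        linarith
      · rw [hmul]
        have : (T : ℂ) ≠ 0 := by
          norm_cast
          linarith
        rw [one_div, inv_mul_cancel₀ this, sub_self, zero_mul]
    · refine ⟨R, Bp, hR, hev1.mono fun T hT X y hX => hT X y ?_⟩
      rw [hmul, hX, mul_zero]
  -- large `T`
  have hWT : ∀ᶠ T : ℝ in atTop, eval (Function.update β i (T : ℂ)) W ≠ 0 := by
    have h1 : gone β i W ≠ 0 := by
      intro h
      have h2 := gone_ev β i W (β i)
      rw [hupd, h, Polynomial.eval_zero] at h2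
      exact hWβ h2.symm
    have h3 : {z : ℂ | (gone β i W).IsRoot z}.Finite := Polynomial.finite_setOf_isRoot h1
    have h4 : {T : ℝ | (gone β i W).IsRoot (T : ℂ)}.Finite :=
      h3.preimage (Complex.ofReal_injective.injOn)
    obtain ⟨M, hM⟩ := h4.bddAbove
    filter_upwards [eventually_gt_atTop M] with T hT h5
    apply not_lt.2 (hM (a := T) _) hT
    change (gone β i W).eval (T : ℂ) = 0
    rw [gone_ev, h5]
  obtain ⟨T₀, hT₀⟩ := eventually_atTop.1 (hWT.and hRev)
  -- roots
  have hroot : ∀ T : ℝ, T₀ ≤ T → ∃ κ : ℂ, ev2 P2 κ T = 0 := by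
    intro T hT
    have h1 := (hT₀ T hT).1
    rw [hW, map_mul, map_mul, map_mul] at h1
    obtain ⟨κ, hκ⟩ := gn_root g hg0 (Function.update β i (T : ℂ))
      (left_ne_zero_of_mul (left_ne_zero_of_mul (left_ne_zero_of_mul h1)))
    exact ⟨κ, by rw [hP2, gsub_ev]; exact hκ⟩
  choose! K hK using hroot
  by_contra hcon
  push Not at hcon
  have hKB : ∀ T : ℝ, T₀ ≤ T → K T ∈ B ∪ {κ : ℂ | ev2 R κ (Complex.exp κ) = 0} := by
    intro T hT
    by_contra hnot
    rw [Set.mem_union, not_or] at hnot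
    obtain ⟨h1, h2⟩ := hT₀ T hT
    have hreal : (fun j => ((Function.update α₀ i T j : ℝ) : ℂ)) = Function.update β i (T : ℂ) := by
      funext j
      by_cases hj : j = i
      · subst hj
        simp
      · simp [hj, hβ]
    have hgK : eval (Fin.cons (K T) (Function.update β i (T : ℂ)) : Fin (m + 1) → ℂ) g = 0 := by
      rw [← gsub_ev, ← hP2]
      exact hK T hT
    rw [hW, map_mul, map_mul, map_mul] at h1
    have h3 := hcon (Function.update α₀ i T) (K T)
    rw [hreal] at h3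
    have h4 := h3 (by
      rw [← hev]
      obtain ⟨q, hq⟩ := hgP
      rw [hq, map_mul, hgK, zero_mul])
      (pj_ne_zero F _ a (right_ne_zero_of_mul (left_ne_zero_of_mul (left_ne_zero_of_mul h1))))
      (right_ne_zero_of_mul (left_ne_zero_of_mul h1)) hnot.1
    apply hnot.2
    change ev2 R (K T) (Complex.exp (K T)) = 0
    rw [h2 (K T) (Complex.exp (K T)) (hK T hT), hN2, gsub_ev, h4, mul_zero]
  have hcount : (B ∪ {κ : ℂ | ev2 R κ (Complex.exp κ) = 0}).Countable := hB.union (gn_zeros R hR)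
  have hfin : ∀ κ : ℂ, {T : ℝ | ev2 P2 κ T = 0}.Finite := by
    intro κ
    obtain ⟨s, hs⟩ := hnv κ
    set q : Polynomial ℂ := (aeval (![Polynomial.C κ, Polynomial.X] : Fin 2 → Polynomial ℂ) P2) with hq
    have hqe : ∀ b : ℂ, q.eval b = ev2 P2 κ b := by
      intro b
      have h : ((Polynomial.evalRingHom b).comp
          (aeval (![Polynomial.C κ, Polynomial.X] : Fin 2 → Polynomial ℂ) :
            MvPolynomial (Fin 2) ℂ →ₐ[ℂ] Polynomial ℂ).toRingHom) = MvPolynomial.eval ![κ, b] := by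
        refine MvPolynomial.ringHom_ext (fun r => by simp) fun j => ?_
        fin_cases j <;> simp
      exact RingHom.congr_fun h P2
    have hq0 : q ≠ 0 := by
      intro h
      apply hs
      rw [← gsub_ev, ← hP2, ← hqe, h, Polynomial.eval_zero]
    have h3 : {z : ℂ | q.IsRoot z}.Finite := Polynomial.finite_setOf_isRoot hq0
    refine (h3.preimage (Complex.ofReal_injective.injOn)).subset fun T hT => ?_
    change q.eval (T : ℂ) = 0
    rw [hqe]
    exact hT
  have hIci : (Set.Ici T₀).Countable := by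
    refine (hcount.biUnion fun κ _ => (hfin κ).countable).mono fun T hT => ?_
    rw [Set.mem_iUnion₂]
    exact ⟨K T, hKB T hT, hK T hT⟩
  have h1 := hIci.measure_zero MeasureTheory.volume
  rw [Real.volume_Ici] at h1
  exact ENNReal.top_ne_zero h1

end Pool.Agent.EXQ
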