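import Pool.Agent.EXQ.Defs
import Pool.Agent.EXP.Good
import Pool.Agent.EXP.Punct
import Pool.Agent.EXP.Model

/-!
# EXQ / GoodV: good germs of `Tz Q` over all but finitely many values of `y_0`

PROOF.  `EXP.punct` with `μ = e_0` gives an order vector `v` with `v_0 ≠ 0`; `good_pts` with `lam = e_0`: outside a finite set of `w`
there is a good germ at `w`. `EXP.model` with `i0 = 0`: for `D(z) ≠ 0` there is `θ` with `p(z, θ) = 0` (`p` monic, irreducible, so of positive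
degree) and a point `w ∈ Tz Q` with `w_0 = z`. So `B` = zeros of `D` and the first coordinates of the finite set.
-/

set_option autoImplicit false

namespace Pool.Agent.EXQ

open MvPolynomial Filter Topology Pool.Agent.EXP Pool.Agent.EXM

theorem good_val {m : ℕ} (Q : Ideal (MvPolynomial (Fin (m + 1)) ℂ)) (hQ : Q.IsPrime)
    (hY : ∀ j, (X j : MvPolynomial (Fin (m + 1)) ℂ) ∉ Q)
    (hdim : Algebra.trdeg ℂ (MvPolynomial (Fin (m + 1)) ℂ ⧸ Q) = 1)
    (hy0 : ∀ c : ℂ, ∃ w ∈ Tz Q, w 0 ≠ c) :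
    ∃ B : Set ℂ, B.Finite ∧ ∀ lam : ℂ, lam ≠ 0 → lam ∉ B →
      ∃ x : ℂ → Fin (m + 1) → ℂ, (∀ j, AnalyticAt ℂ (fun t => x t j) 0) ∧
        (∀ᶠ t in 𝓝 (0 : ℂ), (fun j => Complex.exp (x t j)) ∈ Tz Q) ∧
        Complex.exp (x 0 0) = lam ∧ ¬ ∀ᶠ t in 𝓝 (0 : ℂ), x t 0 = x 0 0 := by
  classical
  obtain ⟨v, hv, hv0⟩ := punct Q hQ hY hdim (Fin.cons 1 fun _ => 0) (fun c => by
    obtain ⟨w, hw, hc⟩ := hy0 c
    refine ⟨w, hw, ?_⟩
    rw [Fin.prod_univ_succ]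
    simpa using hc)
  have hv1 : v 0 ≠ 0 := by
    rw [Fin.sum_univ_succ] at hv0
    simpa using hv0
  obtain ⟨Bw, hBw, hgood⟩ := good_pts Q hQ hY hdim (Fin.cons 1 fun _ => 0) v hv (by
    rw [Fin.sum_univ_succ]
    simpa using hv1)
  obtain ⟨p, A, D, S, hmon, hirr, hD, -, h1, -⟩ := model Q hQ hY hdim 0 (fun c hc => by
    obtain ⟨w, hw, hwc⟩ := hy0 c
    apply hwc
    have h2 := hw.1 _ hc
    rw [map_sub, eval_X, eval_C, sub_eq_zero] at h2
    exact h2)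
  refine ⟨{z | D.IsRoot z} ∪ (fun w => w 0) '' Bw,
    (Polynomial.finite_setOfPred_isRoot hD).union (hBw.image _), fun lam hlam hB => ?_⟩
  have hDl : D.eval lam ≠ 0 := fun h => hB (Or.inl h)
  have hdeg : p.natDegree ≠ 0 := by
    intro h
    have h2 : p = 1 := hmon.natDegree_eq_zero.1 h
    rw [h2] at hirr
    exact not_irreducible_one hirr
  obtain ⟨θ, hθ⟩ : ∃ θ, ev p lam θ = 0 := by
    have h2 : (p.map (Polynomial.evalRingHom lam)).degree ≠ 0 := by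
      rw [hmon.degree_map, Polynomial.degree_eq_natDegree hmon.ne_zero]
      exact_mod_cast hdeg
    obtain ⟨θ, hθ⟩ := IsAlgClosed.exists_root _ h2
    exact ⟨θ, hθ⟩
  obtain ⟨hw, hw0⟩ := h1 lam θ hDl hθ
  obtain ⟨x, hx1, hx2, hx3, hx4⟩ := hgood _ hw (fun h => hB (Or.inr ⟨_, h, hw0⟩))
  refine ⟨x, hx1, hx3, (hx2 0).trans hw0, fun h => hx4 ?_⟩
  filter_upwards [h] with t ht
  rw [Fin.sum_univ_succ, Fin.sum_univ_succ]
  simp [ht]

end Pool.Agent.EXQ
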