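import Pool.Agent.EXQ.Defs
import Pool.Agent.EXM.NearM

/-!
# EXQ / NearR: branch with `exp X_k → lam`, gradient 0

PROOF.  Copy of EXM/NearM with `h = 0`, `α₀ = 0`: `f(t) = x_0(t) - x_0(0)`, `hurwitz` with `δ`. For large `k` take `l_j` nearest
to `T_k α_j / (2 π)` for `j ≥ 1` (distance `≤ 1`, no density needed), and `l_0` with `‖x_0(0) + 2 π i l_0 - X_k‖ < δ / 4`
(exists, as `exp X_k → lam = exp x_0(0)`). `g(t) = x_0(t) + 2 π i l_0 - X₀(2 π i l' + x'(t))` is within `δ` of `f`. Rest (zero of `g`,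
`F(z) = 0`, `exp z ∈ Tz Q`, `E ≠ 0` by `nb_Emain`, `nb_Econt`) as there.
-/

set_option autoImplicit false

namespace Pool.Agent.EXQ

open MvPolynomial Filter Topology Pool.Agent.EXP Pool.Agent.EXM

theorem nearR {m : ℕ} (Q : Ideal (MvPolynomial (Fin (m + 1)) ℂ))
    (F : MvPolynomial (Fin (m + 1)) ℂ) (α : Fin m → ℝ) (T : ℕ → ℝ) (X : ℕ → ℂ)
    (hB : Branch F 0 α (fun _ => 0) T X) (lam : ℂ)
    (hlam : Tendsto (fun k => Complex.exp (X k)) atTop (𝓝 lam))
    (x : ℂ → Fin (m + 1) → ℂ) (hx : ∀ j, AnalyticAt ℂ (fun t => x t j) 0)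
    (hxW : ∀ᶠ t in 𝓝 (0 : ℂ), (fun j => Complex.exp (x t j)) ∈ Tz Q)
    (hx0 : Complex.exp (x 0 0) = lam)
    (hx1 : ¬ ∀ᶠ t in 𝓝 (0 : ℂ), x t 0 = x 0 0)
    (E : MvPolynomial (Fin m) (MvPolynomial (Fin (m + 1)) ℂ)) (D : ℕ)
    (hD : ∀ w ∈ Tz Q, (map (eval w) E).totalDegree ≤ D)
    (hE : eval (fun j : Fin m => (α j : ℂ))
      (homogeneousComponent D (map (eval fun j => Complex.exp (x 0 j)) E)) ≠ 0) :
    ∃ z : Fin (m + 1) → ℂ, eval z F = 0 ∧ (fun j => Complex.exp (z j)) ∈ Tz Q ∧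
      eval (fun j => z j.succ) (map (eval fun j => Complex.exp (z j)) E) ≠ 0 := by
  have hpi := Real.pi_gt_three
  have hpi0 : 0 < Real.pi := Real.pi_pos
  -- the value of the leading part of `E` at `exp x(t)`
  set φ : ℂ → ℂ := fun t => eval (fun j : Fin m => (α j : ℂ))
    (homogeneousComponent D (map (eval fun j => Complex.exp (x t j)) E)) with hφ
  have hφc : ContinuousAt φ 0 := by
    have h1 : φ = (fun w : Fin (m + 1) → ℂ => eval (fun j : Fin m => (α j : ℂ))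
        (map (eval w) (homogeneousComponent D E))) ∘ fun t j => Complex.exp (x t j) := by
      funext t
      rw [hφ]
      simp only [Function.comp_apply]
      rw [nb_map_comp]
    rw [h1]
    refine ContinuousAt.comp (nb_Econt _ _).continuousAt ?_
    exact continuousAt_pi.2 fun j => (hx j).continuousAt.cexp
  obtain ⟨δ₀, hδ₀, hδφ⟩ : ∃ δ₀ : ℝ, 0 < δ₀ ∧ ∀ᶠ t in 𝓝 (0 : ℂ), δ₀ ≤ ‖φ t‖ := by
    have h0 : 0 < ‖φ 0‖ := norm_pos_iff.2 hE
    refine ⟨‖φ 0‖ / 2, by positivity, ?_⟩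
    have h1 : ∀ᶠ t in 𝓝 (0 : ℂ), ‖φ 0‖ / 2 < ‖φ t‖ :=
      hφc.norm.eventually_const_lt (by linarith)
    exact h1.mono fun t ht => ht.le
  -- a closed disc
  have hev : ∀ᶠ t in 𝓝 (0 : ℂ), (∀ j, AnalyticAt ℂ (fun t => x t j) t) ∧
      (fun j => Complex.exp (x t j)) ∈ Tz Q ∧ δ₀ ≤ ‖φ t‖ :=
    (eventually_all.2 fun j => (hx j).eventually_analyticAt).and (hxW.and hδφ)
  obtain ⟨r', hr', hball⟩ := Metric.eventually_nhds_iff_ball.1 hev
  obtain ⟨r, hr, hrr⟩ : ∃ r : ℝ, 0 < r ∧ r < r' := ⟨r' / 2, by linarith, by linarith⟩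
  have hcl : ∀ t ∈ Metric.closedBall (0 : ℂ) r, (∀ j, AnalyticAt ℂ (fun t => x t j) t) ∧
      (fun j => Complex.exp (x t j)) ∈ Tz Q ∧ δ₀ ≤ ‖φ t‖ := fun t ht =>
    hball t (Metric.closedBall_subset_ball hrr ht)
  -- a bound
  obtain ⟨B₁, hB₁, hB₂⟩ : ∃ B₁ : ℝ, (∀ t ∈ Metric.closedBall (0 : ℂ) r, ∀ j, ‖x t j‖ ≤ B₁) ∧
      ∀ t ∈ Metric.closedBall (0 : ℂ) r, ∀ j, ‖Complex.exp (x t j)‖ ≤ B₁ := by
    have hcont : ∀ j, ContinuousOn (fun t => x t j) (Metric.closedBall (0 : ℂ) r) :=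
      fun j t ht => ((hcl t ht).1 j).continuousAt.continuousWithinAt
    choose b₁ hb₁ using fun j =>
      (isCompact_closedBall (0 : ℂ) r).exists_bound_of_continuousOn (hcont j)
    choose b₂ hb₂ using fun j =>
      (isCompact_closedBall (0 : ℂ) r).exists_bound_of_continuousOn (hcont j).cexp
    refine ⟨∑ j, (|b₁ j| + |b₂ j|), fun t ht j => ?_, fun t ht j => ?_⟩
    · refine (hb₁ j t ht).trans ?_
      have h1 := Finset.single_le_sum (f := fun j => |b₁ j| + |b₂ j|)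
        (fun j _ => by positivity) (Finset.mem_univ j)
      have h2 := le_abs_self (b₁ j)
      have h3 := abs_nonneg (b₂ j)
      linarith
    · refine (hb₂ j t ht).trans ?_
      have h1 := Finset.single_le_sum (f := fun j => |b₁ j| + |b₂ j|)
        (fun j _ => by positivity) (Finset.mem_univ j)
      have h2 := le_abs_self (b₂ j)
      have h3 := abs_nonneg (b₁ j)
      linarith
  -- the limit function
  set f : ℂ → ℂ := fun t => x t 0 - x 0 0 with hf
  have hfa : AnalyticOnNhd ℂ f (Metric.closedBall 0 r) := by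
    intro t ht
    exact AnalyticAt.sub ((hcl t ht).1 0) analyticAt_const
  have hf0 : f 0 = 0 := sub_self _
  have hfne : ¬ ∀ᶠ t in 𝓝 (0 : ℂ), f t = 0 := fun h =>
    hx1 (h.mono fun t ht => sub_eq_zero.1 ht)
  obtain ⟨δ, hδ, hH⟩ := hurwitz f 0 r hr hfa hf0 hfne
  -- constants
  obtain ⟨B, hBM, hBB, hB0⟩ : ∃ B : ℝ, 1 / 2 ≤ B ∧ B₁ ≤ B ∧ 0 ≤ B := by
    refine ⟨1 + |B₁|, ?_, ?_, by positivity⟩
    · have h2 := abs_nonneg B₁
      linarith
    · have h1 := le_abs_self B₁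
      linarith
  obtain ⟨B', hB'⟩ : ∃ B' : ℝ, B' = 2 * Real.pi * B + B := ⟨_, rfl⟩
  have hB'0 : 0 ≤ B' := by rw [hB']; positivity
  obtain ⟨C₂, hC₂0, hC₂⟩ := nb_Emain E D α B
  have hε : 0 < δ / (4 * (B' + 1)) := by positivity
  obtain ⟨η, hη, hsh⟩ := hB.sheet (δ / (4 * (B' + 1))) hε
  have ev1 : ∀ᶠ k in atTop, B' < η * T k :=
    (hB.tend.const_mul_atTop hη).eventually_gt_atTop B'
  have ev2 : ∀ᶠ k in atTop, ∃ l₀ : ℤ, ‖x 0 0 + l₀ * (2 * Real.pi * Complex.I) - X k‖ < δ / 4 := by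
    have h1 : Tendsto (fun k => Complex.exp (X k - x 0 0)) atTop (𝓝 1) := by
      have h2 := hlam.div_const lam
      have h3 : lam ≠ 0 := by rw [← hx0]; exact Complex.exp_ne_zero _
      rw [div_self h3] at h2
      refine h2.congr fun k => ?_
      rw [Complex.exp_sub, hx0]
    have h2 : Tendsto (fun k => Complex.log (Complex.exp (X k - x 0 0))) atTop (𝓝 0) := by
      have h3 := (continuousAt_clog Complex.one_mem_slitPlane).tendsto.comp h1
      rw [Complex.log_one] at h3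
      exact h3
    have h3 := Metric.tendsto_nhds.1 h2 (δ / 4) (by positivity)
    filter_upwards [h3] with k hk
    rw [dist_zero_right] at hk
    have h4 : Complex.exp (X k - x 0 0) =
        Complex.exp (Complex.log (Complex.exp (X k - x 0 0))) :=
      (Complex.exp_log (Complex.exp_ne_zero _)).symm
    obtain ⟨n, hn⟩ := Complex.exp_eq_exp_iff_exists_int.1 h4
    refine ⟨n, ?_⟩
    have h5 : x 0 0 + n * (2 * Real.pi * Complex.I) - X k =
        -Complex.log (Complex.exp (X k - x 0 0)) := by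
      linear_combination -hn
    rw [h5, norm_neg]
    exact hk
  have ev3 : ∀ᶠ k in atTop, max (2 * Real.pi) (2 * Real.pi * (C₂ / δ₀)) < T k :=
    hB.tend.eventually_gt_atTop _
  obtain ⟨k, ⟨⟨⟨X₀, hX1, hX2, hX3⟩, hk1⟩, ⟨l₀, hk2⟩⟩, hk3⟩ :=
    (((hsh.and ev1).and ev2).and ev3).exists
  have hT2 : 2 * Real.pi < T k := lt_of_le_of_lt (le_max_left _ _) hk3
  have hT0 : 0 < T k := by linarith
  have hT1 : 1 ≤ T k / (2 * Real.pi) := by
    rw [le_div_iff₀ (by positivity)]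
    linarith
  have hTC₂ : C₂ / (T k / (2 * Real.pi)) < δ₀ := by
    have h1 : 2 * Real.pi * (C₂ / δ₀) < T k := lt_of_le_of_lt (le_max_right _ _) hk3
    rw [div_lt_iff₀ (by linarith)]
    rw [← lt_div_iff₀' (by positivity), div_lt_iff₀ hδ₀] at h1
    linarith
  obtain ⟨l, hl0, hl1⟩ : ∃ l : Fin (m + 1) → ℤ, l 0 = l₀ ∧
      ∀ j : Fin m, |(l j.succ : ℝ) - T k * α j / (2 * Real.pi)| ≤ 1 / 2 := by
    refine ⟨Fin.cons l₀ fun j => round (T k * α j / (2 * Real.pi)), Fin.cons_zero _ _, fun j => ?_⟩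
    rw [Fin.cons_succ, abs_sub_comm]
    exact abs_sub_round _
  set θ : ℂ := 2 * Real.pi * Complex.I with hθ
  have hθn : ‖θ‖ = 2 * Real.pi := by
    rw [hθ]
    simp [abs_of_pos Real.pi_pos]
  -- the points
  set P : ℂ → Fin m → ℂ := fun t j => θ * (((l j.succ : ℤ) : ℝ) : ℂ) + x t j.succ with hP
  have hPj : ∀ t (j : Fin m), P t j - ipt (T k) α j =
      Complex.I * ((2 * Real.pi * l j.succ - T k * α j : ℝ) : ℂ) + x t j.succ := by
    intro t j
    rw [hP, ipt, hθ]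
    push_cast
    ring
  have hPn : ∀ t ∈ Metric.closedBall (0 : ℂ) r, ‖P t - ipt (T k) α‖ ≤ B' := by
    intro t ht
    rw [pi_norm_le_iff_of_nonneg hB'0]
    intro j
    rw [Pi.sub_apply, hPj]
    refine (norm_add_le _ _).trans ?_
    rw [norm_mul, Complex.norm_I, one_mul, Complex.norm_real, Real.norm_eq_abs, hB']
    refine add_le_add ?_ ((hB₁ t ht _).trans hBB)
    have h1 : 2 * Real.pi * (l j.succ : ℝ) - T k * α j =
        2 * Real.pi * ((l j.succ : ℝ) - T k * α j / (2 * Real.pi)) := by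
      field_simp
    rw [h1, abs_mul, abs_of_pos (by positivity : (0 : ℝ) < 2 * Real.pi)]
    exact mul_le_mul_of_nonneg_left ((hl1 j).trans hBM) (by positivity)
  have hPb : ∀ t ∈ Metric.closedBall (0 : ℂ) r, P t ∈ Metric.ball (ipt (T k) α) (η * T k) := by
    intro t ht
    rw [mem_ball_iff_norm]
    exact lt_of_le_of_lt (hPn t ht) hk1
  set g : ℂ → ℂ := fun t => θ * (((l 0 : ℤ) : ℝ) : ℂ) + x t 0 - X₀ (P t) with hg
  have hga : AnalyticOnNhd ℂ g (Metric.closedBall 0 r) := by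
    intro t ht
    rw [Complex.analyticAt_iff_eventually_differentiableAt]
    have hPan : ∀ s, (∀ j, AnalyticAt ℂ (fun t => x t j) s) → DifferentiableAt ℂ P s := by
      intro s hs
      rw [differentiableAt_pi]
      intro j
      exact (differentiableAt_const _).add (hs j.succ).differentiableAt
    have h1 : ∀ᶠ s in 𝓝 t, ∀ j, AnalyticAt ℂ (fun t => x t j) s :=
      eventually_all.2 fun j => ((hcl t ht).1 j).eventually_analyticAt
    have h2 : ∀ᶠ s in 𝓝 t, P s ∈ Metric.ball (ipt (T k) α) (η * T k) :=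
      (hPan t (hcl t ht).1).continuousAt.eventually_mem (Metric.isOpen_ball.mem_nhds (hPb t ht))
    filter_upwards [h1, h2] with s hs1 hs2
    refine ((differentiableAt_const _).add (hs1 0).differentiableAt).sub ?_
    exact DifferentiableAt.comp s ((hX1 _ hs2).differentiableAt (Metric.isOpen_ball.mem_nhds hs2))
      (hPan s hs1)
  have hgf : ∀ t ∈ Metric.closedBall (0 : ℂ) r, ‖g t - f t‖ < δ := by
    intro t ht
    obtain ⟨err, herr⟩ : ∃ err : ℂ, err = X₀ (P t) - X k := ⟨_, rfl⟩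
    have h1 := (hX3 (P t) (hPb t ht)).2
    simp only [Complex.ofReal_zero, zero_mul, Finset.sum_const_zero, sub_zero] at h1
    rw [← herr] at h1
    have h2 : ‖err‖ ≤ δ / 4 := by
      refine h1.trans ?_
      calc δ / (4 * (B' + 1)) * ‖P t - ipt (T k) α‖ ≤ δ / (4 * (B' + 1)) * (B' + 1) := by
            refine mul_le_mul_of_nonneg_left ?_ hε.le
            have := hPn t ht
            linarith
        _ = δ / 4 := by
            field_simp
    have e : g t - f t = (x 0 0 + l₀ * (2 * Real.pi * Complex.I) - X k) - err := by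
      rw [herr, hg, hf, hθ, hl0]
      push_cast
      ring
    rw [e]
    have h5 := norm_sub_le (x 0 0 + l₀ * (2 * Real.pi * Complex.I) - X k) err
    linarith
  obtain ⟨t, ht, hgt⟩ := hH g hga hgf
  -- the zero
  have hexp : (fun j => Complex.exp (θ * (((l j : ℤ) : ℝ) : ℂ) + x t j)) =
      fun j => Complex.exp (x t j) := by
    funext j
    have h1 : θ * (((l j : ℤ) : ℝ) : ℂ) = (l j : ℂ) * (2 * Real.pi * Complex.I) := by
      rw [hθ]
      push_cast
      ring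
    rw [Complex.exp_add, h1, Complex.exp_int_mul_two_pi_mul_I, one_mul]
  refine ⟨fun j => θ * (((l j : ℤ) : ℝ) : ℂ) + x t j, ?_, ?_, ?_⟩
  · have h1 := (hX3 (P t) (hPb t ht)).1
    have h2 : X₀ (P t) = θ * (((l 0 : ℤ) : ℝ) : ℂ) + x t 0 := (sub_eq_zero.1 hgt).symm
    rw [h2] at h1
    have h3 : (Fin.cons (θ * (((l 0 : ℤ) : ℝ) : ℂ) + x t 0) (P t) : Fin (m + 1) → ℂ) =
        fun j => θ * (((l j : ℤ) : ℝ) : ℂ) + x t j := by
      funext j
      refine Fin.cases ?_ (fun i => ?_) j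
      · rw [Fin.cons_zero]
      · rw [Fin.cons_succ]
    rw [h3] at h1
    exact h1
  · rw [hexp]
    exact (hcl t ht).2.1
  · rw [hexp]
    have hw : (fun j => Complex.exp (x t j)) ∈ Tz Q := (hcl t ht).2.1
    have h1 := hC₂ (T k / (2 * Real.pi)) (fun j : Fin m => ((l j.succ : ℤ) : ℝ))
      (fun j : Fin m => x t j.succ) (fun j => Complex.exp (x t j)) hT1
      (fun j => by
        have h2 := (hl1 j).trans hBM
        have h3 : T k / (2 * Real.pi) * α j = T k * α j / (2 * Real.pi) := by ring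
        rw [h3]
        exact h2)
      (fun j => (hB₁ t ht j.succ).trans hBB) (fun j => (hB₂ t ht j).trans hBB) (hD _ hw)
    intro h0
    rw [h0, zero_div, zero_sub, norm_neg] at h1
    have h2 := (hcl t ht).2.2
    rw [hφ] at h2
    exact absurd (h2.trans h1) (not_le.2 hTC₂)

end Pool.Agent.EXQ
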