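import Pool.Agent.EXQ.Defs
import Pool.Agent.EXP.GermDense

/-!
# EXQ / NormY: elimination of `w ∈ Tz Q` down to `w_0`

PROOF.  `A = ℂ[y]/Q` is a domain, algebraic over `ℂ[y_0]` (transcendence degree 1, `y_0` transcendental by `hy0`: `y_0 - c ∉ Q`, from
the existence of points), so `A[x]` is algebraic over `ℂ[y_0][x]`; the image of `E` in `A[x]` is not zero (`hE`), so some nonzero
`N ∈ ℂ[y_0][x]` is a multiple of it (`IsAlgebraic.exists_nonzero_dvd` or constant term of an algebraic equation). Evaluate at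
`w ∈ Tz Q`.
-/

set_option autoImplicit false

namespace Pool.Agent.EXQ

open MvPolynomial Filter Topology Pool.Agent.EXP Pool.Agent.EXM

private noncomputable def psi (l : ℕ) :
    MvPolynomial (Fin l) (Polynomial ℂ) →+* MvPolynomial (Fin (l + 1)) ℂ :=
  eval₂Hom (Polynomial.eval₂RingHom C (X 0)) fun i => X i.succ

private theorem eval_psi {l : ℕ} (t : ℂ) (x : Fin l → ℂ) (G : MvPolynomial (Fin l) (Polynomial ℂ)) :
    eval (Fin.cons t x : Fin (l + 1) → ℂ) (psi l G) = eval x (map (Polynomial.evalRingHom t) G) := by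
  have h : (eval (Fin.cons t x : Fin (l + 1) → ℂ)).comp (psi l) =
      (eval x).comp (map (Polynomial.evalRingHom t)) := by
    apply MvPolynomial.ringHom_ext'
    · apply Polynomial.ringHom_ext'
      · ext a
        simp [psi]
      · simp [psi]
    · intro i
      simp [psi]
  exact RingHom.congr_fun h G

private theorem psi_ne {l : ℕ} (G : MvPolynomial (Fin l) (Polynomial ℂ)) (hG : G ≠ 0) :
    psi l G ≠ 0 := by
  obtain ⟨m, hm⟩ := MvPolynomial.ne_zero_iff.1 hG
  obtain ⟨t, ht⟩ : ∃ t : ℂ, (G.coeff m).eval t ≠ 0 := by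
    by_contra hcon
    push Not at hcon
    exact hm (Polynomial.funext fun t => by simpa using hcon t)
  have h1 : map (Polynomial.evalRingHom t) G ≠ 0 := by
    rw [MvPolynomial.ne_zero_iff]
    exact ⟨m, by rw [coeff_map]; exact ht⟩
  obtain ⟨x, hx⟩ : ∃ x : Fin l → ℂ, eval x (map (Polynomial.evalRingHom t) G) ≠ 0 := by
    by_contra hcon
    push Not at hcon
    exact h1 (MvPolynomial.funext fun x => by simpa using hcon x)
  intro h0
  apply hx
  rw [← eval_psi, h0, map_zero]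

theorem norm_y {m l : ℕ} (Q : Ideal (MvPolynomial (Fin (m + 1)) ℂ)) (hQ : Q.IsPrime)
    (hY : ∀ j, (X j : MvPolynomial (Fin (m + 1)) ℂ) ∉ Q)
    (hdim : Algebra.trdeg ℂ (MvPolynomial (Fin (m + 1)) ℂ ⧸ Q) = 1)
    (hy0 : ∀ c : ℂ, ∃ w ∈ Tz Q, w 0 ≠ c)
    (E : MvPolynomial (Fin l) (MvPolynomial (Fin (m + 1)) ℂ))
    (hE : ∃ w ∈ Tz Q, map (eval w) E ≠ 0) :
    ∃ N : MvPolynomial (Fin (l + 1)) ℂ, N ≠ 0 ∧ ∀ w ∈ Tz Q, ∀ x : Fin l → ℂ,
      eval x (map (eval w) E) = 0 → eval (Fin.cons (w 0) x : Fin (l + 1) → ℂ) N = 0 := by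
  set A := MvPolynomial (Fin (m + 1)) ℂ ⧸ Q with hA
  have hdom : IsDomain A := Ideal.Quotient.isDomain Q
  set y0 : A := Ideal.Quotient.mk Q (X 0) with hy0def
  have htr : Transcendental ℂ y0 := by
    intro halg
    have hint : IsIntegral ℂ y0 := halg.isIntegral
    have hirr := minpoly.irreducible hint
    have hdeg := IsAlgClosed.degree_eq_one_of_irreducible ℂ hirr
    obtain ⟨c, hc⟩ := minpoly.mem_range_of_degree_eq_one ℂ y0 hdeg
    have h1 : (X 0 - C c : MvPolynomial (Fin (m + 1)) ℂ) ∈ Q := by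
      rw [← Ideal.Quotient.eq_zero_iff_mem, map_sub, sub_eq_zero]
      exact hc.symm
    obtain ⟨w, hw, hwc⟩ := hy0 c
    apply hwc
    have h2 := hw.1 _ h1
    simpa [sub_eq_zero] using h2
  have hbasis : IsTranscendenceBasis ℂ (fun _ : Unit => y0) := by
    apply AlgebraicIndependent.isTranscendenceBasis_of_trdeg_le_of_finite
    · exact algebraicIndependent_unique_type_iff.2 htr
    · rw [hdim]; simp
  have halg : Algebra.IsAlgebraic (Algebra.adjoin ℂ (Set.range fun _ : Unit => y0)) A :=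
    hbasis.isAlgebraic
  set R := Algebra.adjoin ℂ (Set.range fun _ : Unit => y0) with hR
  have hE' : map (Ideal.Quotient.mk Q) E ≠ 0 := by
    obtain ⟨w, hw, hwE⟩ := hE
    intro h0
    apply hwE
    have h1 : (Ideal.Quotient.lift Q (eval w) hw.1).comp (Ideal.Quotient.mk Q) = eval w :=
      Ideal.Quotient.lift_comp_mk _ _ _
    rw [← h1, ← MvPolynomial.map_map, h0, map_zero]
  obtain ⟨g, hg, hdvd⟩ := MvPolynomial.exists_dvd_map_of_isAlgebraic (R := R) (S := A) hE'
  have hy0R : y0 ∈ R := Algebra.subset_adjoin ⟨(), rfl⟩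
  let φ : Polynomial ℂ →ₐ[ℂ] R := Polynomial.aeval (⟨y0, hy0R⟩ : R)
  have hφc : ∀ p : Polynomial ℂ, ((φ p : R) : A) = Polynomial.aeval y0 p := by
    intro p
    have := Polynomial.aeval_algHom_apply R.val (⟨y0, hy0R⟩ : R) p
    exact this.symm
  have hφ : Function.Surjective φ := by
    rintro ⟨r, hr⟩
    have hr' : r ∈ Algebra.adjoin ℂ ({y0} : Set A) := by
      rw [hR, Set.range_const] at hr
      exact hr
    rw [Algebra.adjoin_singleton_eq_range_aeval] at hr'
    obtain ⟨p, hp⟩ := hr'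
    exact ⟨p, Subtype.ext ((hφc p).trans hp)⟩
  obtain ⟨G, hG⟩ := MvPolynomial.map_surjective (σ := Fin l) φ.toRingHom hφ g
  have hG0 : G ≠ 0 := by
    rintro rfl
    exact hg (by rw [← hG, map_zero])
  refine ⟨psi l G, psi_ne G hG0, fun w hw x h0 => ?_⟩
  rw [eval_psi]
  set ω : A →+* ℂ := Ideal.Quotient.lift Q (eval w) hw.1 with hω
  have h1 : ω.comp (Ideal.Quotient.mk Q) = eval w := Ideal.Quotient.lift_comp_mk _ _ _
  have h2 : (ω.comp (algebraMap R A)).comp φ.toRingHom = Polynomial.evalRingHom (w 0) := by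
    apply Polynomial.ringHom_ext
    · intro a
      have e1 : ((φ (Polynomial.C a) : R) : A) = algebraMap ℂ A a := by
        rw [hφc, Polynomial.aeval_C]
      have e2 : ω (algebraMap ℂ A a) = a := by
        have : (algebraMap ℂ A a) = Ideal.Quotient.mk Q (C a) := rfl
        rw [this, hω, Ideal.Quotient.lift_mk, eval_C]
      change ω ((φ (Polynomial.C a) : R) : A) = _
      rw [e1, e2]
      simp
    · change ω ((φ Polynomial.X : R) : A) = _
      rw [hφc, Polynomial.aeval_X, hy0def, hω, Ideal.Quotient.lift_mk, eval_X]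
      simp
  have h3 : map (Polynomial.evalRingHom (w 0)) G = map ω (map (algebraMap R A) g) := by
    rw [← h2, ← hG, MvPolynomial.map_map, MvPolynomial.map_map, RingHom.comp_assoc]
  rw [h3]
  obtain ⟨q, hq⟩ := hdvd
  rw [hq, map_mul, map_mul, MvPolynomial.map_map, h1, h0, zero_mul]

end Pool.Agent.EXQ
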