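import Pool.Agent.EXQ.BrA
import Pool.Agent.EXQ.NearR
import Pool.Agent.EXQ.Gen
import Pool.Agent.EXQ.NormY
import Pool.Agent.EXQ.GoodV
import Pool.Agent.EXM.Disc
import Pool.Agent.EXM.Core

/-!
# EXQ / CaseA: varying roots of the top part

PROOF.  (Compare EXM/Core.) `EXP.elim`: `E`; `exists_max_degree (Tz Q) E w₁ ..`: `D`, `w₂`; `T_E = homogeneousComponent D E` (an `MvPolynomial`
over `MvPolynomial`; `map (eval w) T_E = homogeneousComponent D (map (eval w) E)`); `norm_y` for `T_E`: `N`. `good_val`: `B₀`. `exists_disc`: `Δ`.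
`gen_kappa` with `N`, `S` = leading form of `Δ`, `B = {κ | exp κ ∈ B₀}` (countable): `α`, `κ`. `branchA`: `Branch`, `X_k → κ`. `good_val` at
`lam = exp κ`: `x`. `nearR` with `hE` from `N(exp κ, α) ≠ 0` (at the point `w = exp x(0)`, `w_0 = exp κ`).
-/

set_option autoImplicit false

namespace Pool.Agent.EXQ

open MvPolynomial Filter Topology Pool.Agent.EXP Pool.Agent.EXM

/-- The values `κ` with `exp κ` in a finite set are countable. -/
private theorem countable_exp (B : Set ℂ) (hB : B.Finite) :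
    {κ : ℂ | Complex.exp κ ∈ B}.Countable := by
  have h1 : {κ : ℂ | Complex.exp κ ∈ B} = ⋃ b ∈ B, {κ : ℂ | Complex.exp κ = b} := by
    ext κ
    simp
  rw [h1]
  refine hB.countable.biUnion fun b _ => ?_
  by_cases hne : ∃ κ₀ : ℂ, Complex.exp κ₀ = b
  · obtain ⟨κ₀, h0⟩ := hne
    refine (Set.countable_range fun n : ℤ => κ₀ + n * (2 * Real.pi * Complex.I)).mono ?_
    intro κ hκ
    have h2 : Complex.exp κ = Complex.exp κ₀ := by
      rw [h0]
      exact hκ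
    obtain ⟨n, hn⟩ := Complex.exp_eq_exp_iff_exists_int.1 h2
    exact ⟨n, hn.symm⟩
  · have h2 : {κ : ℂ | Complex.exp κ = b} = ∅ := by
      ext κ
      simp only [Set.mem_empty_iff_false, iff_false]
      exact fun h => hne ⟨κ, h⟩
    rw [h2]
    exact Set.countable_empty

theorem caseA {m : ℕ} (F : MvPolynomial (Fin (m + 1)) ℂ) (hF : Irreducible F)
    (hF0 : 0 < degreeOf 0 F) (hA : ∃ a, 1 ≤ a ∧ topc F a ≠ 0)
    (hvar : ∀ κ : ℂ, ∃ x : Fin m → ℂ, (pj F x).eval κ ≠ 0)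
    (Q : Ideal (MvPolynomial (Fin (m + 1)) ℂ)) (hQ : Q.IsPrime)
    (hY : ∀ j, (X j : MvPolynomial (Fin (m + 1)) ℂ) ∉ Q)
    (hdim : Algebra.trdeg ℂ (MvPolynomial (Fin (m + 1)) ℂ ⧸ Q) = 1)
    (hy0 : ∀ c : ℂ, ∃ w ∈ Tz Q, w 0 ≠ c) : Dens F Q := by
  classical
  intro h hh
  obtain ⟨z₁, w₁, hz₁, hw₁, hh₁⟩ := hh
  obtain ⟨Δ, hΔ0, hΔ⟩ := exists_disc F hF hF0
  obtain ⟨E, hE₁, hE⟩ := elim F hF hF0 h w₁ (by
    rintro ⟨q, hq⟩
    apply hh₁
    have h1 : eval z₁ (aeval (Sum.elim X fun j => C (w₁ j)) h) = eval (Sum.elim z₁ w₁) h := by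
      have h2 : ∀ P : MvPolynomial (Fin (m + 1) ⊕ Fin (m + 1)) ℂ,
          eval z₁ (aeval (Sum.elim X fun j => C (w₁ j)) P) = eval (Sum.elim z₁ w₁) P := by
        intro P
        induction P using MvPolynomial.induction_on with
        | C a => simp
        | add p q hp hq => rw [map_add, map_add, hp, hq, map_add]
        | mul_X p i hp =>
          rw [map_mul, map_mul, hp, map_mul, aeval_X, eval_X]
          rcases i with i | i <;> simp
      exact h2 h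
    rw [← h1, hq, map_mul, hz₁, zero_mul])
  obtain ⟨D, w₂, hw₂, hD, hD₂⟩ := exists_max_degree (Tz Q) E w₁ hw₁ hE₁
  obtain ⟨N, hN0, hN⟩ := norm_y Q hQ hY hdim hy0 (homogeneousComponent D E)
    ⟨w₂, hw₂, by rw [← homogeneousComponent_map]; exact hD₂⟩
  obtain ⟨B₀, hB₀, hgood⟩ := good_val Q hQ hY hdim hy0
  obtain ⟨α, κ, hκ, hne, hSα, hκB, hNα⟩ := gen_kappa F hA hvar N hN0
    (homogeneousComponent Δ.totalDegree Δ) (top_ne_zero Δ hΔ0)
    {κ : ℂ | Complex.exp κ ∈ B₀} (countable_exp B₀ hB₀)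
  obtain ⟨T, Xs, hB, hX⟩ := branchA F Δ hΔ α hSα κ hκ hne
  obtain ⟨x, hx, hxW, hx0, hx1⟩ := hgood (Complex.exp κ) (Complex.exp_ne_zero κ) hκB
  have hw0 : (fun j => Complex.exp (x 0 j)) ∈ Tz Q := hxW.self_of_nhds
  obtain ⟨z, h1, h2, h3⟩ := nearR Q F α T Xs hB (Complex.exp κ)
    ((Complex.continuous_exp.tendsto κ).comp hX) x hx hxW hx0 hx1 E D hD (by
      intro h0
      rw [homogeneousComponent_map] at h0
      have h4 := hN _ hw0 _ h0
      rw [hx0] at h4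
      exact hNα h4)
  exact ⟨z, h1, h2, fun h4 => h3 (hE z _ h1 h4)⟩

end Pool.Agent.EXQ
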