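import Pool.Agent.EXQ.Phases
import Pool.Agent.EXQ.NearR
import Pool.Agent.EXQ.NormY
import Pool.Agent.EXQ.GoodV
import Pool.Agent.EXM.Disc
import Pool.Agent.EXM.Core

/-!
# EXQ / CaseB: all roots tend to infinity

PROOF.  (Compare EXM/Core.) `L = X_0^e R`, `X_0` not dividing `R`. `EXP.elim`: `E`; `exists_max_degree`: `D`, `w₂`; `T_E = homogeneousComponent D E`;
`norm_y` for `T_E`: `N`. `good_val`: `B₀`. `exists_disc`: `Δ`. `EXP.punct` with `μ = e_0`: `v`, `v_0 ≠ 0`; `exists_order`: `N'`, `a`, `s`. `y₁` with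
`N(y₁, ·) ≠ 0`. `exists_real_avoid`: real `α` outside the zeros of `R(0, ·)`, the leading forms of `Δ` and `s`, `topc F 0`, `N(y₁, ·)`.
`B = B₀ ∪` (zeros of `N(·, α)`), finite. `phases` with `ς = 1 / v_0`, `D = 2 (E.totalDegree + 1)`. Growth: `EXM.nearG` with `h = 0`, `α₀ = 0`
(see its use in EXM/Core). Otherwise `good_val` at `lam`: `x`, and `nearR`, `hE` from `N(lam, α) ≠ 0`.
-/

set_option autoImplicit false

namespace Pool.Agent.EXQ

open MvPolynomial Filter Topology Pool.Agent.EXP Pool.Agent.EXM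

theorem caseB {m : ℕ} (F : MvPolynomial (Fin (m + 1)) ℂ) (hF : Irreducible F)
    (hX : X 0 ∣ homogeneousComponent F.totalDegree F) (hB : ∀ a, 1 ≤ a → topc F a = 0)
    (Q : Ideal (MvPolynomial (Fin (m + 1)) ℂ)) (hQ : Q.IsPrime)
    (hY : ∀ j, (X j : MvPolynomial (Fin (m + 1)) ℂ) ∉ Q)
    (hdim : Algebra.trdeg ℂ (MvPolynomial (Fin (m + 1)) ℂ ⧸ Q) = 1)
    (hy0 : ∀ c : ℂ, ∃ w ∈ Tz Q, w 0 ≠ c) : Dens F Q := by
  classical
  intro h hh
  obtain ⟨z₁, w₁, hz₁, hw₁, hh₁⟩ := hh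
  have hLne := top_ne_zero F hF.ne_zero
  obtain ⟨e, R, he, hL, hXR⟩ : ∃ (e : ℕ) (R : MvPolynomial (Fin (m + 1)) ℂ), 1 ≤ e ∧
      homogeneousComponent F.totalDegree F = X 0 ^ e * R ∧ ¬ X 0 ∣ R := by
    have hfm : FiniteMultiplicity (X 0 : MvPolynomial (Fin (m + 1)) ℂ)
        (homogeneousComponent F.totalDegree F) :=
      FiniteMultiplicity.of_not_isUnit (MvPolynomial.X_prime (i := (0 : Fin (m + 1))) (R := ℂ)).not_isUnit hLne
    obtain ⟨R, h1, h2⟩ := hfm.exists_eq_pow_mul_and_not_dvd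
    refine ⟨_, R, ?_, h1, h2⟩
    by_contra h3
    have h4 : multiplicity (X 0 : MvPolynomial (Fin (m + 1)) ℂ)
        (homogeneousComponent F.totalDegree F) = 0 := by omega
    rw [h4, pow_zero, one_mul] at h1
    exact h2 (h1 ▸ hX)
  have hF0 : 0 < degreeOf 0 F := by
    obtain ⟨S, hS⟩ := hX
    exact degreeOf_pos_of_top F (X 0) S hF.ne_zero (by
      rw [degreeOf_X, if_pos rfl]
      norm_num) hS
  obtain ⟨Δ, hΔ0, hΔ⟩ := exists_disc F hF hF0
  obtain ⟨E, hE₁, hE⟩ := elim F hF hF0 h w₁ (by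
    rintro ⟨q, hq⟩
    apply hh₁
    have h1 : eval z₁ (aeval (Sum.elim X fun j => C (w₁ j)) h) = eval (Sum.elim z₁ w₁) h := by
      have h2 : ∀ P : MvPolynomial (Fin (m + 1) ⊕ Fin (m + 1)) ℂ,
          eval z₁ (aeval (Sum.elim X fun j => C (w₁ j)) P) = eval (Sum.elim z₁ w₁) P := by
        intro P
        induction P using MvPolynomial.induction_on with
        | C a => simp
        | add p q hp hq => rw [map_add, map_add, hp, hq, map_add]
        | mul_X p i hp =>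
          rw [map_mul, map_mul, hp, map_mul, aeval_X, eval_X]
          rcases i with i | i <;> simp
      exact h2 h
    rw [← h1, hq, map_mul, hz₁, zero_mul])
  obtain ⟨D, w₂, hw₂, hD, hD₂⟩ := exists_max_degree (Tz Q) E w₁ hw₁ hE₁
  obtain ⟨N, hN0, hN⟩ := norm_y Q hQ hY hdim hy0 (homogeneousComponent D E)
    ⟨w₂, hw₂, by rw [← homogeneousComponent_map]; exact hD₂⟩
  obtain ⟨B₀, hB₀, hgood⟩ := good_val Q hQ hY hdim hy0
  obtain ⟨v, hvP, hv⟩ := punct Q hQ hY hdim (Pi.single 0 1) (by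
    intro c
    obtain ⟨w, hw, hwc⟩ := hy0 c
    refine ⟨w, hw, ?_⟩
    rw [Finset.prod_eq_single 0]
    · simpa using hwc
    · intro b _ hb
      simp [hb]
    · simp)
  have hv0 : v 0 ≠ 0 := by
    rw [Finset.sum_eq_single 0] at hv
    · simpa using hv
    · intro b _ hb
      simp [hb]
    · simp
  have hvne : v ≠ 0 := by
    rintro rfl
    exact hv0 rfl
  obtain ⟨u, hu, hu0, hW⟩ := hvP
  obtain ⟨μ₁, hμ₁⟩ : ∃ μ, eval w₁ (coeff μ E) ≠ 0 := by
    by_contra hcon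
    push Not at hcon
    apply hE₁
    ext μ
    rw [coeff_map, hcon, coeff_zero]
  obtain ⟨N', a, s, hs0, ha, has, haE⟩ := exists_order v u hu hu0 E
    ⟨μ₁, puncture_dense Q hQ hdim v hvne u hu hu0 hW _ (fun hmem => hμ₁ (hw₁.1 _ hmem))⟩
  -- the polynomials to avoid
  obtain ⟨R₀, hR₀⟩ : ∃ R₀ : MvPolynomial (Fin m) ℂ, R₀ = (finSuccEquiv ℂ m R).coeff 0 := ⟨_, rfl⟩
  have hR₀e : ∀ x : Fin m → ℂ, eval (Fin.cons 0 x : Fin (m + 1) → ℂ) R = eval x R₀ := by
    intro x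
    rw [eval_eq_eval_mv_eval', ← Polynomial.coeff_zero_eq_eval_zero, Polynomial.coeff_map, hR₀]
  have hR₀0 : R₀ ≠ 0 := by
    intro h0
    apply hXR
    rw [hR₀] at h0
    have h1 : (Polynomial.X : Polynomial (MvPolynomial (Fin m) ℂ)) ∣ finSuccEquiv ℂ m R :=
      Polynomial.X_dvd_iff.2 h0
    have h2 := map_dvd (finSuccEquiv ℂ m).symm h1
    rw [AlgEquiv.symm_apply_apply] at h2
    have h3 : (finSuccEquiv ℂ m).symm Polynomial.X = (X 0 : MvPolynomial (Fin (m + 1)) ℂ) := by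
      rw [← finSuccEquiv_X_zero, AlgEquiv.symm_apply_apply]
    rwa [h3] at h2
  have hJ0 : topc F 0 ≠ 0 := by
    obtain ⟨b, hb⟩ := exists_topc F hF.ne_zero
    rcases Nat.eq_zero_or_pos b with h1 | h1
    · rwa [h1] at hb
    · exact absurd (hB b h1) hb
  obtain ⟨p, hp⟩ : ∃ p : Fin (m + 1) → ℂ, eval p N ≠ 0 := by
    by_contra hcon
    push Not at hcon
    exact hN0 (MvPolynomial.funext fun p => by rw [hcon, map_zero])
  obtain ⟨N₁, hN₁⟩ : ∃ N₁ : MvPolynomial (Fin m) ℂ,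
      N₁ = (finSuccEquiv ℂ m N).eval (C (p 0)) := ⟨_, rfl⟩
  have hN₁e : ∀ x : Fin m → ℂ, eval x N₁ = eval (Fin.cons (p 0) x : Fin (m + 1) → ℂ) N := by
    intro x
    rw [eval_eq_eval_mv_eval', hN₁, Polynomial.eval_map, Polynomial.eval, Polynomial.hom_eval₂]
    simp
  have hN₁0 : N₁ ≠ 0 := by
    intro h0
    apply hp
    have h1 := hN₁e fun j => p j.succ
    rw [h0, map_zero] at h1
    rw [show p = Fin.cons (p 0) fun j => p j.succ from (Fin.cons_self_tail p).symm, ← h1]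
  obtain ⟨α, hα⟩ := exists_real_avoid (n := m) (ι := Fin 5)
    ![R₀, homogeneousComponent Δ.totalDegree Δ, homogeneousComponent s.totalDegree s, topc F 0, N₁]
    (by
      intro i
      fin_cases i
      · exact hR₀0
      · exact top_ne_zero Δ hΔ0
      · exact top_ne_zero s hs0
      · exact hJ0
      · exact hN₁0)
  have hα0 : eval (fun j => (α j : ℂ)) R₀ ≠ 0 := hα 0
  have hα1 : eval (fun j => (α j : ℂ)) (homogeneousComponent Δ.totalDegree Δ) ≠ 0 := hα 1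
  have hα2 : eval (fun j => (α j : ℂ)) (homogeneousComponent s.totalDegree s) ≠ 0 := hα 2
  have hα3 : eval (fun j => (α j : ℂ)) (topc F 0) ≠ 0 := hα 3
  have hα4 : eval (fun j => (α j : ℂ)) N₁ ≠ 0 := hα 4
  -- the finite set of excluded values
  have hBN : {y : ℂ | eval (Fin.cons y (fun j => (α j : ℂ)) : Fin (m + 1) → ℂ) N = 0}.Finite := by
    have h1 : (finSuccEquiv ℂ m N).map (eval fun j => (α j : ℂ)) ≠ 0 := by
      intro h0
      apply hα4
      rw [hN₁e, eval_eq_eval_mv_eval', h0, Polynomial.eval_zero]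
    refine (((finSuccEquiv ℂ m N).map (eval fun j => (α j : ℂ))).roots.toFinset.finite_toSet).subset ?_
    intro y hy
    have h2 : eval (Fin.cons y (fun j => (α j : ℂ)) : Fin (m + 1) → ℂ) N = 0 := hy
    rw [eval_eq_eval_mv_eval'] at h2
    rw [Finset.mem_coe, Multiset.mem_toFinset, Polynomial.mem_roots h1]
    exact h2
  obtain ⟨T, Xs, hBr, hcase⟩ := phases F R hL he α (by
      have h1 : rpt 0 α = (Fin.cons 0 fun j => (α j : ℂ) : Fin (m + 1) → ℂ) := by
        rw [rpt, Complex.ofReal_zero]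
      rw [h1, hR₀e]
      exact hα0) Δ hΔ hα1 hB hα3 (1 / (v 0 : ℝ)) (one_div_ne_zero (by exact_mod_cast hv0))
    (2 * (E.totalDegree + 1))
    (B₀ ∪ {y : ℂ | eval (Fin.cons y (fun j => (α j : ℂ)) : Fin (m + 1) → ℂ) N = 0})
    (hB₀.union hBN)
  rcases hcase with hgr | ⟨lam, hlam0, hlamB, hlam⟩
  · have hc : (v 0 : ℝ) - ∑ j : Fin m, ((fun _ => 0 : Fin m → ℝ) j) * v j.succ = v 0 := by simp
    obtain ⟨z, h1, h2, h3⟩ := nearG Q F 0 α (fun _ => 0) T Xs hBr v u hu hu0 hW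
      (by
        rw [hc]
        exact_mod_cast hv0)
      E N' a s ha has haE hα2 (hgr.mono fun k hk => by
        rw [hc]
        rw [one_div, inv_mul_eq_div] at hk
        exact hk)
    exact ⟨z, h1, h2, fun h4 => h3 (hE z _ h1 h4)⟩
  · rw [Set.mem_union, not_or] at hlamB
    obtain ⟨x, hx, hxW, hx0, hx1⟩ := hgood lam hlam0 hlamB.1
    have hw0 : (fun j => Complex.exp (x 0 j)) ∈ Tz Q := hxW.self_of_nhds
    obtain ⟨z, h1, h2, h3⟩ := nearR Q F α T Xs hBr lam hlam x hx hxW hx0 hx1 E D hD (by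
        intro h0
        rw [homogeneousComponent_map] at h0
        have h4 := hN _ hw0 _ h0
        rw [hx0] at h4
        exact hlamB.2 h4)
    exact ⟨z, h1, h2, fun h4 => h3 (hE z _ h1 h4)⟩

end Pool.Agent.EXQ
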