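import Pool.Agent.EXQ.Defs

/-!
# EXQ / Lim: the limit of `F(X, T x) / T^J`

PROOF.  `F(X, T x) = ∑_a X^a ∑_{j ≤ J} T^j (hom. component j of coefficient a)(x)`; compactness `‖x‖, ‖X‖ ≤ B`.
-/

set_option autoImplicit false

namespace Pool.Agent.EXQ

open MvPolynomial Filter Topology Pool.Agent.EXP Pool.Agent.EXM

private lemma lim_scale {ι : Type} [Fintype ι] {d : ℕ} (L : MvPolynomial ι ℂ)
    (hL : L.IsHomogeneous d) (s : ℂ) (x : ι → ℂ) : eval (fun j => s * x j) L = s ^ d * eval x L := by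
  rw [eval_eq', eval_eq', Finset.mul_sum]
  refine Finset.sum_congr rfl fun m hm => ?_
  have h1 : m.degree = d := by
    by_contra h
    exact (mem_support_iff.1 hm) (hL.coeff_eq_zero h)
  have h2 : ∏ i, (s * x i) ^ m i = s ^ d * ∏ i, x i ^ m i := by
    simp_rw [mul_pow]
    rw [Finset.prod_mul_distrib, Finset.prod_pow_eq_pow_sum, ← h1, Finsupp.degree_eq_sum]
  rw [h2]
  ring

private lemma lim_sum {m J : ℕ} (g : MvPolynomial (Fin m) ℂ) (hg : g.totalDegree ≤ J) :
    ∑ k ∈ Finset.range (J + 1), homogeneousComponent k g = g := by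
  conv_rhs => rw [← sum_homogeneousComponent g]
  symm
  refine Finset.sum_subset (Finset.range_mono (by omega)) fun k _ hk => ?_
  rw [Finset.mem_range] at hk
  exact homogeneousComponent_eq_zero _ _ (by omega)

private lemma lim_one {m J : ℕ} (g : MvPolynomial (Fin m) ℂ) (hg : g.totalDegree ≤ J) (B : ℝ) :
    ∃ C : ℝ, 0 ≤ C ∧ ∀ T : ℝ, 1 ≤ T → ∀ x : Fin m → ℂ, ‖x‖ ≤ B →
      ‖eval (fun j => (T : ℂ) * x j) g / (T : ℂ) ^ J - eval x (homogeneousComponent J g)‖ ≤
        C / T := by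
  have hbd : ∀ k : ℕ, ∃ N : ℝ, 0 ≤ N ∧ ∀ x : Fin m → ℂ, ‖x‖ ≤ B →
      ‖eval x (homogeneousComponent k g)‖ ≤ N := by
    intro k
    have h1 : IsCompact (Metric.closedBall (0 : Fin m → ℂ) B) := isCompact_closedBall _ _
    obtain ⟨N, hN⟩ := h1.exists_bound_of_continuousOn
      (MvPolynomial.continuous_eval (homogeneousComponent k g)).continuousOn
    refine ⟨max N 0, le_max_right _ _, fun x hx => (hN x ?_).trans (le_max_left _ _)⟩
    rw [mem_closedBall_zero_iff]
    exact hx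
  choose N hN0 hN using hbd
  refine ⟨∑ k ∈ Finset.range J, N k, Finset.sum_nonneg fun k _ => hN0 k, fun T hT x hx => ?_⟩
  have hT0 : (0 : ℝ) < T := by linarith
  have hTc : (T : ℂ) ≠ 0 := by exact_mod_cast hT0.ne'
  have h1 : eval (fun j => (T : ℂ) * x j) g =
      ∑ k ∈ Finset.range (J + 1), (T : ℂ) ^ k * eval x (homogeneousComponent k g) := by
    conv_lhs => rw [← lim_sum g hg]
    rw [map_sum]
    exact Finset.sum_congr rfl fun k _ =>
      lim_scale _ (homogeneousComponent_isHomogeneous k g) _ _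
  have h2 : eval (fun j => (T : ℂ) * x j) g / (T : ℂ) ^ J - eval x (homogeneousComponent J g) =
      ∑ k ∈ Finset.range J, (T : ℂ) ^ k / (T : ℂ) ^ J * eval x (homogeneousComponent k g) := by
    rw [h1, Finset.sum_range_succ, add_div, Finset.sum_div]
    have h3 : (T : ℂ) ^ J * eval x (homogeneousComponent J g) / (T : ℂ) ^ J =
        eval x (homogeneousComponent J g) := by
      field_simp
    rw [h3, add_sub_cancel_right]
    refine Finset.sum_congr rfl fun k _ => ?_
    ring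
  rw [h2, Finset.sum_div]
  refine norm_sum_le_of_le _ fun k hk => ?_
  have hk' := Finset.mem_range.1 hk
  rw [norm_mul, norm_div, norm_pow, norm_pow, Complex.norm_real, Real.norm_of_nonneg hT0.le]
  have h4 : T ^ k / T ^ J ≤ 1 / T := by
    rw [div_le_div_iff₀ (by positivity) hT0, one_mul, ← pow_succ]
    exact pow_le_pow_right₀ hT (by omega)
  calc T ^ k / T ^ J * ‖eval x (homogeneousComponent k g)‖ ≤ 1 / T * N k :=
        mul_le_mul h4 (hN k x hx) (norm_nonneg _) (by positivity)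
    _ = N k / T := by ring

private lemma lim_eval {m : ℕ} (F : MvPolynomial (Fin (m + 1)) ℂ) (X : ℂ) (y : Fin m → ℂ) :
    eval (Fin.cons X y : Fin (m + 1) → ℂ) F =
      ∑ a ∈ (finSuccEquiv ℂ m F).support, eval y ((finSuccEquiv ℂ m F).coeff a) * X ^ a := by
  rw [eval_eq_eval_mv_eval', Polynomial.eval_map, Polynomial.eval₂_eq_sum, Polynomial.sum_def]

private lemma pj_eval {m : ℕ} (F : MvPolynomial (Fin (m + 1)) ℂ) (x : Fin m → ℂ) (X : ℂ) :
    (pj F x).eval X = ∑ a ∈ (finSuccEquiv ℂ m F).support, eval x (topc F a) * X ^ a := by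
  unfold pj
  rw [Polynomial.eval_finsetSum]
  exact Finset.sum_congr rfl fun a _ => Polynomial.eval_monomial

private lemma deg_le_xd {m : ℕ} (F : MvPolynomial (Fin (m + 1)) ℂ) {a : ℕ}
    (ha : a ∈ (finSuccEquiv ℂ m F).support) :
    ((finSuccEquiv ℂ m F).coeff a).totalDegree ≤ xd F :=
  Finset.le_sup (f := fun a => ((finSuccEquiv ℂ m F).coeff a).totalDegree) ha

theorem lim_top {m : ℕ} (F : MvPolynomial (Fin (m + 1)) ℂ) (B : ℝ) :
    ∃ C : ℝ, 0 ≤ C ∧ ∀ T : ℝ, 1 ≤ T → ∀ x : Fin m → ℂ, ‖x‖ ≤ B → ∀ X : ℂ, ‖X‖ ≤ B →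
      ‖eval (Fin.cons X (fun j => (T : ℂ) * x j) : Fin (m + 1) → ℂ) F / (T : ℂ) ^ xd F -
        (pj F x).eval X‖ ≤ C / T := by
  have h1 : ∀ a : ℕ, ∃ C : ℝ, 0 ≤ C ∧ (a ∈ (finSuccEquiv ℂ m F).support →
      ∀ T : ℝ, 1 ≤ T → ∀ x : Fin m → ℂ, ‖x‖ ≤ B →
      ‖eval (fun j => (T : ℂ) * x j) ((finSuccEquiv ℂ m F).coeff a) / (T : ℂ) ^ xd F -
        eval x (topc F a)‖ ≤ C / T) := by
    intro a
    by_cases ha : a ∈ (finSuccEquiv ℂ m F).support
    · obtain ⟨C, hC0, hC⟩ := lim_one ((finSuccEquiv ℂ m F).coeff a) (deg_le_xd F ha) B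
      exact ⟨C, hC0, fun _ => hC⟩
    · exact ⟨0, le_rfl, fun h => absurd h ha⟩
  choose C hC0 hC using h1
  refine ⟨∑ a ∈ (finSuccEquiv ℂ m F).support, C a * |B| ^ a,
    Finset.sum_nonneg fun a _ => mul_nonneg (hC0 a) (by positivity), fun T hT x hx X hX => ?_⟩
  have hT0 : (0 : ℝ) < T := by linarith
  rw [lim_eval, pj_eval, Finset.sum_div, ← Finset.sum_sub_distrib, Finset.sum_div]
  refine norm_sum_le_of_le _ fun a ha => ?_
  have h2 : eval (fun j => (T : ℂ) * x j) ((finSuccEquiv ℂ m F).coeff a) * X ^ a /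
      (T : ℂ) ^ xd F - eval x (topc F a) * X ^ a =
      (eval (fun j => (T : ℂ) * x j) ((finSuccEquiv ℂ m F).coeff a) / (T : ℂ) ^ xd F -
        eval x (topc F a)) * X ^ a := by
    ring
  rw [h2, norm_mul, norm_pow]
  calc _ ≤ C a / T * |B| ^ a :=
        mul_le_mul (hC a ha T hT x hx)
          (pow_le_pow_left₀ (norm_nonneg _) (hX.trans (le_abs_self B)) a) (by positivity)
          (div_nonneg (hC0 a) hT0.le)
    _ = C a * |B| ^ a / T := by ring

/-- `pj` is homogeneous of degree `xd F` in `x'` -/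
theorem pj_smul {m : ℕ} (F : MvPolynomial (Fin (m + 1)) ℂ) (c : ℂ) (x : Fin m → ℂ) :
    pj F (fun j => c * x j) = Polynomial.C (c ^ xd F) * pj F x := by
  unfold pj
  rw [Finset.mul_sum]
  refine Finset.sum_congr rfl fun a _ => ?_
  rw [Polynomial.C_mul_monomial]
  congr 1
  exact lim_scale _ (homogeneousComponent_isHomogeneous _ _) c x

/-- some coefficient has degree `xd F` -/
theorem exists_topc {m : ℕ} (F : MvPolynomial (Fin (m + 1)) ℂ) (hF : F ≠ 0) :
    ∃ a, topc F a ≠ 0 := by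
  have hP : finSuccEquiv ℂ m F ≠ 0 := by
    intro h
    exact hF ((finSuccEquiv ℂ m).injective (by rw [h, map_zero]))
  obtain ⟨a, ha, hxa⟩ := Finset.exists_mem_eq_sup (finSuccEquiv ℂ m F).support
    (Polynomial.support_nonempty.2 hP)
    (fun a => ((finSuccEquiv ℂ m F).coeff a).totalDegree)
  refine ⟨a, ?_⟩
  have hxd : xd F = ((finSuccEquiv ℂ m F).coeff a).totalDegree := hxa
  have hc : (finSuccEquiv ℂ m F).coeff a ≠ 0 := Polynomial.mem_support_iff.1 ha
  unfold topc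
  rw [hxd]
  set g := (finSuccEquiv ℂ m F).coeff a with hg
  obtain ⟨s, hs, hsd⟩ := Finset.exists_mem_eq_sup g.support (support_nonempty.2 hc)
    (fun s => s.sum fun _ e => e)
  have hsd' : g.totalDegree = s.degree := by
    rw [totalDegree, hsd]
    rfl
  intro h0
  have h1 : coeff s (homogeneousComponent g.totalDegree g) = 0 := by rw [h0, coeff_zero]
  rw [coeff_homogeneousComponent, if_pos hsd'.symm] at h1
  exact (mem_support_iff.1 hs) h1

theorem pj_ne_zero {m : ℕ} (F : MvPolynomial (Fin (m + 1)) ℂ) (x : Fin m → ℂ) (a : ℕ)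
    (h : eval x (topc F a) ≠ 0) : pj F x ≠ 0 := by
  have ha : a ∈ (finSuccEquiv ℂ m F).support := by
    by_contra hna
    rw [Polynomial.notMem_support_iff] at hna
    apply h
    unfold topc
    rw [hna, map_zero, map_zero]
  intro h0
  have h1 : (pj F x).coeff a = 0 := by rw [h0, Polynomial.coeff_zero]
  unfold pj at h1
  rw [Polynomial.finsetSum_coeff] at h1
  simp only [Polynomial.coeff_monomial] at h1
  rw [Finset.sum_ite_eq' (finSuccEquiv ℂ m F).support a (fun b => eval x (topc F b)),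
    if_pos ha] at h1
  exact h h1

end Pool.Agent.EXQ
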