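import Pool.Agent.EXQ.Defs
import Pool.Agent.EXP.Punct

/-!
# EXQ / PunctAt: a branch of `Tz Q` over the value `exp κ` of `y_0`

PROOF.  A place of the curve with `y_0 ↦ exp κ` (the smooth completion of the curve maps onto `ℙ^1`); the machinery of EXP/Punct
(`exists_gen`, `exists_pl1`, `punct_of_chart`: a parametrisation `w_j = s^(v_j) u_j(s)`) applied with the element `β = y_0 - exp κ` of
positive order: `w_0(s) = exp κ + s^e' unit`, so `v_0 = 0`. New parameter `t` with `w_0 = exp(κ + t^e)`: `t = (log(w_0 / exp κ))^(1/e)`, an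
analytic function of `s` with nonzero derivative at 0; invert it. Then `w_j = t^(v_j) exp(b_j(t))`, `b_j` a local logarithm of the unit.
(Interior points are the case `v = 0`.)
-/

set_option autoImplicit false

namespace Pool.Agent.EXQ

open MvPolynomial Filter Topology Pool.Agent.EXP Pool.Agent.EXM

section place

open Pool.Agent.EXL Pool.Agent.EXI Pool.Agent.EXK

private theorem exists_pl1p (k : Subfield ℂ) {n : ℕ} (b : Fin n → ℂ) (β : ℂ)
    (hβ : β ∈ IntermediateField.adjoin k (Set.range b))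
    (ht : AlgebraicIndependent k (fun _ : Fin 1 => β))
    (halg : ∀ j, IsAlgebraic (Algebra.adjoin k (Set.range fun _ : Fin 1 => β)) (b j)) :
    ∃ (pl : Place k (IntermediateField.adjoin k (Set.range b))) (N : ℤ) (ε : pl.O), 0 < N ∧
      pl.ρ ε ≠ 0 ∧
      (⟨β, hβ⟩ : IntermediateField.adjoin k (Set.range b)) = pl.t ^ N * ε := by
  classical
  let τ : Fin 0 → ℂ := fun _ => 0
  let t : Fin 1 → ℂ := fun _ => β
  have hac := isAlgClosed_Om k τ
  have hind : AlgebraicIndependent k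
      fun l : {l : Fin 1 // l ≠ 0} => (((fun _ => 1 : Fin 1 → Om k τ) l : Om k τ) : ℂ) := by
    have : IsEmpty {l : Fin 1 // l ≠ 0} := ⟨fun l => l.2 (Subsingleton.elim _ _)⟩
    exact algebraicIndependent_empty_type
  obtain ⟨κ, hκc, hκt⟩ := tor_base (le_Om k τ) t ht (fun _ => 1) (fun _ => 1) 0
    one_ne_zero rfl hind
  let F : IntermediateField (IntermediateField.adjoin k (Set.range t)) ℂ :=
    IntermediateField.adjoin (IntermediateField.adjoin k (Set.range t)) (Set.range b)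
  have hle := IntermediateField.algebra_adjoin_le_adjoin k (Set.range t)
  have hfd : FiniteDimensional (IntermediateField.adjoin k (Set.range t)) F := by
    refine IntermediateField.finiteDimensional_adjoin ?_
    rintro x ⟨j, rfl⟩
    have h2 : IsAlgebraic (IntermediateField.adjoin k (Set.range t)) (b j) := by
      obtain ⟨p, hp0, hp⟩ := halg j
      refine ⟨p.map (Subalgebra.inclusion hle).toRingHom,
        (Polynomial.map_ne_zero_iff (Subalgebra.inclusion_injective hle)).2 hp0, ?_⟩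
      rw [Polynomial.aeval_def, Polynomial.eval₂_map]
      exact hp
    exact h2.isIntegral
  obtain ⟨e, he, χ, hχc, hχ1, ss, hss, hmin⟩ := emb (F := F) (Ω := Om k τ) κ 0
  have hs0 : ss ≠ 0 := by
    rintro rfl
    have hdeg := congrArg Polynomial.natDegree hmin
    rw [minpoly.zero, Polynomial.map_X, Polynomial.natDegree_X, Multiset.map_zero,
      Multiset.prod_zero, Polynomial.natDegree_one] at hdeg
    exact one_ne_zero hdeg
  obtain ⟨σ, hσs⟩ := Multiset.exists_mem_of_ne_zero hs0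
  have hσ := hss σ hσs
  have hKF : ∀ x ∈ IntermediateField.adjoin k (Set.range b), x ∈ F := by
    intro x hx
    induction hx using IntermediateField.adjoin_induction with
    | mem x hx => exact IntermediateField.subset_adjoin _ _ hx
    | algebraMap x =>
      exact F.algebraMap_mem (algebraMap k (IntermediateField.adjoin k (Set.range t)) x)
    | add x y hx hy h1 h2 => exact F.add_mem h1 h2
    | inv x hx h1 => exact F.inv_mem h1
    | mul x y hx hy h1 h2 => exact F.mul_mem h1 h2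
  let incl : IntermediateField.adjoin k (Set.range b) →+* F :=
    { toFun := fun x => ⟨x, hKF x x.2⟩
      map_one' := rfl
      map_mul' := fun _ _ => rfl
      map_zero' := rfl
      map_add' := fun _ _ => rfl }
  have hσκ : ∀ z : IntermediateField.adjoin k (Set.range t),
      σ (algebraMap (IntermediateField.adjoin k (Set.range t)) F z) = χ (κ z) := fun z => by
    have := congrArg (fun g => g z) hσ
    simpa only [RingHom.comp_apply] using this
  have hc : ∀ c : k, (σ.comp incl) (algebraMap k (IntermediateField.adjoin k (Set.range b)) c) =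
      HahnSeries.C (⟨c, le_Om k τ c.2⟩ : Om k τ) := by
    intro c0
    have h1 := hσκ (algebraMap k (IntermediateField.adjoin k (Set.range t)) c0)
    rw [hκc] at h1
    change σ (algebraMap (IntermediateField.adjoin k (Set.range t)) F
      (algebraMap k (IntermediateField.adjoin k (Set.range t)) c0)) = _
    rw [h1]
    exact hχc _
  have hb1 : (σ.comp incl) ⟨β, hβ⟩ = HahnSeries.single (e : ℤ) 1 := by
    have h1 := hσκ ⟨t 0, IntermediateField.subset_adjoin k _ ⟨0, rfl⟩⟩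
    rw [hκt 0, hχ1] at h1
    exact h1
  have hord : ((σ.comp incl) ⟨β, hβ⟩).order = e := by
    rw [hb1, HahnSeries.order_single one_ne_zero]
  obtain ⟨pl, hO, hρ⟩ := exists_place k (Om k τ) (le_Om k τ) (σ.comp incl) hc ⟨β, hβ⟩
    (by rw [hord]; exact_mod_cast he.ne')
  have hne : (⟨β, hβ⟩ : IntermediateField.adjoin k (Set.range b)) ≠ 0 := by
    intro h0
    rw [h0, map_zero] at hord
    rw [HahnSeries.order_zero] at hord
    exact he.ne (by exact_mod_cast hord)
  obtain ⟨N, ε, hε, hβε⟩ := pl.fac ⟨β, hβ⟩ hne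
  refine ⟨pl, N, ε, ?_, hε, hβε⟩
  -- `β` is in the maximal ideal
  have hβO : (⟨β, hβ⟩ : IntermediateField.adjoin k (Set.range b)) ∈ pl.O := by
    rw [hO]
    intro i hi
    rw [hb1, HahnSeries.coeff_single_of_ne]
    have : (0 : ℤ) ≤ e := Int.natCast_nonneg e
    omega
  have hβρ : pl.ρ ⟨⟨β, hβ⟩, hβO⟩ = 0 := by
    rw [hρ]
    show (((σ.comp incl) ⟨β, hβ⟩).coeff 0 : ℂ) = 0
    rw [hb1, HahnSeries.coeff_single_of_ne (by exact_mod_cast he.ne)]
    rfl
  by_contra hN
  obtain ⟨M, hM⟩ : ∃ M : ℕ, N = -(M : ℤ) := ⟨(-N).toNat, by omega⟩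
  apply hε
  have h1 : ε = ⟨pl.t, pl.t_mem⟩ ^ M * ⟨⟨β, hβ⟩, hβO⟩ := by
    apply Subtype.ext
    show (ε : IntermediateField.adjoin k (Set.range b)) = pl.t ^ M * ⟨β, hβ⟩
    rw [hβε, hM, zpow_neg, zpow_natCast, ← mul_assoc, mul_inv_cancel₀ (pow_ne_zero _ pl.t_ne), one_mul]
  rw [h1, map_mul, hβρ, mul_zero]

section units

variable {k : Subfield ℂ} {K : Type} [Field K] [Algebra k K] (pl : Place k K)

/-- units of the valuation ring -/
private def Un (x : K) : Prop := ∃ ε : pl.O, pl.ρ ε ≠ 0 ∧ (ε : K) = x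

private theorem Un.mul {x y : K} (hx : Un pl x) (hy : Un pl y) : Un pl (x * y) := by
  obtain ⟨ε, h1, rfl⟩ := hx
  obtain ⟨η, h2, rfl⟩ := hy
  exact ⟨ε * η, by rw [map_mul]; exact mul_ne_zero h1 h2, rfl⟩

private theorem Un.ne {x : K} (hx : Un pl x) : x ≠ 0 := by
  obtain ⟨ε, h1, rfl⟩ := hx
  intro h
  apply h1
  have : ε = 0 := Subtype.ext h
  rw [this, map_zero]

private theorem Un.inv {x : K} (hx : Un pl x) : Un pl x⁻¹ := by
  have hne := hx.ne
  obtain ⟨ε, h1, rfl⟩ := hx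
  have hi := pl.inv_mem ε h1
  have h2 : (⟨(ε : K)⁻¹, hi⟩ : pl.O) * ε = 1 := Subtype.ext (inv_mul_cancel₀ hne)
  refine ⟨⟨(ε : K)⁻¹, hi⟩, ?_, rfl⟩
  intro h
  have h3 := congrArg pl.ρ h2
  rw [map_mul, h, zero_mul, map_one] at h3
  exact zero_ne_one h3

private theorem Un.one : Un pl (1 : K) := ⟨1, by rw [map_one]; exact one_ne_zero, rfl⟩

private theorem Un.pow {x : K} (hx : Un pl x) (m : ℕ) : Un pl (x ^ m) := by
  induction m with
  | zero => rw [pow_zero]; exact Un.one pl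
  | succ m ih => rw [pow_succ]; exact Un.mul pl ih hx

private theorem Un.zpow {x : K} (hx : Un pl x) (m : ℤ) : Un pl (x ^ m) := by
  rcases Int.eq_nat_or_neg m with ⟨i, rfl | rfl⟩
  · rw [zpow_natCast]; exact Un.pow pl hx i
  · rw [zpow_neg, zpow_natCast]; exact Un.inv pl (Un.pow pl hx i)

private theorem Un.prod {n : ℕ} {x : Fin n → K} (hx : ∀ i, Un pl (x i)) : Un pl (∏ i, x i) := by
  classical
  have : ∀ T : Finset (Fin n), Un pl (∏ i ∈ T, x i) := by
    intro T
    induction T using Finset.induction_on with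
    | empty => rw [Finset.prod_empty]; exact Un.one pl
    | insert i T hi ih => rw [Finset.prod_insert hi]; exact Un.mul pl (hx i) ih
  exact this Finset.univ

/-- a power of the uniformizer which is a unit -/
private theorem Un.t_zpow {m : ℤ} (h : Un pl (pl.t ^ m)) : m = 0 := by
  have key : ∀ m : ℕ, Un pl (pl.t ^ (m + 1)) → False := by
    intro m hm
    obtain ⟨ε, h1, h2⟩ := hm
    apply h1
    have : ε = ⟨pl.t, pl.t_mem⟩ ^ (m + 1) := Subtype.ext h2
    rw [this, map_pow, pl.ρt, zero_pow (Nat.succ_ne_zero m)]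
  by_contra hm
  rcases lt_or_gt_of_ne hm with h0 | h0
  · obtain ⟨i, hi⟩ : ∃ i : ℕ, m = -((i + 1 : ℕ) : ℤ) := ⟨(-m - 1).toNat, by push_cast; omega⟩
    rw [hi, zpow_neg, zpow_natCast] at h
    have h1 := Un.inv pl h
    rw [inv_inv] at h1
    exact key i h1
  · obtain ⟨i, hi⟩ : ∃ i : ℕ, m = ((i + 1 : ℕ) : ℤ) := ⟨(m - 1).toNat, by push_cast; omega⟩
    rw [hi, zpow_natCast] at h
    exact key i h

end units

private theorem fg_adj (k : Subfield ℂ) {ι : Type} [Fintype ι] (z : ι → ℂ) :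
    ∃ S : Finset (IntermediateField.adjoin k (Set.range z)),
      IntermediateField.adjoin k (S : Set (IntermediateField.adjoin k (Set.range z))) = ⊤ := by
  classical
  set K := IntermediateField.adjoin k (Set.range z) with hK
  have hz : ∀ i, z i ∈ K := fun i => IntermediateField.subset_adjoin k _ ⟨i, rfl⟩
  refine ⟨Finset.univ.image (fun i => (⟨z i, hz i⟩ : K)), ?_⟩
  rw [eq_top_iff]
  intro x _
  set L := IntermediateField.adjoin k
    ((Finset.univ.image (fun i => (⟨z i, hz i⟩ : K)) : Finset K) : Set K) with hL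
  have h1 : K ≤ L.map K.val := by
    refine IntermediateField.adjoin_le_iff.2 ?_
    rintro _ ⟨i, rfl⟩
    refine ⟨⟨z i, hz i⟩, ?_, rfl⟩
    apply IntermediateField.subset_adjoin
    simp
  obtain ⟨y, hy, hyx⟩ := h1 x.2
  have : y = x := Subtype.ext hyx
  rw [← this]
  exact hy

/-- every `b j` is algebraic over `k(β)` -/
private theorem alg_of_td1 (k : Subfield ℂ) {n : ℕ} (b : Fin n → ℂ) (htd : td (k : Set ℂ) b = 1)
    (β : ℂ) (hβ : β ∈ IntermediateField.adjoin k (Set.range b))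
    (ht : AlgebraicIndependent k (fun _ : Fin 1 => β)) (j : Fin n) :
    IsAlgebraic (Algebra.adjoin k (Set.range fun _ : Fin 1 => β)) (b j) := by
  by_contra hna
  have h3 : AlgebraicIndependent k (fun o : Option (Fin 1) => o.elim (b j) (fun _ : Fin 1 => β)) :=
    (ht.option_iff_transcendental (b j)).2 hna
  have h4 := h3.comp (_root_.finSuccEquiv 1) (_root_.finSuccEquiv 1).injective
  have hmem : ∀ o : Option (Fin 1), (fun o : Option (Fin 1) => o.elim (b j) (fun _ : Fin 1 => β)) o ∈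
      IntermediateField.adjoin k (Set.range b) := by
    intro o
    cases o with
    | none => exact IntermediateField.subset_adjoin k _ ⟨j, rfl⟩
    | some i => exact hβ
  refine td_not_ind k b (m := 1) (by rw [htd]) (fun i => ⟨_, hmem (_root_.finSuccEquiv 1 i)⟩) ?_
  exact AlgebraicIndependent.of_comp (IntermediateField.adjoin k (Set.range b)).val h4

private theorem trans_coord {n : ℕ} (Q : Ideal (MvPolynomial (Fin n) ℂ)) (hQ : Q.IsPrime)
    (k : Subfield ℂ) (b : Fin n → ℂ)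
    (hp : ∀ f : MvPolynomial (Fin n) k, aeval b f = 0 ↔ map (algebraMap k ℂ) f ∈ Q)
    (i : Fin n) (hn : ∀ c : ℂ, (X i - C c : MvPolynomial (Fin n) ℂ) ∉ Q) :
    Transcendental k (b i) := by
  classical
  rintro ⟨q, hq0, hq⟩
  -- `q(X i) ∈ Q`
  have h1 : map (algebraMap k ℂ) (Polynomial.aeval (X i : MvPolynomial (Fin n) k) q) ∈ Q := by
    rw [← hp]
    have h2 := Polynomial.aeval_algHom_apply (aeval b : MvPolynomial (Fin n) k →ₐ[k] ℂ) (X i) q
    rw [← h2, aeval_X]
    exact hq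
  have h3 : map (algebraMap k ℂ) (Polynomial.aeval (X i : MvPolynomial (Fin n) k) q) =
      Polynomial.aeval (X i : MvPolynomial (Fin n) ℂ) (q.map (algebraMap k ℂ)) := by
    rw [Polynomial.aeval_def, Polynomial.hom_eval₂, Polynomial.aeval_def, Polynomial.eval₂_map]
    congr 1
    · refine RingHom.ext fun c => ?_
      simp only [RingHom.comp_apply, MvPolynomial.algebraMap_eq, MvPolynomial.map_C]
    · rw [MvPolynomial.map_X]
  rw [h3] at h1
  have hq0' : q.map (algebraMap k ℂ) ≠ 0 :=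
    (Polynomial.map_ne_zero_iff (algebraMap k ℂ).injective).2 hq0
  have hspl : (q.map (algebraMap k ℂ)).Splits := IsAlgClosed.splits _
  have h4 := hspl.eq_prod_roots
  rw [h4, map_mul, Polynomial.aeval_C, map_multiset_prod] at h1
  rcases hQ.mem_or_mem h1 with h5 | h5
  · have h6 : (q.map (algebraMap k ℂ)).leadingCoeff ≠ 0 := Polynomial.leadingCoeff_ne_zero.2 hq0'
    apply hQ.ne_top
    refine Ideal.eq_top_of_isUnit_mem _ h5 ?_
    exact (isUnit_iff_ne_zero.2 h6).map (algebraMap ℂ (MvPolynomial (Fin n) ℂ))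
  · rw [Multiset.map_map, hQ.multiset_prod_mem_iff_exists_mem] at h5
    obtain ⟨f, hf, hfQ⟩ := h5
    obtain ⟨c, -, rfl⟩ := Multiset.mem_map.1 hf
    apply hn c
    simpa [MvPolynomial.algebraMap_eq] using hfQ

/-- a puncture (or a point) at which a non-constant coordinate vanishes -/
private theorem punct_pos {n : ℕ} (Q : Ideal (MvPolynomial (Fin n) ℂ)) (hQ : Q.IsPrime)
    (hY : ∀ j : Fin n, (X j : MvPolynomial (Fin n) ℂ) ∉ Q)
    (hdim : Algebra.trdeg ℂ (MvPolynomial (Fin n) ℂ ⧸ Q) = 1) (i : Fin n)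
    (hn : ∀ c : ℂ, (X i - C c : MvPolynomial (Fin n) ℂ) ∉ Q) :
    ∃ v : Fin n → ℤ, Punct Q v ∧ 0 < v i := by
  classical
  obtain ⟨k, hk, b, -, hp, hx⟩ := exists_gen Q hQ ∅
  have hb : ∀ j, b j ≠ 0 := by
    intro j h0
    apply hY j
    have h1 := (hp (X j)).1 (by rw [aeval_X]; exact h0)
    rwa [map_X] at h1
  have htd : td (k : Set ℂ) b = 1 :=
    td_of_trdeg Q hQ k hk b hp hx 1 (by rw [hdim]; norm_num)
  have hβt : Transcendental k (b i) := trans_coord Q hQ k b hp i hn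
  have hbm : ∀ j, b j ∈ IntermediateField.adjoin k (Set.range b) := fun j =>
    IntermediateField.subset_adjoin k _ ⟨j, rfl⟩
  let B : Fin n → IntermediateField.adjoin k (Set.range b) := fun j => ⟨b j, hbm j⟩
  have ht : AlgebraicIndependent k (fun _ : Fin 1 => b i) :=
    (algebraicIndependent_unique_type_iff (ι := Fin 1)).2 hβt
  obtain ⟨pl, N, ε, hN, hε, hβε⟩ := exists_pl1p k b (b i) (hbm i) ht (alg_of_td1 k b htd (b i) (hbm i) ht)
  have hBne : ∀ j, B j ≠ 0 := fun j h0 => hb j (congrArg Subtype.val h0)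
  obtain ⟨ch, -⟩ := exists_chart pl (fg_adj k b) (m := 0)
    (fun y => td_not_ind k b (m := 1) (by rw [htd]) y) Fin.elim0 algebraicIndependent_empty_type
  choose v A D hA hD hrep using fun j => ch.rep (B j) (hBne j)
  refine ⟨v, punct_of_chart Q b hp hx ch B ?_ v A D hA hD hrep, ?_⟩
  · intro f hf
    have h4 := MvPolynomial.comp_aeval_apply B
      (IntermediateField.adjoin k (Set.range b)).val f
    apply Subtype.ext
    exact h4.trans hf
  · have hU : ∀ f : MvPolynomial (Option (Fin 1)) k, aeval (fun i => pl.ρ (ch.x i)) f ≠ 0 →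
        Un pl (aeval (fun i => (ch.x i : IntermediateField.adjoin k (Set.range b))) f) := by
      intro f hf
      obtain ⟨h, e⟩ := cden_aeval pl ch.x f
      exact ⟨⟨_, h⟩, by rw [e]; exact hf, rfl⟩
    obtain ⟨PK, hPK⟩ : ∃ PK, PK = aeval
      (fun i => (ch.x (some i) : IntermediateField.adjoin k (Set.range b))) ch.P := ⟨_, rfl⟩
    obtain ⟨η, hη, hη'⟩ := ch.unif
    have hUη : Un pl (η : IntermediateField.adjoin k (Set.range b)) := ⟨η, hη, rfl⟩
    have hPt : PK = pl.t * η := by rw [hPK, hη']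
    have hDne := Un.ne pl (hU _ (hD i))
    have hBi : B i = pl.t ^ v i * ((η : IntermediateField.adjoin k (Set.range b)) ^ v i *
        (aeval (fun i => (ch.x i : IntermediateField.adjoin k (Set.range b))) (A i) *
          (aeval (fun i => (ch.x i : IntermediateField.adjoin k (Set.range b))) (D i))⁻¹)) := by
      rw [← mul_assoc, ← mul_zpow, ← hPt, ← mul_assoc, ← div_eq_mul_inv, eq_div_iff hDne, hPK]
      exact hrep i
    have hUr : Un pl ((η : IntermediateField.adjoin k (Set.range b)) ^ v i *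
        (aeval (fun i => (ch.x i : IntermediateField.adjoin k (Set.range b))) (A i) *
          (aeval (fun i => (ch.x i : IntermediateField.adjoin k (Set.range b))) (D i))⁻¹)) :=
      Un.mul pl (Un.zpow pl hUη _) (Un.mul pl (hU _ (hA i)) (Un.inv pl (hU _ (hD i))))
    obtain ⟨U, hUU⟩ : ∃ U, U = ((η : IntermediateField.adjoin k (Set.range b)) ^ v i *
        (aeval (fun i => (ch.x i : IntermediateField.adjoin k (Set.range b))) (A i) *
          (aeval (fun i => (ch.x i : IntermediateField.adjoin k (Set.range b))) (D i))⁻¹)) := ⟨_, rfl⟩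
    rw [← hUU] at hUr hBi
    have h5 : Un pl (pl.t ^ (N - v i)) := by
      have h6 : pl.t ^ (N - v i) = U * (ε : IntermediateField.adjoin k (Set.range b))⁻¹ := by
        have h7 : pl.t ^ N * (ε : IntermediateField.adjoin k (Set.range b)) = pl.t ^ v i * U :=
          hβε.symm.trans hBi
        rw [zpow_sub₀ pl.t_ne, div_eq_iff (zpow_ne_zero _ pl.t_ne)]
        have hεne := Un.ne pl (⟨ε, hε, rfl⟩ : Un pl (ε : IntermediateField.adjoin k (Set.range b)))
        rw [mul_right_comm, mul_comm U, ← h7, mul_assoc, mul_inv_cancel₀ hεne, mul_one]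
      rw [h6]
      exact Un.mul pl hUr (Un.inv pl ⟨ε, hε, rfl⟩)
    have h6 := Un.t_zpow pl h5
    omega

end place

/-- a local logarithm of an analytic unit -/
private theorem pa_log {u : ℂ → ℂ} (hu : AnalyticAt ℂ u 0) (h0 : u 0 ≠ 0) :
    ∃ b : ℂ → ℂ, AnalyticAt ℂ b 0 ∧ ∀ᶠ s in 𝓝 (0 : ℂ), Complex.exp (b s) = u s := by
  have hq : AnalyticAt ℂ (fun s => u s / u 0) 0 := hu.div analyticAt_const h0
  have hsl : (fun s => u s / u 0) 0 ∈ Complex.slitPlane := by
    simp only [div_self h0]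
    exact Complex.one_mem_slitPlane
  refine ⟨fun s => Complex.log (u 0) + Complex.log (u s / u 0),
    analyticAt_const.add (hq.clog hsl), ?_⟩
  have hne : ∀ᶠ s in 𝓝 (0 : ℂ), u s ≠ 0 := hu.continuousAt.eventually_ne h0
  filter_upwards [hne] with s hs
  rw [Complex.exp_add, Complex.exp_log h0, Complex.exp_log (div_ne_zero hs h0)]
  field_simp

/-- a local root of an analytic unit -/
private theorem pa_root {u : ℂ → ℂ} (hu : AnalyticAt ℂ u 0) (h0 : u 0 ≠ 0) {e : ℕ} (he : e ≠ 0) :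
    ∃ r : ℂ → ℂ, AnalyticAt ℂ r 0 ∧ (∀ s, r s ≠ 0) ∧ ∀ᶠ s in 𝓝 (0 : ℂ), r s ^ e = u s := by
  obtain ⟨b, hb, hbu⟩ := pa_log hu h0
  refine ⟨fun s => Complex.exp (b s / e), (hb.div analyticAt_const (by exact_mod_cast he)).cexp,
    fun s => Complex.exp_ne_zero _, ?_⟩
  filter_upwards [hbu] with s hs
  rw [← Complex.exp_nat_mul, ← hs]
  congr 1
  have : (e : ℂ) ≠ 0 := by exact_mod_cast he
  field_simp

/-- `f z = f 0 + z g z` -/
private theorem pa_dsl {f : ℂ → ℂ} (hf : AnalyticAt ℂ f 0) :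
    AnalyticAt ℂ (dslope f 0) 0 ∧ ∀ z, f z = f 0 + z * dslope f 0 z := by
  refine ⟨?_, fun z => ?_⟩
  · obtain ⟨p, hp⟩ := hf
    exact (hp.has_fpower_series_dslope_fslope).analyticAt
  · have h := sub_smul_dslope f 0 z
    rw [sub_zero, smul_eq_mul] at h
    rw [h]
    ring

/-- the reparametrisation -/
private theorem pa_rep (κ : ℂ) {e : ℕ} (he : 1 ≤ e) {u : ℂ → ℂ} (hu : AnalyticAt ℂ u 0)
    (h0 : u 0 ≠ 0) :
    ∃ h : ℂ → ℂ, AnalyticAt ℂ h 0 ∧ h 0 ≠ 0 ∧
      ∀ᶠ t in 𝓝 (0 : ℂ), Complex.exp κ + (t * h t) ^ e * u (t * h t) = Complex.exp (κ + t ^ e) := by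
  have he0 : e ≠ 0 := by omega
  obtain ⟨r, hr, hr0, hru⟩ := pa_root hu h0 he0
  -- `exp z = 1 + z E z`
  obtain ⟨hE, hE1⟩ := pa_dsl (f := Complex.exp) analyticAt_cexp
  have hE0 : dslope Complex.exp 0 0 = 1 := by
    rw [dslope_same, (Complex.hasDerivAt_exp 0).deriv, Complex.exp_zero]
  have hEt : AnalyticAt ℂ (fun t : ℂ => Complex.exp κ * dslope Complex.exp 0 (t ^ e)) 0 := by
    refine analyticAt_const.mul ?_
    have h1 : AnalyticAt ℂ (dslope Complex.exp 0) ((fun t : ℂ => t ^ e) 0) := by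
      show AnalyticAt ℂ (dslope Complex.exp 0) ((0 : ℂ) ^ e)
      rw [zero_pow he0]
      exact hE
    exact AnalyticAt.fun_comp h1 (analyticAt_id.pow e)
  have hEt0 : (fun t : ℂ => Complex.exp κ * dslope Complex.exp 0 (t ^ e)) 0 ≠ 0 := by
    show Complex.exp κ * dslope Complex.exp 0 ((0 : ℂ) ^ e) ≠ 0
    rw [zero_pow he0, hE0, mul_one]
    exact Complex.exp_ne_zero _
  obtain ⟨q, hq, hq0, hqE⟩ := pa_root hEt hEt0 he0
  -- the local inverse of `ψ s = s r s`
  set ψ : ℂ → ℂ := fun s => s * r s with hψ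
  have hψa : AnalyticAt ℂ ψ 0 := analyticAt_id.mul hr
  have hψ0 : ψ 0 = 0 := by simp [hψ]
  have hψd : HasDerivAt ψ (r 0) 0 := by
    have h1 := (hasDerivAt_id (0 : ℂ)).mul hr.differentiableAt.hasDerivAt
    rw [one_mul, id_eq, zero_mul, add_zero] at h1
    exact h1
  have hψd' : deriv ψ 0 ≠ 0 := by rw [hψd.deriv]; exact hr0 0
  obtain ⟨g, hg, hg0, hgr⟩ : ∃ g : ℂ → ℂ, AnalyticAt ℂ g 0 ∧ g 0 = 0 ∧
      ∀ᶠ y in 𝓝 (0 : ℂ), ψ (g y) = y := by
    have hs := hψa.hasStrictDerivAt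
    refine ⟨hs.localInverse _ _ _ hψd', ?_, ?_, ?_⟩
    · have := hψa.analyticAt_localInverse hψd'
      rwa [hψ0] at this
    · have : hs.localInverse _ _ _ hψd' (ψ 0) = 0 := HasStrictFDerivAt.localInverse_apply_image ..
      rwa [hψ0] at this
    · have : ∀ᶠ y in 𝓝 (ψ 0), ψ (hs.localInverse _ _ _ hψd' y) = y :=
        HasStrictDerivAt.eventually_right_inverse ..
      rwa [hψ0] at this
  -- `σ t = g (t q t)`
  have htq : AnalyticAt ℂ (fun t : ℂ => t * q t) 0 := analyticAt_id.mul hq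
  have htq0 : (fun t : ℂ => t * q t) 0 = 0 := by simp
  have hσ : AnalyticAt ℂ (fun t : ℂ => g (t * q t)) 0 := by
    have h1 : AnalyticAt ℂ g ((fun t : ℂ => t * q t) 0) := by rw [htq0]; exact hg
    exact AnalyticAt.fun_comp h1 htq
  obtain ⟨hh, hh1⟩ := pa_dsl hσ
  have hσt : ∀ᶠ t in 𝓝 (0 : ℂ), g (t * q t) * r (g (t * q t)) = t * q t := by
    have h1 : Tendsto (fun t : ℂ => t * q t) (𝓝 0) (𝓝 0) := by
      have := htq.continuousAt.tendsto
      rwa [zero_mul] at this
    exact h1.eventually hgr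
  have hσ0 : g ((0 : ℂ) * q 0) = 0 := by rw [zero_mul, hg0]
  have hgt : Tendsto (fun t : ℂ => g (t * q t)) (𝓝 0) (𝓝 0) := by
    have := hσ.continuousAt.tendsto
    simp only [hσ0] at this
    exact this
  refine ⟨dslope (fun t : ℂ => g (t * q t)) 0, hh, ?_, ?_⟩
  · intro h00
    have h1 : HasDerivAt (fun t : ℂ => g (t * q t)) 0 0 := by
      have h2 := hσ.differentiableAt.hasDerivAt
      rw [dslope_same] at h00
      rwa [h00] at h2
    have h3 : HasDerivAt (fun t : ℂ => g (t * q t) * r (g (t * q t))) 0 0 := by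
      have h4 : HasDerivAt ψ (r 0) ((fun t : ℂ => g (t * q t)) 0) := by
        show HasDerivAt ψ (r 0) (g ((0 : ℂ) * q 0))
        rw [hσ0]; exact hψd
      have h5 := HasDerivAt.comp (0 : ℂ) h4 h1
      rw [mul_zero] at h5
      exact h5
    have h6 : HasDerivAt (fun t : ℂ => t * q t) 0 0 := h3.congr_of_eventuallyEq
      (by filter_upwards [hσt] with t ht; exact ht.symm)
    have h7 : HasDerivAt (fun t : ℂ => t * q t) (q 0) 0 := by
      have h1 := (hasDerivAt_id (0 : ℂ)).mul hq.differentiableAt.hasDerivAt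
      rw [one_mul, id_eq, zero_mul, add_zero] at h1
      exact h1
    exact hq0 0 (h7.unique h6)
  · have hrr := hgt.eventually hru
    filter_upwards [hσt, hrr, hqE] with t h1 h2 h3
    have h4 : t * dslope (fun t : ℂ => g (t * q t)) 0 t = g (t * q t) := by
      have := hh1 t
      simp only [hσ0, zero_add] at this
      exact this.symm
    rw [h4, ← h2, ← mul_pow, h1, mul_pow, h3, Complex.exp_add]
    have h5 := hE1 (t ^ e)
    rw [Complex.exp_zero] at h5
    rw [h5]
    ring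

theorem punct_at {m : ℕ} (Q : Ideal (MvPolynomial (Fin (m + 1)) ℂ)) (hQ : Q.IsPrime)
    (hY : ∀ j, (X j : MvPolynomial (Fin (m + 1)) ℂ) ∉ Q)
    (hdim : Algebra.trdeg ℂ (MvPolynomial (Fin (m + 1)) ℂ ⧸ Q) = 1)
    (hy0 : ∀ c : ℂ, ∃ w ∈ Tz Q, w 0 ≠ c) (κ : ℂ) :
    ∃ (e : ℕ) (v : Fin m → ℤ) (b : Fin m → ℂ → ℂ), 1 ≤ e ∧ (∀ j, AnalyticAt ℂ (b j) 0) ∧
      ∀ᶠ t in 𝓝[≠] (0 : ℂ), (Fin.cons (Complex.exp (κ + t ^ e))
        (fun j => t ^ v j * Complex.exp (b j t)) : Fin (m + 1) → ℂ) ∈ Tz Q := by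
  classical
  -- the curve with the additional coordinate `y_0 - exp κ`
  let φ : MvPolynomial (Fin (m + 2)) ℂ →ₐ[ℂ] MvPolynomial (Fin (m + 1)) ℂ :=
    aeval (Fin.cons (X 0 - C (Complex.exp κ)) X :
      Fin (m + 2) → MvPolynomial (Fin (m + 1)) ℂ)
  have hφ0 : φ (X 0) = X 0 - C (Complex.exp κ) := by
    show aeval _ (X 0) = _
    rw [aeval_X, Fin.cons_zero]
  have hφs : ∀ j : Fin (m + 1), φ (X j.succ) = X j := by
    intro j
    show aeval _ (X j.succ) = _
    rw [aeval_X, Fin.cons_succ]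
  let ψ : MvPolynomial (Fin (m + 2)) ℂ →ₐ[ℂ] (MvPolynomial (Fin (m + 1)) ℂ ⧸ Q) :=
    (Ideal.Quotient.mkₐ ℂ Q).comp φ
  have hφren : ∀ f : MvPolynomial (Fin (m + 1)) ℂ, φ (rename Fin.succ f) = f := by
    intro f
    show aeval _ (rename Fin.succ f) = f
    rw [aeval_rename]
    have : ((Fin.cons (X 0 - C (Complex.exp κ)) X : Fin (m + 2) → MvPolynomial (Fin (m + 1)) ℂ) ∘
        Fin.succ) = X := by
      funext j
      simp only [Function.comp_apply, Fin.cons_succ]
    rw [this, aeval_X_left_apply]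
  have hψs : Function.Surjective ψ := by
    intro y
    obtain ⟨f, rfl⟩ := Ideal.Quotient.mkₐ_surjective ℂ Q y
    exact ⟨rename Fin.succ f, by
      show (Ideal.Quotient.mkₐ ℂ Q) (φ (rename Fin.succ f)) = _
      rw [hφren]⟩
  obtain ⟨Q', hQ'def⟩ : ∃ Q' : Ideal (MvPolynomial (Fin (m + 2)) ℂ), Q' = RingHom.ker ψ := ⟨_, rfl⟩
  have hmem : ∀ f, f ∈ Q' ↔ φ f ∈ Q := by
    intro f
    rw [hQ'def, RingHom.mem_ker]
    show (Ideal.Quotient.mkₐ ℂ Q) (φ f) = 0 ↔ _
    exact Ideal.Quotient.eq_zero_iff_mem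
  have hQ' : Q'.IsPrime := by
    have h1 : Q' = Ideal.comap φ Q := by
      ext f
      rw [hmem, Ideal.mem_comap]
    rw [h1]
    have := hQ
    exact Ideal.comap_isPrime φ Q
  have hcst : ∀ c : ℂ, (X 0 - C c : MvPolynomial (Fin (m + 1)) ℂ) ∉ Q := by
    intro c hc
    obtain ⟨w, hw, hwc⟩ := hy0 c
    apply hwc
    have h1 := hw.1 _ hc
    rw [map_sub, eval_X, eval_C, sub_eq_zero] at h1
    exact h1
  have hY' : ∀ j : Fin (m + 2), (X j : MvPolynomial (Fin (m + 2)) ℂ) ∉ Q' := by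
    intro j
    rw [hmem]
    refine Fin.cases ?_ (fun j => ?_) j
    · rw [hφ0]; exact hcst _
    · rw [hφs]; exact hY j
  have hdim' : Algebra.trdeg ℂ (MvPolynomial (Fin (m + 2)) ℂ ⧸ Q') = 1 := by
    rw [hQ'def, ← hdim]
    exact (Ideal.quotientKerAlgEquivOfSurjective hψs).trdeg_eq
  have hn : ∀ c : ℂ, (X 0 - C c : MvPolynomial (Fin (m + 2)) ℂ) ∉ Q' := by
    intro c
    rw [hmem, map_sub, hφ0]
    have h1 : φ (C c) = C c := by
      show aeval _ (C c) = _
      rw [aeval_C]; rfl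
    rw [h1, sub_sub, ← C_add]
    exact hcst _
  obtain ⟨v, ⟨u, hu, hu0, hP⟩, hv0⟩ := punct_pos Q' hQ' hY' hdim' 0 hn
  obtain ⟨e, he⟩ : ∃ e : ℕ, v 0 = (e : ℤ) := ⟨(v 0).toNat, by omega⟩
  have he1 : 1 ≤ e := by omega
  obtain ⟨h, hh, hh0, hrep⟩ := pa_rep κ he1 (hu 0) (hu0 0)
  have hσ : AnalyticAt ℂ (fun t : ℂ => t * h t) 0 := analyticAt_id.mul hh
  have hσt : Tendsto (fun t : ℂ => t * h t) (𝓝 0) (𝓝 0) := by
    have := hσ.continuousAt.tendsto
    rwa [zero_mul] at this
  -- the units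
  have hlog : ∀ j : Fin m, ∃ b : ℂ → ℂ, AnalyticAt ℂ b 0 ∧
      ∀ᶠ t in 𝓝 (0 : ℂ), Complex.exp (b t) = h t ^ v j.succ.succ * u j.succ.succ (t * h t) := by
    intro j
    have h1 : AnalyticAt ℂ (fun t => h t ^ v j.succ.succ * u j.succ.succ (t * h t)) 0 := by
      refine (hh.zpow hh0).mul ?_
      have h2 : AnalyticAt ℂ (u j.succ.succ) ((fun t : ℂ => t * h t) 0) := by
        show AnalyticAt ℂ (u j.succ.succ) (0 * h 0)
        rw [zero_mul]; exact hu _
      exact AnalyticAt.fun_comp h2 hσ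
    refine pa_log h1 ?_
    show h 0 ^ v j.succ.succ * u j.succ.succ (0 * h 0) ≠ 0
    rw [zero_mul]
    exact mul_ne_zero (zpow_ne_zero _ hh0) (hu0 _)
  choose b hb hbe using hlog
  refine ⟨e, fun j => v j.succ.succ, b, he1, hb, ?_⟩
  have hne : ∀ᶠ t in 𝓝 (0 : ℂ), h t ≠ 0 := hh.continuousAt.eventually_ne hh0
  have hσn : Tendsto (fun t : ℂ => t * h t) (𝓝[≠] 0) (𝓝[≠] 0) := by
    refine tendsto_nhdsWithin_iff.2 ⟨hσt.mono_left nhdsWithin_le_nhds, ?_⟩
    filter_upwards [hne.filter_mono nhdsWithin_le_nhds, self_mem_nhdsWithin] with t h1 h2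
    exact mul_ne_zero h2 h1
  have hball : ∀ᶠ t in 𝓝[≠] (0 : ℂ), ∀ j, Complex.exp (b j t) =
      h t ^ v j.succ.succ * u j.succ.succ (t * h t) :=
    (Filter.eventually_all.2 hbe).filter_mono nhdsWithin_le_nhds
  filter_upwards [hσn.eventually hP, hball, hrep.filter_mono nhdsWithin_le_nhds] with t h1 h2 h3
  -- the point of `Tz Q`
  obtain ⟨w', hw'⟩ : ∃ w' : Fin (m + 2) → ℂ, w' = fun j => (t * h t) ^ v j * u j (t * h t) :=
    ⟨_, rfl⟩
  rw [← hw'] at h1
  have h4 : w' 0 = w' (Fin.succ 0) - Complex.exp κ := by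
    have h5 : (X 0 - (X (Fin.succ 0) - C (Complex.exp κ)) : MvPolynomial (Fin (m + 2)) ℂ) ∈ Q' := by
      have h6 : φ (C (Complex.exp κ)) = C (Complex.exp κ) := by
        show aeval _ (C _) = _
        rw [aeval_C]; rfl
      rw [hmem, map_sub, map_sub, hφ0, hφs, h6, sub_self]
      exact Q.zero_mem
    have h7 := h1.1 _ h5
    rw [map_sub, map_sub, eval_X, eval_X, eval_C, sub_eq_zero] at h7
    exact h7
  have h5 : (Fin.cons (Complex.exp (κ + t ^ e)) (fun j => t ^ v j.succ.succ * Complex.exp (b j t)) :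
      Fin (m + 1) → ℂ) = fun j => w' j.succ := by
    funext j
    refine Fin.cases ?_ (fun j => ?_) j
    · rw [Fin.cons_zero, ← h3]
      have h6 : w' 0 = (t * h t) ^ e * u 0 (t * h t) := by
        rw [hw']
        show (t * h t) ^ v 0 * u 0 (t * h t) = _
        rw [he, zpow_natCast]
      rw [← h6, h4]
      ring
    · rw [Fin.cons_succ, h2 j, hw']
      show t ^ v j.succ.succ * (h t ^ v j.succ.succ * u j.succ.succ (t * h t)) =
        (t * h t) ^ v j.succ.succ * u j.succ.succ (t * h t)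
      rw [mul_zpow]
      ring
  rw [h5]
  refine ⟨fun f hf => ?_, fun j => h1.2 j.succ⟩
  have h6 : rename Fin.succ f ∈ Q' := by rw [hmem, hφren]; exact hf
  have h7 := h1.1 _ h6
  rw [eval_rename] at h7
  exact h7

end Pool.Agent.EXQ
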