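import Pool.Agent.EXQ.FlatII
import Pool.Agent.EXQ.NormY
import Pool.Agent.EXQ.PunctAt
import Pool.Agent.EXM.Disc
import Pool.Agent.EXP.Elim
import Pool.Agent.EXP.Avoid
import Pool.Agent.EXP.MainA
import Pool.Agent.EXM.Sh
import Pool.Agent.EXQ.Lim

/-!
# EXQ / CaseII: a constant root of the top part

PROOF.  (Compare the beginning of EXM/Core.) `h`, `w₁`: `EXP.elim` gives `E` (`F(z) = 0`, `h(z, w) = 0` imply `E(z'; w) = 0`), `norm_y` gives
`N(w_0, z') = 0`. `k = F(κ, ·) ≠ 0` (otherwise `X_0 - κ` divides the irreducible `F`). `exists_disc`: `Δ`. `exists_topc`. `N(y₁, ·) ≠ 0` for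
some `y₁`. `exists_real_avoid`: real `α` outside the zeros of the leading forms of `Δ`, `k`, `N(y₁, ·)` and of `topc F a`. Then `F(κ, i T α)`
and `N(y₁, i T α)` are nonzero polynomials in `T`. `punct_at`. If there were no `z` as wanted, `flatII` applies.
-/

set_option autoImplicit false

namespace Pool.Agent.EXQ

open MvPolynomial Filter Topology Pool.Agent.EXP Pool.Agent.EXM

private theorem cii_eval {m : ℕ} (G : MvPolynomial (Fin (m + 1)) ℂ) (y : ℂ) (x : Fin m → ℂ) :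
    eval x (Polynomial.eval (C y) (finSuccEquiv ℂ m G)) =
      eval (Fin.cons y x : Fin (m + 1) → ℂ) G := by
  rw [← fp_eval, fp, Polynomial.eval_map]
  have h1 := Polynomial.eval₂_at_apply (p := finSuccEquiv ℂ m G) (eval x) (C y)
  rw [eval_C] at h1
  exact h1.symm

private theorem cii_exists {m : ℕ} (G : MvPolynomial (Fin (m + 1)) ℂ) (y : ℂ) (α : Fin m → ℝ)
    (h : eval (fun j => (α j : ℂ)) (homogeneousComponent
      (Polynomial.eval (C y) (finSuccEquiv ℂ m G)).totalDegree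
      (Polynomial.eval (C y) (finSuccEquiv ℂ m G))) ≠ 0) :
    ∃ T : ℝ, eval (Fin.cons y (ipt T α) : Fin (m + 1) → ℂ) G ≠ 0 := by
  obtain ⟨η, hη, hev⟩ := Pool.Agent.EXM.Sh18.delta_inf _ α h
  obtain ⟨T, hT, hT0⟩ := (hev.and (eventually_gt_atTop 0)).exists
  refine ⟨T, ?_⟩
  rw [← cii_eval]
  exact hT _ (Metric.mem_ball_self (mul_pos hη hT0))

private theorem cii_ne {m : ℕ} (F : MvPolynomial (Fin (m + 1)) ℂ) (hF : Irreducible F) (κ : ℂ)
    (hlin : ∀ a b : ℂ, F ≠ C a * X 0 + C b) :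
    Polynomial.eval (C κ) (finSuccEquiv ℂ m F) ≠ 0 := by
  intro h0
  obtain ⟨q, hq⟩ := Polynomial.dvd_iff_isRoot.2 h0
  have h2 : F = (X 0 - C κ) * (finSuccEquiv ℂ m).symm q := by
    apply (finSuccEquiv ℂ m).injective
    rw [hq, map_mul, AlgEquiv.apply_symm_apply, map_sub, finSuccEquiv_X_zero]
    congr 2
    have h5 := DFunLike.congr_fun (finSuccEquiv_comp_C_eq_C (R := ℂ) m) κ
    rw [← (finSuccEquiv ℂ m).apply_symm_apply (Polynomial.C (C κ))]
    exact congrArg (finSuccEquiv ℂ m) h5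
  rcases hF.isUnit_or_isUnit h2 with h3 | h3
  · have h4 := h3.map (eval (fun _ => κ : Fin (m + 1) → ℂ))
    rw [map_sub, eval_X, eval_C, sub_self] at h4
    exact not_isUnit_zero h4
  · obtain ⟨c, -, hc⟩ := isUnit_iff_eq_C_of_isReduced.1 h3
    rw [hc] at h2
    apply hlin c (-(κ * c))
    rw [h2, map_neg, map_mul]
    ring

theorem caseII {m : ℕ} (F : MvPolynomial (Fin (m + 1)) ℂ) (hF : Irreducible F)
    (hF0 : 0 < degreeOf 0 F) (κ : ℂ) (hκ : ∀ x : Fin m → ℂ, (pj F x).eval κ = 0)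
    (hlin : ∀ a b : ℂ, F ≠ C a * X 0 + C b)
    (Q : Ideal (MvPolynomial (Fin (m + 1)) ℂ)) (hQ : Q.IsPrime)
    (hY : ∀ j, (X j : MvPolynomial (Fin (m + 1)) ℂ) ∉ Q)
    (hdim : Algebra.trdeg ℂ (MvPolynomial (Fin (m + 1)) ℂ ⧸ Q) = 1)
    (hy0 : ∀ c : ℂ, ∃ w ∈ Tz Q, w 0 ≠ c) : Dens F Q := by
  classical
  intro h hh
  obtain ⟨z₁, w₁, hz₁, hw₁, hh₁⟩ := hh
  by_contra hcon
  push Not at hcon
  obtain ⟨Δ, hΔ0, hΔ⟩ := exists_disc F hF hF0
  obtain ⟨E, hE₁, hE⟩ := elim F hF hF0 h w₁ (by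
    rintro ⟨q, hq⟩
    apply hh₁
    have h1 : eval z₁ (aeval (Sum.elim X fun j => C (w₁ j)) h) = eval (Sum.elim z₁ w₁) h := by
      have h2 : ∀ P : MvPolynomial (Fin (m + 1) ⊕ Fin (m + 1)) ℂ,
          eval z₁ (aeval (Sum.elim X fun j => C (w₁ j)) P) = eval (Sum.elim z₁ w₁) P := by
        intro P
        induction P using MvPolynomial.induction_on with
        | C a => simp
        | add p q hp hq => rw [map_add, map_add, hp, hq, map_add]
        | mul_X p i hp =>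
          rw [map_mul, map_mul, hp, map_mul, aeval_X, eval_X]
          rcases i with i | i <;> simp
      exact h2 h
    rw [← h1, hq, map_mul, hz₁, zero_mul])
  obtain ⟨N, hN0, hN⟩ := norm_y Q hQ hY hdim hy0 E ⟨w₁, hw₁, hE₁⟩
  obtain ⟨a, ha⟩ := exists_topc F hF.ne_zero
  have hk0 := cii_ne F hF κ hlin
  obtain ⟨p, hp⟩ : ∃ p : Fin (m + 1) → ℂ, eval p N ≠ 0 := by
    by_contra hno
    push Not at hno
    exact hN0 (MvPolynomial.funext fun p => by rw [hno p, map_zero])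
  have hp' : Polynomial.eval (C (p 0)) (finSuccEquiv ℂ m N) ≠ 0 := by
    intro h0
    apply hp
    have h1 := cii_eval N (p 0) (fun j => p j.succ)
    rw [h0, map_zero] at h1
    rw [← Fin.cons_self_tail p]
    exact h1.symm
  obtain ⟨α, hα⟩ := exists_real_avoid
    (![homogeneousComponent Δ.totalDegree Δ,
      homogeneousComponent (Polynomial.eval (C κ) (finSuccEquiv ℂ m F)).totalDegree
        (Polynomial.eval (C κ) (finSuccEquiv ℂ m F)),
      homogeneousComponent (Polynomial.eval (C (p 0)) (finSuccEquiv ℂ m N)).totalDegree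
        (Polynomial.eval (C (p 0)) (finSuccEquiv ℂ m N)),
      topc F a] : Fin 4 → MvPolynomial (Fin m) ℂ) (by
    intro i
    fin_cases i
    · exact top_ne_zero Δ hΔ0
    · exact top_ne_zero _ hk0
    · exact top_ne_zero _ hp'
    · exact ha)
  have h0 := hα 0
  have h1 := hα 1
  have h2 := hα 2
  have h3 := hα 3
  obtain ⟨T, hT⟩ := cii_exists N (p 0) α h2
  obtain ⟨e, v, b, he, hb, hW⟩ := punct_at Q hQ hY hdim hy0 κ
  exact flatII F N Q Δ hΔ α h0 κ (hκ _) (pj_ne_zero F _ a h3) _ rfl h1 (cii_exists F κ α h1)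
    ⟨T, p 0, hT⟩ e he v b hb hW fun z hz hw => by
      have h4 := hE z _ hz (hcon z hz hw)
      exact hN _ hw _ h4

end Pool.Agent.EXQ
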