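import Pool.Agent.EXQ.CaseII
import Pool.Agent.EXQ.CaseA
import Pool.Agent.EXQ.CaseB

/-!
# EXQ / CaseX: `X_0` divides the leading form
-/

set_option autoImplicit false

namespace Pool.Agent.EXQ

open MvPolynomial Filter Topology Pool.Agent.EXP Pool.Agent.EXM

theorem caseX {m : ℕ} (F : MvPolynomial (Fin (m + 1)) ℂ) (hF : Irreducible F)
    (hX : X 0 ∣ homogeneousComponent F.totalDegree F)
    (hlin : ∀ a b : ℂ, F ≠ C a * X 0 + C b)
    (Q : Ideal (MvPolynomial (Fin (m + 1)) ℂ)) (hQ : Q.IsPrime)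
    (hY : ∀ j, (X j : MvPolynomial (Fin (m + 1)) ℂ) ∉ Q)
    (hdim : Algebra.trdeg ℂ (MvPolynomial (Fin (m + 1)) ℂ ⧸ Q) = 1)
    (hy0 : ∀ c : ℂ, ∃ w ∈ Tz Q, w 0 ≠ c) : Dens F Q := by
  have hF0 : 0 < degreeOf 0 F := by
    obtain ⟨S, hS⟩ := hX
    exact degreeOf_pos_of_top F (X 0) S hF.ne_zero (by
      rw [degreeOf_X, if_pos rfl]
      norm_num) hS
  by_cases h1 : ∃ κ : ℂ, ∀ x : Fin m → ℂ, (pj F x).eval κ = 0
  · obtain ⟨κ, hκ⟩ := h1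
    exact caseII F hF hF0 κ hκ hlin Q hQ hY hdim hy0
  · push Not at h1
    by_cases h2 : ∃ a, 1 ≤ a ∧ topc F a ≠ 0
    · exact caseA F hF hF0 h2 h1 Q hQ hY hdim hy0
    · push Not at h2
      exact caseB F hF hX h2 Q hQ hY hdim hy0

end Pool.Agent.EXQ
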