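import Pool.Agent.EXQ.Defs
import Pool.Agent.EXP.GermDense
import Pool.Agent.EXZ.ChV

/-!
# EXQ / Change: unimodular change of coordinates for products

PROOF.  `Q'` = kernel of the map `ℂ[y] → K`, `K` the fraction field of `ℂ[y]/Q`,
`y_i ↦ ∏_j ȳ_j^(B i j)` (prime; `trdeg` 1 as `K` is algebraic over the image). Points: clear denominators (`star1`, from
`EXZ.chv_star`). Density: for `h` take `h'(z', w') = (∏ w'_j)^M h(B' z', w'^(B'))`; `z = B' z'`.
-/

set_option autoImplicit false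

namespace Pool.Agent.EXQ

open MvPolynomial Filter Topology Pool.Agent.EXP Pool.Agent.EXM

/-- clearing the denominators of `f(y^B)` -/
private theorem star1 {n : ℕ} (B : Matrix (Fin n) (Fin n) ℤ) (f : MvPolynomial (Fin n) ℂ) :
    ∃ (N : ℕ) (g : MvPolynomial (Fin n) ℂ), ∀ (L : Type) [Field L] [Algebra ℂ L]
      (t : Fin n → L), (∀ j, t j ≠ 0) →
      aeval t g = (∏ j, t j) ^ N * aeval (fun i => ∏ j, t j ^ B i j) f := by
  obtain ⟨N, g, h⟩ := Pool.Agent.EXZ.chv_star B (rename Sum.inr f)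
  refine ⟨N, aeval (Sum.elim (fun _ => 0) X) g, fun L _ _ t ht => ?_⟩
  have h1 := h L (fun _ => 0) t ht
  rw [aeval_rename] at h1
  have h2 : (aeval t) (aeval (Sum.elim (fun _ => 0) X : Fin n ⊕ Fin n → MvPolynomial (Fin n) ℂ) g) =
      aeval (Sum.elim (fun _ => 0) t) g := by
    rw [← AlgHom.comp_apply]
    congr 1
    refine MvPolynomial.algHom_ext fun i => ?_
    rcases i with i | i <;> simp
  rw [h2, h1]
  rfl

theorem change {n : ℕ} (B B' : Matrix (Fin n) (Fin n) ℤ) (hBB' : B * B' = 1)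
    (F : MvPolynomial (Fin n) ℂ) (Q : Ideal (MvPolynomial (Fin n) ℂ)) (hQ : Q.IsPrime)
    (hY : ∀ j, (X j : MvPolynomial (Fin n) ℂ) ∉ Q)
    (hdim : Algebra.trdeg ℂ (MvPolynomial (Fin n) ℂ ⧸ Q) = 1) :
    ∃ Q' : Ideal (MvPolynomial (Fin n) ℂ), Q'.IsPrime ∧
      (∀ j, (X j : MvPolynomial (Fin n) ℂ) ∉ Q') ∧
      Algebra.trdeg ℂ (MvPolynomial (Fin n) ℂ ⧸ Q') = 1 ∧
      (∀ w : Fin n → ℂ, w ∈ Tz Q → (fun i => ∏ j, w j ^ B i j) ∈ Tz Q') ∧
      (∀ w : Fin n → ℂ, w ∈ Tz Q' → (fun i => ∏ j, w j ^ B' i j) ∈ Tz Q) ∧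
      (Dens (aeval (fun i => ∑ j, (B' i j : ℂ) • (X j : MvPolynomial (Fin n) ℂ)) F) Q' →
        Dens F Q) := by
  classical
  have hB'B : B' * B = 1 := mul_eq_one_comm.1 hBB'
  have := hQ
  let A := MvPolynomial (Fin n) ℂ ⧸ Q
  let K := FractionRing A
  let cl : MvPolynomial (Fin n) ℂ →ₐ[ℂ] K :=
    (Algebra.ofId A K).restrictScalars ℂ |>.comp (Ideal.Quotient.mkₐ ℂ Q)
  have hcl : ∀ f, cl f = 0 ↔ f ∈ Q := by
    intro f
    change algebraMap A K (Ideal.Quotient.mk Q f) = 0 ↔ _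
    rw [map_eq_zero_iff _ (IsFractionRing.injective A K), Ideal.Quotient.eq_zero_iff_mem]
  let η : Fin n → K := fun j => cl (X j)
  have hη : ∀ j, η j ≠ 0 := fun j h0 => hY j ((hcl _).1 h0)
  let t : Fin n → K := fun i => ∏ j, η j ^ B i j
  have ht : ∀ i, t i ≠ 0 := fun i => Finset.prod_ne_zero_iff.2 fun j _ => zpow_ne_zero _ (hη j)
  let Φ : MvPolynomial (Fin n) ℂ →ₐ[ℂ] K := aeval t
  let Q' : Ideal (MvPolynomial (Fin n) ℂ) := RingHom.ker Φ.toRingHom
  have hQ' : ∀ f, f ∈ Q' ↔ Φ f = 0 := fun f => RingHom.mem_ker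
  have hst2 : (fun i => ∏ j, t j ^ B' i j) = η :=
    funext fun i => Pool.Agent.EXZ.chv_prod hB'B η hη i
  have hclf : ∀ f, aeval η f = cl f := by
    intro f
    have h1 : (aeval η : MvPolynomial (Fin n) ℂ →ₐ[ℂ] K) = cl := by
      refine MvPolynomial.algHom_ext fun i => ?_
      rw [aeval_X]
    rw [h1]
  have hprime : Q'.IsPrime := RingHom.ker_isPrime _
  -- points
  have hfwd : ∀ w : Fin n → ℂ, w ∈ Tz Q → (fun i => ∏ j, w j ^ B i j) ∈ Tz Q' := by
    intro w hw
    refine ⟨fun f hf => ?_, fun i => Finset.prod_ne_zero_iff.2 fun j _ => zpow_ne_zero _ (hw.2 j)⟩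
    obtain ⟨N, g, hg⟩ := star1 B f
    have h1 : g ∈ Q := by
      rw [← hcl, ← hclf, hg K η hη]
      have h2 : aeval (fun i => ∏ j, η j ^ B i j) f = 0 := (hQ' f).1 hf
      rw [h2, mul_zero]
    have h3 := hg ℂ w hw.2
    rw [aeval_eq_eval, aeval_eq_eval] at h3
    have h4 : eval w g = 0 := hw.1 g h1
    have h5 : (0 : ℂ) = _ := h4.symm.trans h3
    rcases mul_eq_zero.1 h5.symm with h6 | h6
    · exact absurd h6 (pow_ne_zero _ (Finset.prod_ne_zero_iff.2 fun j _ => hw.2 j))
    · exact h6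
  have hbwd : ∀ w : Fin n → ℂ, w ∈ Tz Q' → (fun i => ∏ j, w j ^ B' i j) ∈ Tz Q := by
    intro w hw
    refine ⟨fun f hf => ?_, fun i => Finset.prod_ne_zero_iff.2 fun j _ => zpow_ne_zero _ (hw.2 j)⟩
    obtain ⟨N, g, hg⟩ := star1 B' f
    have h1 : g ∈ Q' := by
      rw [hQ']
      change aeval t g = 0
      rw [hg K t ht, hst2, hclf, (hcl f).2 hf, mul_zero]
    have h3 := hg ℂ w hw.2
    rw [aeval_eq_eval, aeval_eq_eval] at h3
    have h4 : eval w g = 0 := hw.1 g h1
    have h5 : (0 : ℂ) = _ := h4.symm.trans h3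
    rcases mul_eq_zero.1 h5.symm with h6 | h6
    · exact absurd h6 (pow_ne_zero _ (Finset.prod_ne_zero_iff.2 fun j _ => hw.2 j))
    · exact h6
  refine ⟨Q', hprime, ?_, ?_, hfwd, hbwd, ?_⟩
  · intro j hj
    have h1 := (hQ' _).1 hj
    rw [aeval_X] at h1
    exact ht j h1
  · -- transcendence degree
    let S' : Subalgebra ℂ K := Φ.range
    have hfs : FaithfulSMul ℂ S' := (faithfulSMul_iff_algebraMap_injective ℂ S').2
      (algebraMap ℂ S').injective
    have hfs2 : FaithfulSMul S' K := (faithfulSMul_iff_algebraMap_injective S' K).2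
      Subtype.val_injective
    have hmem : ∀ f, Φ f ∈ S' := fun f => ⟨f, rfl⟩
    have halg0 : ∀ f, IsAlgebraic S' (Φ f) := fun f =>
      isAlgebraic_algebraMap (A := K) (⟨Φ f, hmem f⟩ : S')
    have ht' : ∀ i, IsAlgebraic S' (t i) := fun i => by
      have h1 := halg0 (X i)
      rwa [show Φ (X i) = t i from aeval_X _ _] at h1
    have hzpow : ∀ (y : K) (z : ℤ), IsAlgebraic S' y → IsAlgebraic S' (y ^ z) := by
      intro y z hy
      cases z with
      | ofNat m =>
        rw [Int.ofNat_eq_natCast, zpow_natCast]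
        exact hy.pow m
      | negSucc m =>
        rw [zpow_negSucc]
        exact (hy.pow _).inv
    have hprod : ∀ (r : Finset (Fin n)) (g : Fin n → K), (∀ j, IsAlgebraic S' (g j)) →
        IsAlgebraic S' (∏ j ∈ r, g j) := by
      intro r g hg
      induction r using Finset.induction_on with
      | empty => rw [Finset.prod_empty]; exact isAlgebraic_one
      | insert a r ha ih => rw [Finset.prod_insert ha]; exact (hg a).mul ih
    have hηa : ∀ i, IsAlgebraic S' (η i) := by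
      intro i
      rw [← hst2]
      exact hprod _ _ fun j => hzpow _ _ (ht' j)
    have hcla : ∀ f, IsAlgebraic S' (cl f) := by
      intro f
      induction f using MvPolynomial.induction_on with
      | C a =>
        have h1 := halg0 (C a)
        have h2 : Φ (C a) = cl (C a) := by
          rw [← algebraMap_eq, AlgHom.commutes, AlgHom.commutes]
        rwa [h2] at h1
      | add p q hp hq => rw [map_add]; exact hp.add hq
      | mul_X p i hp =>
        rw [map_mul]
        exact hp.mul (hηa i)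
    have halg : Algebra.IsAlgebraic S' K := by
      refine ⟨fun y => ?_⟩
      obtain ⟨p, q, -, rfl⟩ := IsFractionRing.div_surjective (A := A) y
      obtain ⟨f, rfl⟩ := Ideal.Quotient.mk_surjective p
      obtain ⟨g, rfl⟩ := Ideal.Quotient.mk_surjective q
      rw [div_eq_mul_inv]
      exact (hcla f).mul (hcla g).inv
    have h1 : Algebra.trdeg ℂ S' = Algebra.trdeg ℂ K := by
      have h2 := trdeg_add_eq (R := ℂ) (S := S') (A := K)
      rwa [trdeg_eq_zero (R := S') (A := K), add_zero] at h2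
    have h3 : Algebra.trdeg ℂ A = Algebra.trdeg ℂ K := by
      have : Algebra.IsAlgebraic A K := by
        refine ⟨fun y => ?_⟩
        obtain ⟨p, q, -, rfl⟩ := IsFractionRing.div_surjective (A := A) y
        rw [div_eq_mul_inv]
        exact (isAlgebraic_algebraMap p).mul (isAlgebraic_algebraMap q).inv
      have : FaithfulSMul ℂ A := (faithfulSMul_iff_algebraMap_injective ℂ A).2
        (algebraMap ℂ A).injective
      have h2 := trdeg_add_eq (R := ℂ) (S := A) (A := K)
      rwa [trdeg_eq_zero (R := A) (A := K), add_zero] at h2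
    have e : (MvPolynomial (Fin n) ℂ ⧸ Q') ≃ₐ[ℂ] S' :=
      Ideal.quotientKerEquivRange Φ
    rw [e.trdeg_eq, h1, ← h3]
    exact hdim
  · -- density
    have hFe : ∀ z' : Fin n → ℂ,
        eval z' (aeval (fun i => ∑ j, (B' i j : ℂ) • (X j : MvPolynomial (Fin n) ℂ)) F) =
          eval (fun i => ∑ j, (B' i j : ℂ) * z' j) F := by
      intro z'
      rw [← aeval_eq_eval, ← aeval_eq_eval, ← AlgHom.comp_apply]
      congr 1
      refine MvPolynomial.algHom_ext fun i => ?_
      rw [AlgHom.comp_apply, aeval_X, aeval_X, map_sum]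
      refine Finset.sum_congr rfl fun j _ => ?_
      rw [map_smul, aeval_X, smul_eq_mul]
    intro H h hh
    obtain ⟨z, w, hz, hw, hzw⟩ := hh
    obtain ⟨N, g, hg⟩ := Pool.Agent.EXZ.chv_star B' h
    have hw0 : ∀ i, ∏ j, w j ^ B i j ≠ 0 := fun i =>
      Finset.prod_ne_zero_iff.2 fun j _ => zpow_ne_zero _ (hw.2 j)
    have hz1 : (fun i => ∑ j, (B' i j : ℂ) * (∑ l, (B j l : ℂ) * z l)) = z :=
      funext fun i => Pool.Agent.EXZ.chv_sum hB'B z i
    have hw1 : (fun i => ∏ j, (∏ l, w l ^ B j l) ^ B' i j) = w :=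
      funext fun i => Pool.Agent.EXZ.chv_prod hB'B w hw.2 i
    obtain ⟨z', hz1', hz2', hz3'⟩ := H g ⟨fun i => ∑ j, (B i j : ℂ) * z j,
      fun i => ∏ j, w j ^ B i j, by rw [hFe, hz1]; exact hz, hfwd w hw, by
        have h2 := hg ℂ (fun i => ∑ j, (B i j : ℂ) * z j) (fun i => ∏ j, w j ^ B i j) hw0
        rw [hz1, hw1, aeval_eq_eval, aeval_eq_eval] at h2
        intro h3
        have h4 : (0 : ℂ) = _ := h3.symm.trans h2
        rcases mul_eq_zero.1 h4.symm with h5 | h5
        · exact pow_ne_zero _ (Finset.prod_ne_zero_iff.2 fun j _ => hw0 j) h5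
        · exact hzw h5⟩
    have hexp : (fun i => ∏ j, Complex.exp (z' j) ^ B' i j) =
        fun i => Complex.exp (∑ j, (B' i j : ℂ) * z' j) := by
      funext i
      rw [Complex.exp_sum]
      refine Finset.prod_congr rfl fun j _ => ?_
      rw [Complex.exp_int_mul]
    refine ⟨fun i => ∑ j, (B' i j : ℂ) * z' j, ?_, ?_, ?_⟩
    · rw [← hFe]
      exact hz1'
    · have h1 := hbwd _ hz2'
      rw [hexp] at h1
      exact h1
    · intro h1
      have h2 := hg ℂ z' (fun j => Complex.exp (z' j)) (fun j => Complex.exp_ne_zero _)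
      rw [hexp, aeval_eq_eval, aeval_eq_eval] at h2
      apply hz3'
      exact h2.trans (mul_eq_zero_of_right _ h1)

end Pool.Agent.EXQ
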