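import Pool.Agent.EXM.Defs
import Pool.Agent.EXP.Defs

/-!
# EXQ / Defs (steward helper12): the complete product theorem, definitions
-/

set_option autoImplicit false

namespace Pool.Agent.EXQ

open MvPolynomial Filter Topology Pool.Agent.EXP Pool.Agent.EXM

/-- degree of `F` in the variables `x_1, .., x_m` -/
noncomputable def xd {m : ℕ} (F : MvPolynomial (Fin (m + 1)) ℂ) : ℕ :=
  (finSuccEquiv ℂ m F).support.sup fun a => ((finSuccEquiv ℂ m F).coeff a).totalDegree

/-- coefficient of `X^a` in the part of degree `xd F` in `x'` -/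
noncomputable def topc {m : ℕ} (F : MvPolynomial (Fin (m + 1)) ℂ) (a : ℕ) : MvPolynomial (Fin m) ℂ :=
  homogeneousComponent (xd F) ((finSuccEquiv ℂ m F).coeff a)

/-- the part of degree `xd F` in `x'`, as polynomial in `X` -/
noncomputable def pj {m : ℕ} (F : MvPolynomial (Fin (m + 1)) ℂ) (x : Fin m → ℂ) : Polynomial ℂ :=
  ∑ a ∈ (finSuccEquiv ℂ m F).support, Polynomial.monomial a (eval x (topc F a))

/-- density of the exponential points in `{F = 0} × Tz Q` -/
def Dens {n : ℕ} (F : MvPolynomial (Fin n) ℂ) (Q : Ideal (MvPolynomial (Fin n) ℂ)) : Prop :=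
  ∀ h : MvPolynomial (Fin n ⊕ Fin n) ℂ,
    (∃ z w : Fin n → ℂ, eval z F = 0 ∧ w ∈ Tz Q ∧ eval (Sum.elim z w) h ≠ 0) →
    ∃ z : Fin n → ℂ, eval z F = 0 ∧ (fun j => Complex.exp (z j)) ∈ Tz Q ∧
      eval (Sum.elim z fun j => Complex.exp (z j)) h ≠ 0

end Pool.Agent.EXQ
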