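import Mathlib

/-!
# EXQ / Flat: an analytic function on a polydisc vanishing at the lattice is exponentially small

`interp1` is the one variable estimate (Lagrange interpolation at `n` consecutive points of
`2 π i ℤ` and the maximum principle for the quotient); `flat` goes coordinate after coordinate.
-/

set_option autoImplicit false

namespace Pool.Agent.EXQ

open Filter Topology

private theorem prodNode (n k : ℕ) (hk : k < n) :
    ∏ j ∈ (Finset.range n).erase k, |(k : ℝ) - j|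
      = (k.factorial : ℝ) * ((n - 1 - k).factorial : ℝ) := by
  obtain ⟨m, rfl⟩ : ∃ m, n = k + 1 + m := ⟨n - 1 - k, by omega⟩
  have h1 : k + 1 + m - 1 - k = m := by omega
  rw [h1]
  have h2 : ∏ j ∈ (Finset.range (k + 1 + m)).erase k, |(k : ℝ) - j|
      = ∏ j ∈ Finset.range (k + 1 + m), (if j = k then 1 else |(k : ℝ) - j|) := by
    rw [← Finset.mul_prod_erase (Finset.range (k+1+m)) _ (Finset.mem_range.2 hk)]
    simp only [if_true, one_mul]
    refine Finset.prod_congr rfl fun j hj => ?_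
    rw [if_neg (Finset.ne_of_mem_erase hj)]
  rw [h2, Finset.prod_range_add, Finset.prod_range_succ]
  simp only [if_true, mul_one]
  congr 1
  · rw [← Nat.descFactorial_self k, Nat.descFactorial_eq_prod_range, Nat.cast_prod]
    refine Finset.prod_congr rfl fun j hj => ?_
    have hj' := Finset.mem_range.1 hj
    rw [if_neg (by omega), Nat.cast_sub hj'.le, abs_of_nonneg]
    have : (j : ℝ) < k := by exact_mod_cast hj'
    linarith
  · rw [← Finset.prod_range_add_one_eq_factorial, Nat.cast_prod]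
    refine Finset.prod_congr rfl fun j hj => ?_
    rw [if_neg (by omega), abs_of_nonpos (by push_cast; linarith [Nat.cast_nonneg (α := ℝ) j])]
    push_cast
    ring

private theorem sumNode (n : ℕ) (hn : 1 ≤ n) :
    ∑ k ∈ Finset.range n, ((k.factorial : ℝ) * ((n - 1 - k).factorial : ℝ))⁻¹
      = 2 ^ (n - 1) / ((n - 1).factorial : ℝ) := by
  obtain ⟨m, rfl⟩ : ∃ m, n = m + 1 := ⟨n - 1, by omega⟩
  simp only [Nat.add_sub_cancel]
  have h := Nat.sum_range_choose m
  have h2 : (∑ k ∈ Finset.range (m + 1), (m.choose k : ℝ)) = 2 ^ m := by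
    exact_mod_cast h
  rw [← h2, Finset.sum_div]
  refine Finset.sum_congr rfl fun k hk => ?_
  have hk' : k ≤ m := Nat.lt_succ_iff.1 (Finset.mem_range.1 hk)
  have h3 := Nat.choose_mul_factorial_mul_factorial hk'
  have h4 : (m.choose k : ℝ) * k.factorial * (m - k).factorial = m.factorial := by
    exact_mod_cast h3
  have a1 : (k.factorial : ℝ) ≠ 0 := by exact_mod_cast k.factorial_ne_zero
  have a2 : ((m - k).factorial : ℝ) ≠ 0 := by exact_mod_cast (m - k).factorial_ne_zero
  have a3 : (m.factorial : ℝ) ≠ 0 := by exact_mod_cast m.factorial_ne_zero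
  rw [eq_div_iff a3, ← h4]
  field_simp

private theorem divNodes {U : Set ℂ} (hU : IsOpen U) (s : Finset ℂ) (hs : ∀ z ∈ s, z ∈ U) :
    ∀ g : ℂ → ℂ, DifferentiableOn ℂ g U → (∀ z ∈ s, g z = 0) →
    ∃ q : ℂ → ℂ, DifferentiableOn ℂ q U ∧ ∀ ζ, g ζ = (∏ z ∈ s, (ζ - z)) * q ζ := by
  classical
  induction s using Finset.induction_on with
  | empty => intro g hg _; exact ⟨g, hg, fun ζ => by simp⟩
  | insert a s ha ih =>
    intro g hg hz
    have haU : a ∈ U := hs a (Finset.mem_insert_self _ _)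
    have hga : g a = 0 := hz a (Finset.mem_insert_self _ _)
    have hd : DifferentiableOn ℂ (dslope g a) U :=
      (Complex.differentiableOn_dslope (hU.mem_nhds haU)).2 hg
    obtain ⟨q, hq, hq2⟩ := ih (fun z hz' => hs z (Finset.mem_insert_of_mem hz')) (dslope g a) hd
      (by
        intro z hz'
        have hne : z ≠ a := fun h => ha (h ▸ hz')
        rw [dslope_of_ne _ hne, slope_def_field, hz z (Finset.mem_insert_of_mem hz'), hga]
        simp)
    refine ⟨q, hq, fun ζ => ?_⟩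
    rw [Finset.prod_insert ha, mul_assoc, ← hq2 ζ]
    have := sub_smul_dslope g a ζ
    rw [hga, sub_zero] at this
    rw [← this, smul_eq_mul]

private theorem expo_le (n : ℕ) : ((n : ℝ)) ^ (n - 1) / ((n - 1).factorial : ℝ) ≤ 3 ^ n := by
  have h1 := Real.pow_div_factorial_le_exp (n : ℝ) (Nat.cast_nonneg n) (n - 1)
  refine h1.trans ?_
  have h2 : Real.exp (n : ℝ) = Real.exp 1 ^ n := by
    rw [← Real.exp_nat_mul, mul_one]
  rw [h2]
  exact pow_le_pow_left₀ (Real.exp_pos 1).le (by linarith [Real.exp_one_lt_d9]) n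

/-- One variable. -/
theorem interp1 : ∃ K : ℝ, 1 ≤ K ∧ ∀ (n : ℕ) (R M ε θ : ℝ), 1 ≤ n → 100 * n ≤ R → 0 ≤ M → 0 ≤ ε →
    ∀ f : ℂ → ℂ, DifferentiableOn ℂ f (Metric.ball (Complex.I * θ) R) →
    (∀ y ∈ Metric.ball (Complex.I * θ) R, ‖f y‖ ≤ M) →
    (∀ l : ℤ, 2 * Real.pi * Complex.I * l ∈ Metric.ball (Complex.I * (θ : ℂ)) R →
      ‖f (2 * Real.pi * Complex.I * l)‖ ≤ ε) →
    ∀ y ∈ Metric.ball (Complex.I * (θ : ℂ)) n, ‖f y‖ ≤ K ^ n * ε + M * (K * n / R) ^ n := by
  classical
  refine ⟨100, by norm_num, ?_⟩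
  intro n R M ε θ hn hR hM hε f hf hfM hfl y hy
  have hn1 : (1 : ℝ) ≤ n := by exact_mod_cast hn
  have hR0 : (0 : ℝ) < R := by linarith
  have hpi := Real.pi_gt_three
  have hpi2 := Real.pi_lt_d2
  have hpi0 := Real.pi_pos
  set a : ℂ := Complex.I * (θ : ℂ) with ha
  set l0 : ℤ := ⌊θ / (2 * Real.pi)⌋ with hl0
  set nd : ℕ → ℂ := fun k => 2 * Real.pi * Complex.I * ((l0 + (k : ℤ) : ℤ) : ℂ) with hnd
  have hfl1 : 2 * Real.pi * (l0 : ℝ) ≤ θ := by
    have h := Int.floor_le (θ / (2 * Real.pi))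
    rw [le_div_iff₀ (by positivity)] at h
    linarith
  have hfl2 : θ < 2 * Real.pi * (l0 : ℝ) + 2 * Real.pi := by
    have h := Int.lt_floor_add_one (θ / (2 * Real.pi))
    rw [div_lt_iff₀ (by positivity)] at h
    linarith
  have hda : ∀ k, k < n → ‖nd k - a‖ ≤ 7 * n := by
    intro k hk
    have hk' : (k : ℝ) + 1 ≤ n := by exact_mod_cast hk
    have h1 : nd k - a = ((2 * Real.pi * ((l0 : ℝ) + k) - θ : ℝ) : ℂ) * Complex.I := by
      simp only [hnd, ha]; push_cast; ring
    rw [h1, norm_mul, Complex.norm_I, mul_one, Complex.norm_real, Real.norm_eq_abs, abs_le]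
    have hk0 : (0 : ℝ) ≤ k := Nat.cast_nonneg k
    constructor
    · nlinarith
    · nlinarith
  have hdd : ∀ k j : ℕ, ‖nd k - nd j‖ = 2 * Real.pi * |(k : ℝ) - j| := by
    intro k j
    have h1 : nd k - nd j = ((2 * Real.pi * ((k : ℝ) - j) : ℝ) : ℂ) * Complex.I := by
      simp only [hnd]; push_cast; ring
    rw [h1, norm_mul, Complex.norm_I, mul_one, Complex.norm_real, Real.norm_eq_abs, abs_mul,
      abs_of_pos (by positivity : (0 : ℝ) < 2 * Real.pi)]
  have hinj : ∀ k j : ℕ, k ≠ j → nd k - nd j ≠ 0 := by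
    intro k j hkj h0
    have h1 := hdd k j
    rw [h0, norm_zero] at h1
    have h2 : |(k : ℝ) - j| = 0 := by
      rcases mul_eq_zero.1 h1.symm with h | h
      · linarith
      · exact h
    rw [abs_eq_zero, sub_eq_zero] at h2
    exact hkj (by exact_mod_cast h2)
  have hmem : ∀ k, k < n → nd k ∈ Metric.ball a R := by
    intro k hk
    rw [Metric.mem_ball, dist_eq_norm]
    have := hda k hk
    nlinarith
  have hfn : ∀ k, k < n → ‖f (nd k)‖ ≤ ε := fun k hk => hfl _ (hmem k hk)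
  set I0 : ℂ → ℂ := fun ζ => ∑ k ∈ Finset.range n, f (nd k) *
    ∏ j ∈ (Finset.range n).erase k, ((ζ - nd j) / (nd k - nd j)) with hI0
  have hI0d : Differentiable ℂ I0 := by
    simp only [hI0]
    refine Differentiable.fun_sum fun k hk => ?_
    refine Differentiable.const_mul ?_ _
    refine Differentiable.fun_finsetProd fun j hj => ?_
    exact (differentiable_id.sub_const _).div_const _
  have hI0n : ∀ k, k < n → I0 (nd k) = f (nd k) := by
    intro k hk
    simp only [hI0]
    rw [Finset.sum_eq_single_of_mem k (Finset.mem_range.2 hk)]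
    · rw [Finset.prod_eq_one, mul_one]
      intro j hj
      exact div_self (hinj k j (Finset.ne_of_mem_erase hj).symm)
    · intro i hi hik
      rw [Finset.prod_eq_zero (i := k), mul_zero]
      · exact Finset.mem_erase.2 ⟨hik.symm, Finset.mem_range.2 hk⟩
      · simp
  have hI0b : ∀ (ζ : ℂ) (D : ℝ), 0 ≤ D → (∀ j, j < n → ‖ζ - nd j‖ ≤ D) →
      ‖I0 ζ‖ ≤ ε * (D ^ (n - 1) / (Real.pi ^ (n - 1) * ((n - 1).factorial : ℝ))) := by
    intro ζ D hD hζ
    simp only [hI0]
    have hk1 : ∀ k ∈ Finset.range n, ‖f (nd k) *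
        ∏ j ∈ (Finset.range n).erase k, ((ζ - nd j) / (nd k - nd j))‖
        ≤ ε * (D ^ (n - 1) / (2 * Real.pi) ^ (n - 1)) *
          ((k.factorial : ℝ) * ((n - 1 - k).factorial : ℝ))⁻¹ := by
      intro k hk
      have hkn := Finset.mem_range.1 hk
      rw [norm_mul, norm_prod]
      have hc : ((Finset.range n).erase k).card = n - 1 := by
        rw [Finset.card_erase_of_mem hk, Finset.card_range]
      have h1 : ∏ j ∈ (Finset.range n).erase k, ‖(ζ - nd j) / (nd k - nd j)‖
          ≤ ∏ j ∈ (Finset.range n).erase k, (D / (2 * Real.pi) * |(k : ℝ) - j|⁻¹) := by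
        refine Finset.prod_le_prod (fun j _ => norm_nonneg _) fun j hj => ?_
        rw [norm_div, hdd k j, ← div_eq_mul_inv, div_div]
        exact div_le_div_of_nonneg_right
          (hζ j (Finset.mem_range.1 (Finset.mem_of_mem_erase hj))) (by positivity)
      have h2 : ∏ j ∈ (Finset.range n).erase k, (D / (2 * Real.pi) * |(k : ℝ) - j|⁻¹)
          = D ^ (n - 1) / (2 * Real.pi) ^ (n - 1) *
            ((k.factorial : ℝ) * ((n - 1 - k).factorial : ℝ))⁻¹ := by
        rw [Finset.prod_mul_distrib, Finset.prod_const, hc, Finset.prod_inv_distrib,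
          prodNode n k hkn, div_pow]
      calc _ ≤ ε * (D ^ (n - 1) / (2 * Real.pi) ^ (n - 1) *
            ((k.factorial : ℝ) * ((n - 1 - k).factorial : ℝ))⁻¹) := by
            rw [← h2]
            exact mul_le_mul (hfn k hkn) h1 (Finset.prod_nonneg fun j _ => norm_nonneg _) hε
        _ = _ := by ring
    refine (norm_sum_le_of_le _ hk1).trans (le_of_eq ?_)
    rw [← Finset.mul_sum, sumNode n hn, mul_pow]
    have a1 : ((2 : ℝ)) ^ (n - 1) ≠ 0 := by positivity
    have a2 : Real.pi ^ (n - 1) ≠ 0 := by positivity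
    have a3 : ((n - 1).factorial : ℝ) ≠ 0 := by exact_mod_cast (n - 1).factorial_ne_zero
    field_simp
  -- the quotient
  set s : Finset ℂ := (Finset.range n).image nd with hs
  have hsinj : Set.InjOn nd (Finset.range n : Set ℕ) := by
    intro k _ j _ hkj
    by_contra hne
    exact hinj k j hne (sub_eq_zero.2 hkj)
  obtain ⟨q, hq, hqe⟩ := divNodes (U := Metric.ball a R) Metric.isOpen_ball s
    (by
      intro z hz
      obtain ⟨k, hk, rfl⟩ := Finset.mem_image.1 hz
      exact hmem k (Finset.mem_range.1 hk))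
    (fun ζ => f ζ - I0 ζ) (hf.sub hI0d.differentiableOn)
    (by
      intro z hz
      obtain ⟨k, hk, rfl⟩ := Finset.mem_image.1 hz
      rw [hI0n k (Finset.mem_range.1 hk), sub_self])
  have hprod : ∀ ζ : ℂ, ∏ z ∈ s, (ζ - z) = ∏ k ∈ Finset.range n, (ζ - nd k) := by
    intro ζ
    rw [hs, Finset.prod_image hsinj]
  set Q0 : ℝ := (M + ε * (R ^ (n - 1) / (Real.pi ^ (n - 1) * ((n - 1).factorial : ℝ)))) *
    (4 / R) ^ n with hQ0
  have hcirc : ∀ ζ ∈ frontier (Metric.ball a (R / 2)), ‖q ζ‖ ≤ Q0 := by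
    intro ζ hζ
    rw [frontier_ball a (by positivity), mem_sphere_iff_norm] at hζ
    have hζR : ζ ∈ Metric.ball a R := by
      rw [Metric.mem_ball, dist_eq_norm, hζ]; linarith
    have hup : ∀ j, j < n → ‖ζ - nd j‖ ≤ R := by
      intro j hj
      have h1 := hda j hj
      have h2 : ζ - nd j = (ζ - a) - (nd j - a) := by ring
      rw [h2]
      refine (norm_sub_le _ _).trans ?_
      rw [hζ]
      linarith
    have hlow : ∀ j, j < n → R / 4 ≤ ‖ζ - nd j‖ := by
      intro j hj
      have h1 := hda j hj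
      have h2 : ζ - nd j = (ζ - a) - (nd j - a) := by ring
      rw [h2]
      refine le_trans ?_ (norm_sub_norm_le _ _)
      rw [hζ]
      linarith
    have hP : (R / 4) ^ n ≤ ‖∏ k ∈ Finset.range n, (ζ - nd k)‖ := by
      rw [norm_prod]
      calc (R / 4) ^ n = ∏ _k ∈ Finset.range n, (R / 4) := by
            rw [Finset.prod_const, Finset.card_range]
        _ ≤ _ := Finset.prod_le_prod (fun _ _ => by positivity)
            fun j hj => hlow j (Finset.mem_range.1 hj)
    have h1 : ‖(∏ k ∈ Finset.range n, (ζ - nd k)) * q ζ‖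
        ≤ M + ε * (R ^ (n - 1) / (Real.pi ^ (n - 1) * ((n - 1).factorial : ℝ))) := by
      rw [← hprod, ← hqe ζ]
      exact (norm_sub_le _ _).trans (add_le_add (hfM ζ hζR) (hI0b ζ R hR0.le hup))
    rw [norm_mul] at h1
    have h2 : (R / 4) ^ n * ‖q ζ‖
        ≤ M + ε * (R ^ (n - 1) / (Real.pi ^ (n - 1) * ((n - 1).factorial : ℝ))) :=
      (mul_le_mul_of_nonneg_right hP (norm_nonneg _)).trans h1
    have h3 : (4 / R) ^ n * (R / 4) ^ n = 1 := by
      rw [← mul_pow]
      have : 4 / R * (R / 4) = 1 := by field_simp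
      rw [this, one_pow]
    calc ‖q ζ‖ = (4 / R) ^ n * ((R / 4) ^ n * ‖q ζ‖) := by rw [← mul_assoc, h3, one_mul]
      _ ≤ (4 / R) ^ n * (M + ε * (R ^ (n - 1) / (Real.pi ^ (n - 1) *
          ((n - 1).factorial : ℝ)))) := mul_le_mul_of_nonneg_left h2 (by positivity)
      _ = Q0 := by rw [hQ0]; ring
  rw [Metric.mem_ball, dist_eq_norm] at hy
  have hyR : y ∈ closure (Metric.ball a (R / 2)) := by
    apply subset_closure
    rw [Metric.mem_ball, dist_eq_norm]
    linarith
  have hcl : closure (Metric.ball a (R / 2)) ⊆ Metric.ball a R := by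
    rw [closure_ball a (by positivity)]
    exact Metric.closedBall_subset_ball (by linarith)
  have hqy : ‖q y‖ ≤ Q0 :=
    Complex.norm_le_of_forall_mem_frontier_norm_le Metric.isBounded_ball
      (hq.mono hcl).diffContOnCl hcirc hyR
  have hyn : ∀ j, j < n → ‖y - nd j‖ ≤ 8 * n := by
    intro j hj
    have h1 := hda j hj
    have h2 : y - nd j = (y - a) - (nd j - a) := by ring
    rw [h2]
    refine (norm_sub_le _ _).trans ?_
    linarith
  have hPy : ‖∏ k ∈ Finset.range n, (y - nd k)‖ ≤ (8 * n) ^ n := by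
    rw [norm_prod]
    calc _ ≤ ∏ _k ∈ Finset.range n, (8 * (n : ℝ)) :=
          Finset.prod_le_prod (fun _ _ => norm_nonneg _) fun j hj => hyn j (Finset.mem_range.1 hj)
      _ = _ := by rw [Finset.prod_const, Finset.card_range]
  have hfy : f y = I0 y + (∏ k ∈ Finset.range n, (y - nd k)) * q y := by
    have := hqe y
    rw [hprod] at this
    rw [← this]; ring
  have hIy := hI0b y (8 * n) (by positivity) hyn
  have hE := expo_le n
  have hfac : (0 : ℝ) < ((n - 1).factorial : ℝ) := by exact_mod_cast (n - 1).factorial_pos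
  have hpw : (0 : ℝ) < Real.pi ^ (n - 1) := by positivity
  have hIy2 : ‖I0 y‖ ≤ ε * 9 ^ n := by
    refine hIy.trans (mul_le_mul_of_nonneg_left ?_ hε)
    have h1 : (8 * (n : ℝ)) ^ (n - 1) / (Real.pi ^ (n - 1) * ((n - 1).factorial : ℝ))
        = (8 / Real.pi) ^ (n - 1) * ((n : ℝ) ^ (n - 1) / ((n - 1).factorial : ℝ)) := by
      rw [mul_pow, div_pow]; field_simp
    rw [h1]
    have h2 : (8 / Real.pi) ^ (n - 1) ≤ (3 : ℝ) ^ n := by
      calc (8 / Real.pi) ^ (n - 1) ≤ (3 : ℝ) ^ (n - 1) := by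
            refine pow_le_pow_left₀ (by positivity) ?_ _
            rw [div_le_iff₀ hpi0]; linarith
        _ ≤ 3 ^ n := pow_le_pow_right₀ (by norm_num) (Nat.sub_le n 1)
    calc _ ≤ (3 : ℝ) ^ n * 3 ^ n := mul_le_mul h2 hE (by positivity) (by positivity)
      _ = 9 ^ n := by rw [← mul_pow]; norm_num
  have hqy2 : (8 * (n : ℝ)) ^ n * Q0 ≤ M * (32 * n / R) ^ n + ε * 33 ^ n := by
    have e1 : (8 * (n : ℝ)) ^ n * Q0 = M * (32 * n / R) ^ n +
        ε * ((8 * (n : ℝ)) ^ n * (R ^ (n - 1) / (Real.pi ^ (n - 1) *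
          ((n - 1).factorial : ℝ))) * (4 / R) ^ n) := by
      rw [hQ0]
      have : (32 * (n : ℝ) / R) ^ n = (8 * (n : ℝ)) ^ n * (4 / R) ^ n := by
        rw [← mul_pow]; congr 1; ring
      rw [this]; ring
    rw [e1]
    refine add_le_add le_rfl (mul_le_mul_of_nonneg_left ?_ hε)
    obtain ⟨m, hm⟩ : ∃ m, n = m + 1 := ⟨n - 1, by omega⟩
    have hm1 : n - 1 = m := by omega
    rw [hm1] at hE hfac hpw ⊢
    have e2 : (8 * (n : ℝ)) ^ n * (R ^ m / (Real.pi ^ m * (m.factorial : ℝ))) * (4 / R) ^ n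
        = (32 / Real.pi) ^ m * ((n : ℝ) ^ m / (m.factorial : ℝ)) * (32 * (n : ℝ) / R) := by
      have h1 : (8 * (n : ℝ)) ^ n = (8 * (n : ℝ)) ^ m * (8 * n) := by
        conv_lhs => rw [show (8 * (n : ℝ)) ^ n = (8 * (n : ℝ)) ^ (m + 1) by rw [← hm]]
        rw [pow_succ]
      have h2 : (4 / R) ^ n = (4 / R) ^ m * (4 / R) := by
        rw [show (4 / R) ^ n = (4 / R) ^ (m + 1) by rw [← hm], pow_succ]
      rw [h1, h2, mul_pow, div_pow, div_pow]
      have hR1 : R ^ m ≠ 0 := by positivity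
      have : (32 : ℝ) ^ m = 8 ^ m * 4 ^ m := by rw [← mul_pow]; norm_num
      rw [this]
      field_simp
      ring
    rw [e2]
    have h1 : (32 / Real.pi) ^ m ≤ (11 : ℝ) ^ n := by
      calc (32 / Real.pi) ^ m ≤ (11 : ℝ) ^ m := by
            refine pow_le_pow_left₀ (by positivity) ?_ _
            rw [div_le_iff₀ hpi0]; linarith
        _ ≤ 11 ^ n := pow_le_pow_right₀ (by norm_num) (by omega)
    have h2 : 32 * (n : ℝ) / R ≤ 1 := by
      rw [div_le_one hR0]; linarith
    calc _ ≤ (11 : ℝ) ^ n * 3 ^ n * 1 :=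
          mul_le_mul (mul_le_mul h1 hE (by positivity) (by positivity)) h2 (by positivity)
            (by positivity)
      _ = 33 ^ n := by rw [mul_one, ← mul_pow]; norm_num
  have hfin : ‖f y‖ ≤ ε * 9 ^ n + (M * (32 * n / R) ^ n + ε * 33 ^ n) := by
    rw [hfy]
    refine (norm_add_le _ _).trans (add_le_add hIy2 ?_)
    rw [norm_mul]
    exact (mul_le_mul hPy hqy (norm_nonneg _) (by positivity)).trans hqy2
  refine hfin.trans ?_
  have p1 : (9 : ℝ) ^ n + 33 ^ n ≤ 100 ^ n := by
    have h42 : (9 : ℝ) ^ n ≤ 33 ^ n := pow_le_pow_left₀ (by norm_num) (by norm_num) n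
    have h2n : (2 : ℝ) ≤ 2 ^ n := by
      calc (2 : ℝ) = 2 ^ 1 := by norm_num
        _ ≤ 2 ^ n := pow_le_pow_right₀ (by norm_num) hn
    calc (9 : ℝ) ^ n + 33 ^ n ≤ 2 * 33 ^ n := by linarith
      _ ≤ 2 ^ n * 33 ^ n := mul_le_mul_of_nonneg_right h2n (by positivity)
      _ = 66 ^ n := by rw [← mul_pow]; norm_num
      _ ≤ 100 ^ n := pow_le_pow_left₀ (by norm_num) (by norm_num) n
  have p2 : (32 * (n : ℝ) / R) ^ n ≤ (100 * n / R) ^ n := by
    refine pow_le_pow_left₀ (by positivity) ?_ n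
    gcongr
    norm_num
  calc ε * 9 ^ n + (M * (32 * n / R) ^ n + ε * 33 ^ n)
      = (9 ^ n + 33 ^ n) * ε + M * (32 * n / R) ^ n := by ring
    _ ≤ 100 ^ n * ε + M * (100 * n / R) ^ n :=
      add_le_add (mul_le_mul_of_nonneg_right p1 hε) (mul_le_mul_of_nonneg_left p2 hM)

/-- coordinate after coordinate -/
private theorem fl_ind {m : ℕ} {K : ℝ} (hK : 1 ≤ K)
    (hK' : ∀ (n : ℕ) (R M ε θ : ℝ), 1 ≤ n → 100 * n ≤ R → 0 ≤ M → 0 ≤ ε →
      ∀ f : ℂ → ℂ, DifferentiableOn ℂ f (Metric.ball (Complex.I * θ) R) →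
      (∀ y ∈ Metric.ball (Complex.I * θ) R, ‖f y‖ ≤ M) →
      (∀ l : ℤ, 2 * Real.pi * Complex.I * l ∈ Metric.ball (Complex.I * (θ : ℂ)) R →
        ‖f (2 * Real.pi * Complex.I * l)‖ ≤ ε) →
      ∀ y ∈ Metric.ball (Complex.I * (θ : ℂ)) n, ‖f y‖ ≤ K ^ n * ε + M * (K * n / R) ^ n)
    {n : ℕ} {R M : ℝ} (hn : 1 ≤ n) (hnR : 100 * n ≤ R) (hM : 0 ≤ M) (α : Fin m → ℝ)
    (f : (Fin m → ℂ) → ℂ)
    (hf : DifferentiableOn ℂ f (Metric.ball (fun j => Complex.I * (α j : ℂ)) R))
    (hfM : ∀ y ∈ Metric.ball (fun j => Complex.I * (α j : ℂ)) R, ‖f y‖ ≤ M)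
    (hf0 : ∀ l : Fin m → ℤ, (fun j => 2 * Real.pi * Complex.I * l j) ∈
      Metric.ball (fun j => Complex.I * (α j : ℂ)) R →
      f (fun j => 2 * Real.pi * Complex.I * l j) = 0) (s : Finset (Fin m)) :
    ∀ y ∈ Metric.ball (fun j => Complex.I * (α j : ℂ)) R,
      (∀ j ∈ s, y j ∈ Metric.ball (Complex.I * (α j : ℂ)) n) →
      (∀ j, j ∉ s → ∃ l : ℤ, y j = 2 * Real.pi * Complex.I * l) →
      ‖f y‖ ≤ s.card * M * (K ^ s.card * n / R) ^ n := by
  have hn0 : (1 : ℝ) ≤ n := by exact_mod_cast hn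
  have hR : 0 < R := by linarith
  have hmem : ∀ y : Fin m → ℂ, y ∈ Metric.ball (fun j => Complex.I * (α j : ℂ)) R ↔
      ∀ j, y j ∈ Metric.ball (Complex.I * (α j : ℂ)) R := by
    intro y
    rw [Metric.mem_ball, dist_pi_lt_iff hR]
    rfl
  induction s using Finset.induction_on with
  | empty =>
    intro y hy _ h2
    choose l hl using fun j => h2 j (Finset.notMem_empty j)
    have h3 : y = fun j => 2 * Real.pi * Complex.I * l j := funext hl
    rw [h3] at hy ⊢
    rw [hf0 l hy]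
    simp
  | insert j₀ s hj₀ ih =>
    intro y hy h1 h2
    set g : ℂ → ℂ := fun z => f (Function.update y j₀ z) with hg
    have hupd : ∀ z ∈ Metric.ball (Complex.I * (α j₀ : ℂ)) R,
        Function.update y j₀ z ∈ Metric.ball (fun j => Complex.I * (α j : ℂ)) R := by
      intro z hz
      rw [hmem]
      intro j
      by_cases hj : j = j₀
      · subst hj
        rw [Function.update_self]
        exact hz
      · rw [Function.update_of_ne hj]
        exact (hmem y).1 hy j
    have hgd : DifferentiableOn ℂ g (Metric.ball (Complex.I * (α j₀ : ℂ)) R) := by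
      intro z hz
      have a1 : DifferentiableAt ℂ f (Function.update y j₀ z) :=
        hf.differentiableAt (Metric.isOpen_ball.mem_nhds (hupd z hz))
      have a2 : DifferentiableAt ℂ (fun z : ℂ => Function.update y j₀ z) z := by
        rw [differentiableAt_pi]
        intro j
        by_cases hj : j = j₀
        · subst hj
          simp only [Function.update_self]
          exact differentiableAt_id
        · simp only [Function.update_of_ne hj]
          exact differentiableAt_const _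
      exact (DifferentiableAt.comp z a1 a2).differentiableWithinAt
    have hε : 0 ≤ (s.card : ℝ) * M * (K ^ s.card * n / R) ^ n := by positivity
    have h3 := hK' n R M ((s.card : ℝ) * M * (K ^ s.card * n / R) ^ n) (α j₀) hn hnR hM hε g hgd
      (fun z hz => hfM _ (hupd z hz)) (fun l hl => by
        refine ih _ (hupd _ hl) ?_ ?_
        · intro j hj
          have hne : j ≠ j₀ := fun h => hj₀ (h ▸ hj)
          rw [Function.update_of_ne hne]
          exact h1 j (Finset.mem_insert_of_mem hj)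
        · intro j hj
          by_cases hne : j = j₀
          · subst hne
            exact ⟨l, by rw [Function.update_self]⟩
          · rw [Function.update_of_ne hne]
            exact h2 j fun h => (Finset.mem_insert.1 h).elim hne hj)
      (y j₀) (h1 j₀ (Finset.mem_insert_self _ _))
    have h4 : g (y j₀) = f y := by
      rw [hg]
      simp only
      rw [Function.update_eq_self]
    rw [h4] at h3
    refine h3.trans ?_
    rw [Finset.card_insert_of_notMem hj₀]
    push_cast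
    have h5 : K ^ n * ((s.card : ℝ) * M * (K ^ s.card * n / R) ^ n) =
        (s.card : ℝ) * M * (K ^ (s.card + 1) * n / R) ^ n := by
      have : (K ^ (s.card + 1) * n / R) ^ n = K ^ n * (K ^ s.card * n / R) ^ n := by
        rw [← mul_pow]
        congr 1
        ring
      rw [this]
      ring
    have h6 : (K * n / R) ^ n ≤ (K ^ (s.card + 1) * n / R) ^ n := by
      have h7 : K ≤ K ^ (s.card + 1) := by
        calc K = K ^ 1 := (pow_one K).symm
          _ ≤ _ := pow_le_pow_right₀ hK (by omega)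
      gcongr
    rw [h5]
    have h8 := mul_le_mul_of_nonneg_left h6 hM
    calc _ ≤ (s.card : ℝ) * M * (K ^ (s.card + 1) * n / R) ^ n +
          M * (K ^ (s.card + 1) * n / R) ^ n := by linarith
      _ = _ := by ring

theorem flat (m : ℕ) : ∃ c R₀ : ℝ, 0 < c ∧ c ≤ 1 ∧ ∀ R M : ℝ, R₀ ≤ R → ∀ (α : Fin m → ℝ)
    (f : (Fin m → ℂ) → ℂ),
    DifferentiableOn ℂ f (Metric.ball (fun j => Complex.I * (α j : ℂ)) R) →
    (∀ y ∈ Metric.ball (fun j => Complex.I * (α j : ℂ)) R, ‖f y‖ ≤ M) →
    (∀ l : Fin m → ℤ, (fun j => 2 * Real.pi * Complex.I * l j) ∈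
      Metric.ball (fun j => Complex.I * (α j : ℂ)) R →
      f (fun j => 2 * Real.pi * Complex.I * l j) = 0) →
    ∀ y ∈ Metric.ball (fun j => Complex.I * (α j : ℂ)) (c * R), ‖f y‖ ≤ M * Real.exp (-c * R) := by
  obtain ⟨K, hK, hK'⟩ := interp1
  have hKm : 0 < K ^ m := by positivity
  have hKm1 : 1 ≤ K ^ m := one_le_pow₀ hK
  set δ : ℝ := Real.exp (-2) / (100 * K ^ m) with hδ
  have he2 : Real.exp (-2) ≤ 1 := Real.exp_le_one_iff.2 (by norm_num)
  have hδ0 : 0 < δ := by positivity
  have hδ1 : δ ≤ 1 / 100 := by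
    rw [hδ, div_le_div_iff₀ (by positivity) (by norm_num)]
    nlinarith
  have hKδ : K ^ m * δ ≤ Real.exp (-2) := by
    have : K ^ m * δ = Real.exp (-2) / 100 := by
      rw [hδ]
      field_simp
    rw [this]
    have := Real.exp_pos (-2)
    linarith
  refine ⟨δ / 2, 2 * (m + 1) / δ, by positivity, by linarith, ?_⟩
  intro R M hR α f hf hfM hf0 y hy
  have hδR : 2 * ((m : ℝ) + 1) ≤ δ * R := by
    rw [div_le_iff₀ hδ0] at hR
    linarith
  have hm0 : (0 : ℝ) ≤ m := Nat.cast_nonneg m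
  have hδR2 : 2 ≤ δ * R := by linarith
  have hR0 : 0 < R := by
    by_contra hcon
    push Not at hcon
    nlinarith
  have hM : 0 ≤ M := (norm_nonneg _).trans (hfM _ (Metric.mem_ball_self hR0))
  set n : ℕ := ⌊δ * R⌋₊ with hn
  have hn1 : (n : ℝ) ≤ δ * R := Nat.floor_le (by positivity)
  have hn2 : δ * R - 1 < n := by
    have := Nat.lt_floor_add_one (δ * R)
    linarith
  have hn3 : 1 ≤ n := by
    have : (1 : ℝ) < n + 1 := by linarith
    have h2 : (0 : ℝ) < n := by linarith
    exact_mod_cast h2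
  have hnR : 100 * (n : ℝ) ≤ R := by nlinarith
  have hn4 : δ * R / 2 ≤ n := by linarith
  have hcR : δ / 2 * R ≤ R := by nlinarith
  have h1 := fl_ind hK hK' hn3 hnR hM α f hf hfM hf0 Finset.univ y
    (Metric.ball_subset_ball hcR hy) (fun j _ => by
      have h2 := (dist_pi_lt_iff (by positivity)).1 (Metric.mem_ball.1 hy) j
      rw [Metric.mem_ball]
      refine lt_of_lt_of_le h2 ?_
      linarith) (fun j hj => absurd (Finset.mem_univ j) hj)
  rw [Finset.card_univ, Fintype.card_fin] at h1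
  refine h1.trans ?_
  have h2 : (K ^ m * n / R) ^ n ≤ Real.exp (-2) ^ n := by
    refine pow_le_pow_left₀ (by positivity) ?_ n
    rw [div_le_iff₀ hR0]
    calc K ^ m * (n : ℝ) ≤ K ^ m * (δ * R) := mul_le_mul_of_nonneg_left hn1 hKm.le
      _ = K ^ m * δ * R := by ring
      _ ≤ Real.exp (-2) * R := mul_le_mul_of_nonneg_right hKδ hR0.le
  have h3 : Real.exp (-2) ^ n ≤ Real.exp (-(δ * R)) := by
    rw [← Real.exp_nat_mul]
    exact Real.exp_le_exp.2 (by linarith)
  have h4 : (m : ℝ) ≤ Real.exp (δ / 2 * R) := by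
    have := Real.add_one_le_exp (δ / 2 * R)
    linarith
  have h5 : Real.exp (δ / 2 * R) * Real.exp (-(δ * R)) = Real.exp (-(δ / 2) * R) := by
    rw [← Real.exp_add]
    congr 1
    ring
  calc (m : ℝ) * M * (K ^ m * n / R) ^ n ≤ (m : ℝ) * M * Real.exp (-(δ * R)) :=
        mul_le_mul_of_nonneg_left (h2.trans h3) (by positivity)
    _ = M * ((m : ℝ) * Real.exp (-(δ * R))) := by ring
    _ ≤ M * (Real.exp (δ / 2 * R) * Real.exp (-(δ * R))) :=
        mul_le_mul_of_nonneg_left (mul_le_mul_of_nonneg_right h4 (Real.exp_pos _).le) hM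
    _ = _ := by rw [h5]

end Pool.Agent.EXQ
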