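import Pool.Agent.EXQ.Defs
import Pool.Agent.EXM.Sh

/-!
# EXQ / KapFar: roots are not too near to `κ`

PROOF.  `k(x) = F(κ, x)`; its leading form does not vanish at `α`, so `|k(x)| ≥ c > 0` on `ball (i T α) (η T)` for large `T`
(`|k(T y)| ≥ T^deg (|k_top(y)| - O(1/T))`, `y` near `i α`; compare `Sh18.top_inf`, `Sh18.delta_inf`). If `F(X, x) = 0`, `|X - κ| ≤ 1`, then
`c ≤ |F(κ, x) - F(X, x)| ≤ C T^d |X - κ|`.
-/

set_option autoImplicit false

namespace Pool.Agent.EXQ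

open MvPolynomial Filter Topology Pool.Agent.EXP Pool.Agent.EXM

private theorem comp_bd {n : ℕ} (F : MvPolynomial (Fin n) ℂ) (B : ℝ) :
    ∃ C : ℕ → ℝ, (∀ k, 0 ≤ C k) ∧ ∀ k, ∀ y : Fin n → ℂ, ‖y‖ ≤ B →
      ‖eval y (homogeneousComponent k F)‖ ≤ C k := by
  have hbd : ∀ k : ℕ, ∃ C : ℝ, 0 ≤ C ∧ ∀ y : Fin n → ℂ, ‖y‖ ≤ B →
      ‖eval y (homogeneousComponent k F)‖ ≤ C := by
    intro k
    have h1 : IsCompact (Metric.closedBall (0 : Fin n → ℂ) B) := isCompact_closedBall _ _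
    have h2 : ContinuousOn (fun y : Fin n → ℂ => eval y (homogeneousComponent k F))
        (Metric.closedBall 0 B) := (MvPolynomial.continuous_eval _).continuousOn
    obtain ⟨C, hC⟩ := h1.exists_bound_of_continuousOn h2
    refine ⟨max C 0, le_max_right _ _, fun y hy => (hC y (by simpa using hy)).trans (le_max_left _ _)⟩
  choose C hC0 hC using hbd
  exact ⟨C, hC0, hC⟩

private theorem expand {n : ℕ} (F : MvPolynomial (Fin n) ℂ) (T : ℂ) (y : Fin n → ℂ) :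
    eval (fun i => T * y i) F =
      ∑ k ∈ Finset.range (F.totalDegree + 1), T ^ k * eval y (homogeneousComponent k F) := by
  conv_lhs => rw [← sum_homogeneousComponent F]
  rw [map_sum]
  refine Finset.sum_congr rfl fun k _ => ?_
  exact Sh18.eval_smul_hom (homogeneousComponent_isHomogeneous k F) _ _

private theorem top_diff {n : ℕ} (F : MvPolynomial (Fin n) ℂ) (B : ℝ) (δ : ℝ) (hδ : 0 < δ) :
    ∀ᶠ T : ℝ in atTop, ∀ y : Fin n → ℂ, ‖y‖ ≤ B →
      ‖eval (fun i => (T : ℂ) * y i) F -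
        (T : ℂ) ^ F.totalDegree * eval y (homogeneousComponent F.totalDegree F)‖ ≤
        T ^ F.totalDegree * δ := by
  set D := F.totalDegree with hD
  obtain ⟨C, hC0, hC⟩ := comp_bd F B
  set S := ∑ k ∈ Finset.range D, C k with hS
  have hS0 : 0 ≤ S := Finset.sum_nonneg fun k _ => hC0 k
  filter_upwards [eventually_ge_atTop (1 : ℝ), eventually_ge_atTop (S / δ)] with T hT1 hT2 y hy
  have hT0 : (0 : ℝ) < T := by linarith
  rw [expand, ← hD, Finset.sum_range_succ, add_sub_cancel_right]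
  have h3 : ‖∑ k ∈ Finset.range D, (T : ℂ) ^ k * eval y (homogeneousComponent k F)‖ ≤
      T ^ D * (S / T) := by
    refine (norm_sum_le _ _).trans ?_
    rw [hS, Finset.sum_div, Finset.mul_sum]
    refine Finset.sum_le_sum fun k hk => ?_
    rw [norm_mul, norm_pow, Complex.norm_real, Real.norm_of_nonneg hT0.le]
    have h5 : T ^ k * T ≤ T ^ D := by
      rw [← pow_succ]
      exact pow_le_pow_right₀ hT1 (Finset.mem_range.1 hk)
    calc T ^ k * ‖eval y (homogeneousComponent k F)‖ ≤ T ^ k * C k :=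
          mul_le_mul_of_nonneg_left (hC k y hy) (by positivity)
      _ = (T ^ k * T) * (C k / T) := by field_simp
      _ ≤ T ^ D * (C k / T) := mul_le_mul_of_nonneg_right h5 (div_nonneg (hC0 k) hT0.le)
  refine h3.trans (mul_le_mul_of_nonneg_left ?_ (by positivity))
  rw [div_le_iff₀ hT0]
  rw [div_le_iff₀ hδ] at hT2
  linarith

private theorem upper {n : ℕ} (F : MvPolynomial (Fin n) ℂ) (B : ℝ) :
    ∃ (S : ℝ) (d : ℕ), 0 ≤ S ∧ ∀ T : ℝ, 1 ≤ T → ∀ z : Fin n → ℂ, ‖z‖ ≤ B * T →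
      ‖eval z F‖ ≤ S * T ^ d := by
  obtain ⟨C, hC0, hC⟩ := comp_bd F B
  refine ⟨∑ k ∈ Finset.range (F.totalDegree + 1), C k, F.totalDegree,
    Finset.sum_nonneg fun k _ => hC0 k, fun T hT z hz => ?_⟩
  have hT0 : (0 : ℝ) < T := by linarith
  have hTC : (T : ℂ) ≠ 0 := by exact_mod_cast hT0.ne'
  set y : Fin n → ℂ := (T : ℂ)⁻¹ • z with hy
  have hzy : z = fun i => (T : ℂ) * y i := by
    funext i
    simp only [hy, Pi.smul_apply, smul_eq_mul]
    field_simp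
  have hyB : ‖y‖ ≤ B := by
    rw [hy, norm_smul, norm_inv, Complex.norm_real, Real.norm_of_nonneg hT0.le,
      inv_mul_le_iff₀ hT0]
    linarith
  rw [hzy, expand, Finset.sum_mul]
  refine (norm_sum_le _ _).trans (Finset.sum_le_sum fun k hk => ?_)
  rw [norm_mul, norm_pow, Complex.norm_real, Real.norm_of_nonneg hT0.le, mul_comm]
  exact mul_le_mul (hC k y hyB) (pow_le_pow_right₀ hT (Nat.lt_succ_iff.1 (Finset.mem_range.1 hk)))
    (by positivity) (hC0 k)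

private theorem low {m : ℕ} (k : MvPolynomial (Fin m) ℂ) (α : Fin m → ℝ)
    (hkα : eval (fun j => (α j : ℂ)) (homogeneousComponent k.totalDegree k) ≠ 0) :
    ∃ (η c : ℝ), 0 < η ∧ 0 < c ∧ ∀ᶠ T : ℝ in atTop, ∀ x ∈ Metric.ball (ipt T α) (η * T),
      c ≤ ‖eval x k‖ := by
  set L := homogeneousComponent k.totalDegree k with hL
  have h1 : eval (ipt 1 α) L ≠ 0 := by
    have h2 : ipt 1 α = fun j => Complex.I * (α j : ℂ) := by
      funext j
      simp [ipt]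
    rw [h2, Sh18.eval_smul_hom (homogeneousComponent_isHomogeneous _ _)]
    exact mul_ne_zero (pow_ne_zero _ Complex.I_ne_zero) hkα
  have hpos := norm_pos_iff.2 h1
  have h2 : ∀ᶠ y in 𝓝 (ipt 1 α), ‖eval (ipt 1 α) L‖ / 2 < ‖eval y L‖ := by
    have h3 : ContinuousAt (fun y : Fin m → ℂ => ‖eval y L‖) (ipt 1 α) :=
      (MvPolynomial.continuous_eval _).norm.continuousAt
    exact h3.eventually_const_lt (by linarith)
  obtain ⟨η, hη, hb⟩ := Metric.eventually_nhds_iff_ball.1 h2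
  refine ⟨η, ‖eval (ipt 1 α) L‖ / 4, hη, by linarith, ?_⟩
  have h3 := top_diff k (‖ipt 1 α‖ + η) (‖eval (ipt 1 α) L‖ / 4) (by linarith)
  filter_upwards [h3, eventually_ge_atTop (1 : ℝ)] with T hT hT1 x hx
  have hT0 : (0 : ℝ) < T := by linarith
  have hTC : (T : ℂ) ≠ 0 := by exact_mod_cast hT0.ne'
  set y : Fin m → ℂ := (T : ℂ)⁻¹ • x with hy
  have hxy : x = fun i => (T : ℂ) * y i := by
    funext i
    simp only [hy, Pi.smul_apply, smul_eq_mul]
    field_simp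
  have hyb : y ∈ Metric.ball (ipt 1 α) η := by
    rw [Metric.mem_ball, dist_eq_norm] at hx ⊢
    have h4 : y - ipt 1 α = (T : ℂ)⁻¹ • (x - ipt T α) := by
      rw [Sh18.ipt_smul T α, smul_sub, smul_smul, inv_mul_cancel₀ hTC, one_smul]
    rw [h4, norm_smul, norm_inv, Complex.norm_real, Real.norm_of_nonneg hT0.le]
    rw [inv_mul_lt_iff₀ hT0]
    linarith
  have h5 := hT y (by
    have h6 : ‖y - ipt 1 α‖ < η := by rwa [Metric.mem_ball, dist_eq_norm] at hyb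
    have h7 := norm_sub_norm_le y (ipt 1 α)
    linarith)
  rw [← hxy] at h5
  have h6 := hb y hyb
  have h7 : ‖(T : ℂ) ^ k.totalDegree * eval y L‖ = T ^ k.totalDegree * ‖eval y L‖ := by
    rw [norm_mul, norm_pow, Complex.norm_real, Real.norm_of_nonneg hT0.le]
  have h8 := norm_sub_norm_le ((T : ℂ) ^ k.totalDegree * eval y L) (eval x k)
  rw [norm_sub_rev, h7] at h8
  have h9 : (1 : ℝ) ≤ T ^ k.totalDegree := one_le_pow₀ hT1
  have h10 : T ^ k.totalDegree * (‖eval (ipt 1 α) L‖ / 4) ≤ ‖eval x k‖ := by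
    have h11 : T ^ k.totalDegree * (‖eval (ipt 1 α) L‖ / 2) ≤ T ^ k.totalDegree * ‖eval y L‖ :=
      mul_le_mul_of_nonneg_left h6.le (by positivity)
    have h12 := h8.trans h5
    nlinarith
  nlinarith

theorem kap_far {m : ℕ} (F : MvPolynomial (Fin (m + 1)) ℂ) (κ : ℂ) (α : Fin m → ℝ)
    (k : MvPolynomial (Fin m) ℂ) (hk : k = Polynomial.eval (C κ) (finSuccEquiv ℂ m F))
    (hkα : eval (fun j => (α j : ℂ)) (homogeneousComponent k.totalDegree k) ≠ 0) :
    ∃ (η : ℝ) (C : ℕ), 0 < η ∧ ∀ᶠ T : ℝ in atTop, ∀ x ∈ Metric.ball (ipt T α) (η * T), ∀ X : ℂ,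
      ‖X - κ‖ ≤ 1 → eval (Fin.cons X x : Fin (m + 1) → ℂ) F = 0 → 1 ≤ T ^ C * ‖X - κ‖ := by
  obtain ⟨η, c, hη, hc, hlow⟩ := low k α hkα
  obtain ⟨q, hq⟩ := Polynomial.X_sub_C_dvd_sub_C_eval (p := finSuccEquiv ℂ m F) (a := (C κ))
  obtain ⟨G, hG⟩ : ∃ G : MvPolynomial (Fin (m + 1)) ℂ, finSuccEquiv ℂ m G = q :=
    ⟨(finSuccEquiv ℂ m).symm q, AlgEquiv.apply_symm_apply _ _⟩
  have hdiff : ∀ (x : Fin m → ℂ) (X : ℂ), eval (Fin.cons X x : Fin (m + 1) → ℂ) F =
      eval x k + (X - κ) * eval (Fin.cons X x : Fin (m + 1) → ℂ) G := by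
    intro x X
    have h1 : finSuccEquiv ℂ m F = Polynomial.C k + (Polynomial.X - Polynomial.C (C κ)) * q := by
      rw [← hq, hk]
      ring
    rw [eval_eq_eval_mv_eval', eval_eq_eval_mv_eval', hG, h1]
    simp
  obtain ⟨S, d, hS, hup⟩ := upper G (max (‖κ‖ + 1) (‖ipt 1 α‖ + η))
  refine ⟨η, d + 1, hη, ?_⟩
  filter_upwards [hlow, eventually_ge_atTop (1 : ℝ), eventually_ge_atTop (S / c)] with T hT hT1 hT2 x hx X
    hX h0
  have hT0 : (0 : ℝ) < T := by linarith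
  have h1 := hT x hx
  have h2 := hdiff x X
  rw [h0] at h2
  have h3 : ‖eval x k‖ = ‖X - κ‖ * ‖eval (Fin.cons X x : Fin (m + 1) → ℂ) G‖ := by
    rw [← norm_mul]
    have : eval x k = -((X - κ) * eval (Fin.cons X x : Fin (m + 1) → ℂ) G) := by
      linear_combination -h2
    rw [this, norm_neg]
  have h4 : ‖(Fin.cons X x : Fin (m + 1) → ℂ)‖ ≤ max (‖κ‖ + 1) (‖ipt 1 α‖ + η) * T := by
    rw [pi_norm_le_iff_of_nonneg (by positivity)]
    intro i
    refine Fin.cases ?_ (fun j => ?_) i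
    · rw [Fin.cons_zero]
      have h5 : ‖X‖ ≤ ‖κ‖ + 1 := by
        have := norm_sub_norm_le X κ
        linarith
      have h6 : ‖κ‖ + 1 ≤ max (‖κ‖ + 1) (‖ipt 1 α‖ + η) := le_max_left _ _
      have h7 : 0 ≤ ‖κ‖ := norm_nonneg _
      nlinarith
    · rw [Fin.cons_succ]
      refine (norm_le_pi_norm x j).trans ?_
      have h5 : ‖x - ipt T α‖ < η * T := by rwa [Metric.mem_ball, dist_eq_norm] at hx
      have h6 := norm_sub_norm_le x (ipt T α)
      have h7 : ‖ipt T α‖ = T * ‖ipt 1 α‖ := by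
        rw [Sh18.ipt_smul T α, norm_smul, Complex.norm_real, Real.norm_of_nonneg hT0.le]
      have h8 : ‖ipt 1 α‖ + η ≤ max (‖κ‖ + 1) (‖ipt 1 α‖ + η) := le_max_right _ _
      nlinarith
  have h5 := hup T hT1 _ h4
  have h6 : c ≤ ‖X - κ‖ * (S * T ^ d) := by
    refine h1.trans (h3.le.trans (mul_le_mul_of_nonneg_left h5 (norm_nonneg _)))
  rw [div_le_iff₀ hc] at hT2
  have h7 : S * T ^ d ≤ T * c * T ^ d := mul_le_mul_of_nonneg_right hT2 (by positivity)
  have h8 : c * 1 ≤ c * (T ^ (d + 1) * ‖X - κ‖) := by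
    calc c * 1 = c := mul_one c
      _ ≤ ‖X - κ‖ * (S * T ^ d) := h6
      _ ≤ ‖X - κ‖ * (T * c * T ^ d) := mul_le_mul_of_nonneg_left h7 (norm_nonneg _)
      _ = c * (T ^ (d + 1) * ‖X - κ‖) := by ring
  exact le_of_mul_le_mul_left h8 hc

end Pool.Agent.EXQ
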