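import Pool.Agent.EXQ.Defs
import Pool.Agent.EXP.Elim
import Pool.Agent.EXQ.LowerAlg

/-!
# EXQ / Lower: polynomial lower bound for `N(exp X, i T α)` along a root `X` near `κ`
-/

set_option autoImplicit false

namespace Pool.Agent.EXQ

open MvPolynomial Filter Topology Pool.Agent.EXP Pool.Agent.EXM

/-- the substitution `x' = i T α` -/
private noncomputable def sub2 {m : ℕ} (α : Fin m → ℝ) (F : MvPolynomial (Fin (m + 1)) ℂ) :
    MvPolynomial (Fin 2) ℂ :=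
  aeval (Fin.cons (X 0) (fun j => C (Complex.I * (α j : ℂ)) * X 1) :
    Fin (m + 1) → MvPolynomial (Fin 2) ℂ) F

private theorem ev2_sub2 {m : ℕ} (α : Fin m → ℝ) (F : MvPolynomial (Fin (m + 1)) ℂ) (x : ℂ)
    (T : ℝ) : ev2 (sub2 α F) x T = eval (Fin.cons x (ipt T α) : Fin (m + 1) → ℂ) F := by
  unfold ev2 sub2
  have h1 : (eval ![x, (T : ℂ)]) ((aeval (Fin.cons (X 0)
      (fun j => C (Complex.I * (α j : ℂ)) * X 1) : Fin (m + 1) → MvPolynomial (Fin 2) ℂ)) F) =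
      eval₂ (RingHom.id ℂ) (fun i => eval ![x, (T : ℂ)] ((Fin.cons (X 0)
      (fun j => C (Complex.I * (α j : ℂ)) * X 1) : Fin (m + 1) → MvPolynomial (Fin 2) ℂ) i)) F := by
    rw [aeval_def, eval₂_eq', eval₂_eq', map_sum]
    refine Finset.sum_congr rfl fun d _ => ?_
    rw [map_mul, map_prod]
    simp
  rw [h1, eval₂_eq', eval_eq']
  refine Finset.sum_congr rfl fun d _ => ?_
  rw [RingHom.id_apply]
  congr 1
  refine Finset.prod_congr rfl fun i _ => ?_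
  congr 1
  refine Fin.cases ?_ (fun j => ?_) i
  · simp
  · simp [ipt]
    ring

/-- polynomial growth -/
private theorem growth {n : ℕ} (p : MvPolynomial (Fin n) ℂ) (ρ : ℝ) (hρ : 1 ≤ ρ) :
    ∃ K : ℕ, ∀ T : ℝ, 1 ≤ T → ∀ z : Fin n → ℂ, (∀ i, ‖z i‖ ≤ ρ * T) →
      ‖eval z p‖ ≤ K * T ^ K := by
  obtain ⟨K, hK⟩ := exists_nat_ge ((∑ d ∈ p.support, ‖coeff d p‖ * ρ ^ p.totalDegree) +
    p.totalDegree)
  have hs : 0 ≤ ∑ d ∈ p.support, ‖coeff d p‖ * ρ ^ p.totalDegree :=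
    Finset.sum_nonneg fun d _ => by positivity
  have hd : 0 ≤ (p.totalDegree : ℝ) := Nat.cast_nonneg _
  refine ⟨K, fun T hT z hz => ?_⟩
  have hT0 : 0 ≤ T := by linarith
  have h1 : ‖eval z p‖ ≤ (∑ d ∈ p.support, ‖coeff d p‖ * ρ ^ p.totalDegree) *
      T ^ p.totalDegree := by
    rw [eval_eq', Finset.sum_mul]
    refine (norm_sum_le _ _).trans (Finset.sum_le_sum fun d hd => ?_)
    rw [norm_mul, mul_assoc]
    refine mul_le_mul_of_nonneg_left ?_ (norm_nonneg _)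
    rw [norm_prod, ← mul_pow]
    have h2 : ∏ i, ‖z i ^ d i‖ ≤ ∏ i, (ρ * T) ^ d i := by
      refine Finset.prod_le_prod (fun i _ => norm_nonneg _) fun i _ => ?_
      rw [norm_pow]
      exact pow_le_pow_left₀ (norm_nonneg _) (hz i) _
    refine h2.trans ?_
    rw [Finset.prod_pow_eq_pow_sum]
    have h3 : ∑ i, d i ≤ p.totalDegree := by
      have h4 := le_totalDegree hd
      rwa [Finsupp.sum_fintype _ _ (fun _ => rfl)] at h4
    exact pow_le_pow_right₀ (by nlinarith) h3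
  have h2 : (p.totalDegree : ℝ) ≤ K := by linarith
  have h3 : p.totalDegree ≤ K := by exact_mod_cast h2
  refine h1.trans (mul_le_mul (by linarith) (pow_le_pow_right₀ hT h3) (by positivity)
    (Nat.cast_nonneg _))

/-- difference quotient in the first variable -/
private theorem diffq (P : MvPolynomial (Fin 2) ℂ) (κ : ℂ) : ∃ Q : MvPolynomial (Fin 2) ℂ,
    ∀ x T : ℂ, ev2 P κ T - ev2 P x T = (κ - x) * ev2 Q x T := by
  induction P using MvPolynomial.induction_on with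
  | C a => exact ⟨0, fun x T => by simp [ev2]⟩
  | add p q hp hq =>
    obtain ⟨P', hP⟩ := hp
    obtain ⟨Q', hQ⟩ := hq
    refine ⟨P' + Q', fun x T => ?_⟩
    have h1 := hP x T
    have h2 := hQ x T
    unfold ev2 at *
    rw [map_add, map_add, map_add]
    linear_combination h1 + h2
  | mul_X p i hp =>
    obtain ⟨P', hP⟩ := hp
    fin_cases i
    · refine ⟨P' * C κ + p, fun x T => ?_⟩
      have h1 := hP x T
      unfold ev2 at *
      simp only [map_add, map_mul, eval_X, eval_C]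
      simp
      linear_combination κ * h1
    · refine ⟨P' * X 1, fun x T => ?_⟩
      have h1 := hP x T
      unfold ev2 at *
      simp only [map_add, map_mul, eval_X, eval_C]
      simp
      linear_combination T * h1

/-- a nonzero polynomial in `T` is bounded below for large `T` -/
private theorem below (P : MvPolynomial (Fin 2) ℂ) (κ : ℂ) (hP : ∃ T : ℂ, ev2 P κ T ≠ 0) :
    ∃ c : ℝ, 0 < c ∧ ∀ᶠ T : ℝ in atTop, c ≤ ‖ev2 P κ T‖ := by
  obtain ⟨p, hp⟩ : ∃ p : Polynomial ℂ, ∀ T, p.eval T = ev2 P κ T := by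
    refine ⟨aeval ![Polynomial.C κ, Polynomial.X] P, fun T => ?_⟩
    unfold ev2
    rw [aeval_def, eval₂_eq', eval_eq', Polynomial.eval_finset_sum]
    refine Finset.sum_congr rfl fun d _ => ?_
    rw [Polynomial.eval_mul, Polynomial.eval_prod]
    simp
  obtain ⟨T0, hT0⟩ := hP
  have hp0 : p ≠ 0 := by
    intro h
    apply hT0
    rw [← hp, h, Polynomial.eval_zero]
  rcases Nat.eq_zero_or_pos p.natDegree with h1 | h1
  · have h2 := Polynomial.eq_C_of_natDegree_eq_zero h1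
    refine ⟨‖p.coeff 0‖, ?_, Eventually.of_forall fun T => ?_⟩
    · rw [norm_pos_iff]
      intro h3
      apply hp0
      rw [h2, h3, Polynomial.C_0]
    · rw [← hp, h2]
      simp
  · have h2 : 0 < p.degree := Polynomial.natDegree_pos_iff_degree_pos.mp h1
    have h3 : Tendsto (fun T : ℝ => ‖(T : ℂ)‖) atTop atTop := by
      have h4 : (fun T : ℝ => ‖(T : ℂ)‖) = fun T : ℝ => |T| := by
        funext T
        simp
      rw [h4]
      exact tendsto_abs_atTop_atTop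
    have h4 := Polynomial.tendsto_norm_atTop p h2 h3
    refine ⟨1, one_pos, ?_⟩
    filter_upwards [h4.eventually_ge_atTop 1] with T hT
    rw [← hp]
    exact hT

theorem lower {m : ℕ} (F N : MvPolynomial (Fin (m + 1)) ℂ) (κ : ℂ) (α : Fin m → ℝ)
    (hκ : ∃ T : ℝ, eval (Fin.cons κ (ipt T α) : Fin (m + 1) → ℂ) F ≠ 0)
    (hN : ∃ (T : ℝ) (y : ℂ), eval (Fin.cons y (ipt T α) : Fin (m + 1) → ℂ) N ≠ 0) :
    ∃ (r : ℝ) (C : ℕ), 0 < r ∧ ∀ᶠ T : ℝ in atTop, ∀ X : ℂ, ‖X - κ‖ ≤ r →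
      eval (Fin.cons X (ipt T α) : Fin (m + 1) → ℂ) F = 0 →
      1 ≤ T ^ C * ‖eval (Fin.cons (Complex.exp X) (ipt T α) : Fin (m + 1) → ℂ) N‖ := by
  obtain ⟨T1, hT1⟩ := hκ
  obtain ⟨T2, y2, hT2⟩ := hN
  have hP : ∃ T : ℂ, ev2 (sub2 α F) κ T ≠ 0 := ⟨T1, by rwa [ev2_sub2]⟩
  have hN' : sub2 α N ≠ 0 := by
    intro h
    apply hT2
    rw [← ev2_sub2, h]
    simp [ev2]
  rcases resPN (sub2 α F) (sub2 α N) κ hP hN' with ⟨r, hr, h1⟩ | ⟨R, B, hR, hRB⟩
  · refine ⟨r, 0, hr, ?_⟩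
    filter_upwards [h1] with T hT X hX hF
    exact absurd (by rw [ev2_sub2]; exact hF) (hT X hX)
  obtain ⟨r, c, M, hr, hc, hlow⟩ := expXR R hR κ
  obtain ⟨c2, hc2, hbelow⟩ := below (sub2 α F) κ hP
  obtain ⟨Q, hQ⟩ := diffq (sub2 α F) κ
  set ρ : ℝ := 1 + (‖κ‖ + r) + Real.exp (‖κ‖ + r) with hρ
  have hρ1 : 1 ≤ ρ := by
    have h1 := norm_nonneg κ
    have h2 := Real.exp_pos (‖κ‖ + r)
    rw [hρ]
    linarith
  obtain ⟨K1, hK1⟩ := growth B ρ hρ1
  obtain ⟨K2, hK2⟩ := growth Q ρ hρ1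
  obtain ⟨L, hL⟩ := exists_nat_ge ((K1 : ℝ) * (((K2 : ℝ) + 1) ^ M / (c * c2 ^ M)))
  refine ⟨r, K1 + K2 * M + 1, hr, ?_⟩
  filter_upwards [hbelow, hRB, eventually_ge_atTop (1 : ℝ), eventually_ge_atTop (L : ℝ)] with
    T hT1 hT2 hT3 hT4 X hX hF
  have hT0 : 0 < T := by linarith
  have hF' : ev2 (sub2 α F) X T = 0 := by rw [ev2_sub2]; exact hF
  have hXn : ‖X‖ ≤ ‖κ‖ + r := by
    have h1 : X = (X - κ) + κ := by ring
    rw [h1]
    exact (norm_add_le _ _).trans (by linarith)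
  have hXρ : ‖X‖ ≤ ρ * T := by
    have h2 := Real.exp_pos (‖κ‖ + r)
    have h3 := norm_nonneg κ
    have h4 : ‖X‖ ≤ ρ := by rw [hρ]; linarith
    nlinarith
  have hEρ : ‖Complex.exp X‖ ≤ ρ * T := by
    have h3 := norm_nonneg κ
    have h4 : ‖Complex.exp X‖ ≤ ρ := by
      rw [Complex.norm_exp, hρ]
      have h5 : Real.exp X.re ≤ Real.exp (‖κ‖ + r) :=
        Real.exp_le_exp.mpr ((Complex.re_le_norm X).trans hXn)
      linarith
    nlinarith
  have hTρ : ‖(T : ℂ)‖ ≤ ρ * T := by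
    rw [Complex.norm_real, Real.norm_of_nonneg hT0.le]
    nlinarith
  -- `B`
  have hB := hK1 T hT3 ![X, Complex.exp X, (T : ℂ)] (by
    intro i
    fin_cases i
    · exact hXρ
    · exact hEρ
    · exact hTρ)
  have hQb := hK2 T hT3 ![X, (T : ℂ)] (by
    intro i
    fin_cases i
    · exact hXρ
    · exact hTρ)
  -- the distance to `κ`
  have hdist : c2 ≤ ((K2 : ℝ) + 1) * T ^ K2 * ‖X - κ‖ := by
    have h1 := hQ X T
    rw [hF', sub_zero] at h1
    rw [h1, norm_mul, norm_sub_rev] at hT1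
    refine hT1.trans ?_
    rw [mul_comm]
    refine mul_le_mul_of_nonneg_right ?_ (norm_nonneg _)
    refine hQb.trans ?_
    have : (0 : ℝ) ≤ T ^ K2 := by positivity
    nlinarith
  have hRe := hT2 X (Complex.exp X) hF'
  have hlow' := hlow X hX
  rw [hRe, norm_mul] at hlow'
  rw [ev2_sub2] at hlow'
  set W : ℝ := ‖eval (Fin.cons (Complex.exp X) (ipt T α) : Fin (m + 1) → ℂ) N‖ with hW
  have hW0 : 0 ≤ W := norm_nonneg _
  -- `c ‖X - κ‖ ^ M ≤ K1 T ^ K1 W`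
  have h5 : c * ‖X - κ‖ ^ M ≤ K1 * T ^ K1 * W :=
    hlow'.trans (mul_le_mul_of_nonneg_right hB hW0)
  have h6 : c2 ^ M ≤ (((K2 : ℝ) + 1) * T ^ K2) ^ M * ‖X - κ‖ ^ M := by
    rw [← mul_pow]
    exact pow_le_pow_left₀ hc2.le hdist M
  have h7 : c * c2 ^ M ≤ (((K2 : ℝ) + 1) * T ^ K2) ^ M * (K1 * T ^ K1 * W) := by
    have h8 : 0 ≤ (((K2 : ℝ) + 1) * T ^ K2) ^ M := by positivity
    calc c * c2 ^ M ≤ c * ((((K2 : ℝ) + 1) * T ^ K2) ^ M * ‖X - κ‖ ^ M) :=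
          mul_le_mul_of_nonneg_left h6 hc.le
      _ = (((K2 : ℝ) + 1) * T ^ K2) ^ M * (c * ‖X - κ‖ ^ M) := by ring
      _ ≤ _ := mul_le_mul_of_nonneg_left h5 h8
  have hcc : 0 < c * c2 ^ M := by positivity
  have h9 : (K1 : ℝ) * (((K2 : ℝ) + 1) ^ M / (c * c2 ^ M)) ≤ T := hL.trans hT4
  have h10 : (K1 : ℝ) * ((K2 : ℝ) + 1) ^ M ≤ T * (c * c2 ^ M) := by
    rw [← mul_div_assoc, div_le_iff₀ hcc] at h9
    exact h9
  have h11 : c * c2 ^ M ≤ (T * (c * c2 ^ M)) * (T ^ (K2 * M) * T ^ K1 * W) := by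
    refine h7.trans ?_
    have h12 : 0 ≤ T ^ (K2 * M) * T ^ K1 * W := by positivity
    calc (((K2 : ℝ) + 1) * T ^ K2) ^ M * (K1 * T ^ K1 * W)
        = (K1 * ((K2 : ℝ) + 1) ^ M) * (T ^ (K2 * M) * T ^ K1 * W) := by
          rw [mul_pow, pow_mul]
          ring
      _ ≤ _ := mul_le_mul_of_nonneg_right h10 h12
  have h13 : T ^ (K1 + K2 * M + 1) * W = T * (T ^ (K2 * M) * T ^ K1 * W) := by
    rw [pow_succ, pow_add]
    ring
  rw [h13]
  have h14 : c * c2 ^ M * 1 ≤ c * c2 ^ M * (T * (T ^ (K2 * M) * T ^ K1 * W)) := by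
    calc c * c2 ^ M * 1 = c * c2 ^ M := mul_one _
      _ ≤ (T * (c * c2 ^ M)) * (T ^ (K2 * M) * T ^ K1 * W) := h11
      _ = _ := by ring
  exact le_of_mul_le_mul_left h14 hcc

end Pool.Agent.EXQ
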