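import Pool.Agent.EXQ.Ratio
import Pool.Agent.EXQ.Defs

/-!
# EXQ / Xi: the logarithms of `w(x)` over a bounded sheet (helper97)

PROOF.  `r ≤ 1` so small that `|t| ≤ r^(1/e)` is in the domain of the `b_j` (where they are bounded by some `K₁`) and in the neighbourhood of `hb`.
`f = X₀ - κ` satisfies the hypotheses of `ratio_near`; `δ = 1/2`: `Λ(x) = Log f(a) + Log (f(x) / f(a))` (principal logarithms) is analytic on
`ball a √T` (for large `T`, `√T ≤ η T`), `exp Λ = f`, `|Λ| ≤ C log T + 7`. `t(x) = exp(Λ(x) / e)`, `t^e = X₀ - κ`, `0 < |t| ≤ r^(1/e)`.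
`Ξ_j(x) = (v_j / e) Λ(x) + b_j(t(x))`, `exp Ξ_j = t^(v_j) exp(b_j(t))`.
-/

set_option autoImplicit false

namespace Pool.Agent.EXQ

open MvPolynomial Filter Topology Pool.Agent.EXP Pool.Agent.EXM

private theorem xi_log {m : ℕ} (η : ℝ) (hη : 0 < η) (C : ℕ) : ∀ᶠ T : ℝ in atTop,
    Real.sqrt T ≤ η * T ∧ ∀ (a : Fin m → ℂ) (f : (Fin m → ℂ) → ℂ),
      DifferentiableOn ℂ f (Metric.ball a (η * T)) →
      (∀ x ∈ Metric.ball a (η * T), ‖f x‖ ≤ 1 ∧ 1 ≤ T ^ C * ‖f x‖) →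
      ∃ Λ : (Fin m → ℂ) → ℂ, DifferentiableOn ℂ Λ (Metric.ball a (Real.sqrt T)) ∧
        ∀ x ∈ Metric.ball a (Real.sqrt T), Complex.exp (Λ x) = f x ∧
          ‖Λ x‖ ≤ C * Real.log T + 7 := by
  filter_upwards [ratio_near (m := m) η hη C (1 / 2) (by norm_num), eventually_ge_atTop 1,
    eventually_ge_atTop ((1 / η) ^ 2)] with T hT hT1 hT2
  have hT0 : 0 < T := by linarith
  have hs0 : 0 < Real.sqrt T := Real.sqrt_pos.2 hT0
  have hss : Real.sqrt T * Real.sqrt T = T := Real.mul_self_sqrt hT0.le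
  have hs : Real.sqrt T ≤ η * T := by
    have h1 : 1 / η ≤ Real.sqrt T := Real.le_sqrt_of_sq_le hT2
    have h2 : 1 ≤ η * Real.sqrt T := by
      rw [div_le_iff₀ hη] at h1
      linarith
    calc Real.sqrt T = 1 * Real.sqrt T := (one_mul _).symm
      _ ≤ (η * Real.sqrt T) * Real.sqrt T := mul_le_mul_of_nonneg_right h2 hs0.le
      _ = η * T := by rw [mul_assoc, hss]
  refine ⟨hs, fun a f hfd hf => ?_⟩
  have hsub : Metric.ball a (Real.sqrt T) ⊆ Metric.ball a (η * T) := Metric.ball_subset_ball hs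
  have hne : ∀ x ∈ Metric.ball a (η * T), f x ≠ 0 := by
    intro x hx h0
    have h1 := (hf x hx).2
    rw [h0, norm_zero, mul_zero] at h1
    linarith
  have ha : a ∈ Metric.ball a (η * T) := Metric.mem_ball_self (by positivity)
  have hfa : f a ≠ 0 := hne a ha
  have hrat := hT a f hfd hf
  have hslit : ∀ x ∈ Metric.ball a (Real.sqrt T), f x / f a ∈ Complex.slitPlane := by
    intro x hx
    left
    have h1 := (Complex.abs_re_le_norm (f x / f a - 1)).trans (hrat x hx)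
    rw [Complex.sub_re, Complex.one_re] at h1
    have h2 := (abs_le.1 h1).1
    linarith
  have hexp : ∀ x ∈ Metric.ball a (Real.sqrt T),
      Complex.exp (Complex.log (f a) + Complex.log (f x / f a)) = f x := by
    intro x hx
    rw [Complex.exp_add, Complex.exp_log hfa,
      Complex.exp_log (div_ne_zero (hne x (hsub hx)) hfa), mul_div_cancel₀ _ hfa]
  refine ⟨fun x => Complex.log (f a) + Complex.log (f x / f a), ?_, ?_⟩
  · have h1 : DifferentiableOn ℂ (fun x => f x / f a) (Metric.ball a (Real.sqrt T)) := by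
      simp_rw [div_eq_mul_inv]
      exact (hfd.mono hsub).mul_const (f a)⁻¹
    exact (h1.clog hslit).const_add _
  intro x hx
  refine ⟨hexp x hx, ?_⟩
  have hx' := hf x (hsub hx)
  have hf0 : 0 < ‖f x‖ := norm_pos_iff.2 (hne x (hsub hx))
  have hre : (Complex.log (f a) + Complex.log (f x / f a)).re = Real.log ‖f x‖ := by
    rw [← hexp x hx, Complex.norm_exp, Real.log_exp, hexp x hx]
  have h1 : Real.log ‖f x‖ ≤ 0 := Real.log_nonpos (norm_nonneg _) hx'.1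
  have h2 : 0 ≤ (C : ℝ) * Real.log T + Real.log ‖f x‖ := by
    have h3 := Real.log_nonneg hx'.2
    rwa [Real.log_mul (pow_pos hT0 _).ne' hf0.ne', Real.log_pow] at h3
  have h4 : |(Complex.log (f a) + Complex.log (f x / f a)).re| ≤ (C : ℝ) * Real.log T := by
    rw [hre, abs_le]
    constructor <;> linarith
  have h5 : |(Complex.log (f a) + Complex.log (f x / f a)).im| ≤ 7 := by
    rw [Complex.add_im, Complex.log_im, Complex.log_im]
    have h6 := Complex.abs_arg_le_pi (f a)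
    have h7 := Complex.abs_arg_le_pi (f x / f a)
    have h8 := Real.pi_lt_d2
    calc |(f a).arg + (f x / f a).arg| ≤ |(f a).arg| + |(f x / f a).arg| := abs_add_le _ _
      _ ≤ 7 := by linarith
  calc ‖Complex.log (f a) + Complex.log (f x / f a)‖ ≤ _ := Complex.norm_le_abs_re_add_abs_im _
    _ ≤ (C : ℝ) * Real.log T + 7 := add_le_add h4 h5

theorem xi {m : ℕ} (Q : Ideal (MvPolynomial (Fin (m + 1)) ℂ)) (κ : ℂ) (e : ℕ) (he : 1 ≤ e)
    (v : Fin m → ℤ) (b : Fin m → ℂ → ℂ) (hb : ∀ j, AnalyticAt ℂ (b j) 0)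
    (hW : ∀ᶠ t in 𝓝[≠] (0 : ℂ), (Fin.cons (Complex.exp (κ + t ^ e))
        (fun j => t ^ v j * Complex.exp (b j t)) : Fin (m + 1) → ℂ) ∈ Tz Q) :
    ∃ r : ℝ, 0 < r ∧ r ≤ 1 ∧ ∀ (η : ℝ) (C : ℕ), 0 < η → ∃ K : ℝ, 0 < K ∧ ∀ᶠ T : ℝ in atTop,
      ∀ (a : Fin m → ℂ) (X₀ : (Fin m → ℂ) → ℂ),
      DifferentiableOn ℂ X₀ (Metric.ball a (η * T)) →
      (∀ x ∈ Metric.ball a (η * T), ‖X₀ x - κ‖ ≤ r ∧ 1 ≤ T ^ C * ‖X₀ x - κ‖) →
      ∃ Ξ : (Fin m → ℂ) → Fin m → ℂ, DifferentiableOn ℂ Ξ (Metric.ball a (Real.sqrt T)) ∧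
        (∀ x ∈ Metric.ball a (Real.sqrt T), ‖Ξ x‖ ≤ K * Real.log T) ∧
        ∀ x ∈ Metric.ball a (Real.sqrt T), (Fin.cons (Complex.exp (X₀ x))
          (fun j => Complex.exp (Ξ x j)) : Fin (m + 1) → ℂ) ∈ Tz Q := by
  have h1 : ∀ᶠ t in 𝓝 (0 : ℂ), ∀ j, AnalyticAt ℂ (b j) t :=
    Filter.eventually_all.2 fun j => (hb j).eventually_analyticAt
  have h2 : ∀ᶠ t in 𝓝 (0 : ℂ), ∀ j, ‖b j t‖ < ‖b j 0‖ + 1 :=
    Filter.eventually_all.2 fun j => ((hb j).continuousAt.norm).eventually_lt_const (lt_add_one _)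
  have h3 := eventually_nhdsWithin_iff.1 hW
  obtain ⟨ρ', hρ', hall⟩ := Metric.eventually_nhds_iff.1 (h1.and (h2.and h3))
  obtain ⟨ρ, hρ0, hρ1, hρ⟩ : ∃ ρ : ℝ, 0 < ρ ∧ ρ ≤ 1 ∧ ∀ t : ℂ, ‖t‖ ≤ ρ →
      (∀ j, AnalyticAt ℂ (b j) t) ∧ (∀ j, ‖b j t‖ < ‖b j 0‖ + 1) ∧
      (t ∈ ({0} : Set ℂ)ᶜ → (Fin.cons (Complex.exp (κ + t ^ e))
        (fun j => t ^ v j * Complex.exp (b j t)) : Fin (m + 1) → ℂ) ∈ Tz Q) := by
    refine ⟨min (ρ' / 2) 1, by positivity, min_le_right _ _, fun t ht => hall ?_⟩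
    rw [dist_zero_right]
    have := ht.trans (min_le_left _ _)
    linarith
  have he0 : (e : ℂ) ≠ 0 := by
    have : e ≠ 0 := by omega
    exact_mod_cast this
  have he' : e ≠ 0 := by omega
  refine ⟨ρ ^ e, by positivity, pow_le_one₀ hρ0.le hρ1, fun η C hη => ?_⟩
  obtain ⟨V, hV⟩ : ∃ V : ℝ, V = ∑ j, |(v j : ℝ)| := ⟨_, rfl⟩
  obtain ⟨K₁, hK₁⟩ : ∃ K₁ : ℝ, K₁ = ∑ j, (‖b j 0‖ + 1) := ⟨_, rfl⟩
  have hV0 : 0 ≤ V := by rw [hV]; positivity
  have hK0 : 0 ≤ K₁ := by rw [hK₁]; positivity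
  have hVj : ∀ j, |(v j : ℝ)| ≤ V := by
    intro j
    rw [hV]
    exact Finset.single_le_sum (f := fun j => |(v j : ℝ)|) (fun i _ => abs_nonneg _)
      (Finset.mem_univ j)
  have hKj : ∀ j, ‖b j 0‖ + 1 ≤ K₁ := by
    intro j
    rw [hK₁]
    exact Finset.single_le_sum (f := fun j => ‖b j 0‖ + 1) (fun i _ => by positivity)
      (Finset.mem_univ j)
  refine ⟨V * (C + 7) + K₁ + 1, by positivity, ?_⟩
  filter_upwards [xi_log (m := m) η hη C, eventually_ge_atTop (Real.exp 1)] with T hT hTe a X₀ hd hX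
  have hlog : 1 ≤ Real.log T := by
    rw [← Real.log_exp 1]
    exact Real.log_le_log (Real.exp_pos 1) hTe
  have hT0 : 0 < T := lt_of_lt_of_le (Real.exp_pos 1) hTe
  obtain ⟨hs, hT⟩ := hT
  have hsub : Metric.ball a (Real.sqrt T) ⊆ Metric.ball a (η * T) := Metric.ball_subset_ball hs
  obtain ⟨Λ, hΛd, hΛ⟩ := hT a (fun x => X₀ x - κ) (hd.sub_const κ)
    (fun x hx => ⟨(hX x hx).1.trans (pow_le_one₀ hρ0.le hρ1), (hX x hx).2⟩)
  have hte : ∀ x ∈ Metric.ball a (Real.sqrt T), Complex.exp (Λ x / e) ^ e = X₀ x - κ := by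
    intro x hx
    rw [← Complex.exp_nat_mul, mul_div_cancel₀ _ he0, (hΛ x hx).1]
  have htρ : ∀ x ∈ Metric.ball a (Real.sqrt T), ‖Complex.exp (Λ x / e)‖ ≤ ρ := by
    intro x hx
    have h4 : ‖Complex.exp (Λ x / e)‖ ^ e ≤ ρ ^ e := by
      rw [← norm_pow, hte x hx]
      exact (hX x (hsub hx)).1
    exact (pow_le_pow_iff_left₀ (norm_nonneg _) hρ0.le he').1 h4
  have hΛe : DifferentiableOn ℂ (fun x => Λ x / e) (Metric.ball a (Real.sqrt T)) := by
    simp_rw [div_eq_mul_inv]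
    exact hΛd.mul_const _
  have htd : DifferentiableOn ℂ (fun x => Complex.exp (Λ x / e)) (Metric.ball a (Real.sqrt T)) :=
    hΛe.cexp
  refine ⟨fun x j => (v j : ℂ) * (Λ x / e) + b j (Complex.exp (Λ x / e)), ?_, ?_, ?_⟩
  · refine differentiableOn_pi.2 fun j => ?_
    refine (hΛe.const_mul _).add ?_
    intro x hx
    have h5 : DifferentiableAt ℂ (b j) (Complex.exp (Λ x / e)) :=
      ((hρ _ (htρ x hx)).1 j).differentiableAt
    exact h5.comp_differentiableWithinAt x (htd x hx)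
  · intro x hx
    refine (pi_norm_le_iff_of_nonneg (by positivity)).2 fun j => ?_
    have h5 : ‖b j (Complex.exp (Λ x / e))‖ ≤ K₁ :=
      (((hρ _ (htρ x hx)).2.1 j).le).trans (hKj j)
    have h6 : ‖(v j : ℂ) * (Λ x / e)‖ ≤ V * (C * Real.log T + 7) := by
      rw [norm_mul, norm_div, Complex.norm_natCast]
      have h7 : ‖(v j : ℂ)‖ ≤ V := by
        rw [Complex.norm_intCast]
        exact hVj j
      have h8 : ‖Λ x‖ / (e : ℝ) ≤ C * Real.log T + 7 := by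
        have he1 : (1 : ℝ) ≤ e := by exact_mod_cast he
        exact (div_le_self (norm_nonneg _) he1).trans (hΛ x hx).2
      exact mul_le_mul h7 h8 (by positivity) hV0
    calc ‖(v j : ℂ) * (Λ x / e) + b j (Complex.exp (Λ x / e))‖
        ≤ ‖(v j : ℂ) * (Λ x / e)‖ + ‖b j (Complex.exp (Λ x / e))‖ := norm_add_le _ _
      _ ≤ V * (C * Real.log T + 7) + K₁ := add_le_add h6 h5
      _ ≤ V * (C * Real.log T + 7 * Real.log T) + K₁ * Real.log T + Real.log T := by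
        have h9 : V * (C * Real.log T + 7) ≤ V * (C * Real.log T + 7 * Real.log T) := by
          apply mul_le_mul_of_nonneg_left _ hV0
          linarith
        have h10 : K₁ * 1 ≤ K₁ * Real.log T := mul_le_mul_of_nonneg_left hlog hK0
        linarith
      _ = (V * (C + 7) + K₁ + 1) * Real.log T := by ring
  · intro x hx
    have h5 := (hρ _ (htρ x hx)).2.2 (Complex.exp_ne_zero _)
    have e1 : κ + Complex.exp (Λ x / e) ^ e = X₀ x := by rw [hte x hx]; ring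
    rw [e1] at h5
    have e2 : (fun j => Complex.exp ((v j : ℂ) * (Λ x / e) + b j (Complex.exp (Λ x / e)))) =
        fun j => Complex.exp (Λ x / e) ^ v j * Complex.exp (b j (Complex.exp (Λ x / e))) := by
      funext j
      rw [Complex.exp_add, Complex.exp_int_mul]
    show (Fin.cons (Complex.exp (X₀ x))
      (fun j => Complex.exp ((v j : ℂ) * (Λ x / e) + b j (Complex.exp (Λ x / e)))) :
        Fin (m + 1) → ℂ) ∈ Tz Q
    rw [e2]
    exact h5

end Pool.Agent.EXQ
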