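import Pool.Agent.EXQ.BSh
import Pool.Agent.EXQ.Lip
import Pool.Agent.EXQ.KapFar
import Pool.Agent.EXQ.Lower
import Pool.Agent.EXQ.Flat
import Pool.Agent.EXQ.Xi

/-!
# EXQ / FlatII: the solutions near a constant limit `κ` are not contained in `N = 0`

PROOF.  Suppose they are. `r` = minimum of those of `xi`, `lower`, 1; `bsheet` with this `r`, `kap_far`; `root_near` with its `ρ`: for large `T` a sheet
`X₀` on `ball a (η T)`, `a = i T α` (`η` smaller than both), with `|X₀ - κ| ≤ r`, `T^C |X₀ - κ| ≥ 1`. `xi`: `Ξ` on `ball a √T`, `|Ξ| ≤ K log T`.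
`lip_ball`: `Ξ` is Lipschitz with constant `8 K log T / √T ≤ 1/2` on `ball a (√T / 2)`. `near_id` with `R = √T / 2`: `ψ` on `ball a (√T / 8)`,
`ψ y - Ξ (ψ y) = y`. If `y = 2 π i l` is in this ball then `z = (X₀(x), x)`, `x = ψ y`, has `exp z = (exp X₀, exp Ξ) ∈ Tz Q`, `F(z) = 0`, so
`N(exp X₀(x), x) = 0`. So `y ↦ N(exp X₀(ψ y), ψ y)` vanishes at the lattice points of `ball a (√T / 8)`, is analytic and bounded by `T^C'`; `flat`:
`≤ T^C' exp(-c √T / 8)` on `ball a (c √T / 8)`. `y = a - Ξ a` is in it and `ψ y = a` (uniqueness by the Lipschitz constant 1/2). So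
`|N(exp X₀(a), a)| ≤ T^C' exp(-c √T / 8)`, contrary to `lower` for large `T`.
-/

set_option autoImplicit false

namespace Pool.Agent.EXQ

open MvPolynomial Filter Topology Pool.Agent.EXP Pool.Agent.EXM

private theorem growth {n : ℕ} (N : MvPolynomial (Fin n) ℂ) :
    ∃ (C : ℝ) (d : ℕ), 0 ≤ C ∧ ∀ S : ℝ, 1 ≤ S → ∀ z : Fin n → ℂ, ‖z‖ ≤ S → ‖eval z N‖ ≤ C * S ^ d := by
  induction N using MvPolynomial.induction_on with
  | C a => exact ⟨‖a‖, 0, norm_nonneg _, fun S _ z _ => by simp⟩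
  | add p q hp hq =>
    obtain ⟨C₁, d₁, h₁, H₁⟩ := hp
    obtain ⟨C₂, d₂, h₂, H₂⟩ := hq
    refine ⟨C₁ + C₂, max d₁ d₂, by positivity, fun S hS z hz => ?_⟩
    rw [map_add]
    have h3 : S ^ d₁ ≤ S ^ max d₁ d₂ := pow_le_pow_right₀ hS (le_max_left _ _)
    have h4 : S ^ d₂ ≤ S ^ max d₁ d₂ := pow_le_pow_right₀ hS (le_max_right _ _)
    calc ‖eval z p + eval z q‖ ≤ ‖eval z p‖ + ‖eval z q‖ := norm_add_le _ _
      _ ≤ C₁ * S ^ d₁ + C₂ * S ^ d₂ := add_le_add (H₁ S hS z hz) (H₂ S hS z hz)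
      _ ≤ C₁ * S ^ max d₁ d₂ + C₂ * S ^ max d₁ d₂ := by gcongr
      _ = (C₁ + C₂) * S ^ max d₁ d₂ := by ring
  | mul_X p i hp =>
    obtain ⟨C₁, d₁, h₁, H₁⟩ := hp
    refine ⟨C₁, d₁ + 1, h₁, fun S hS z hz => ?_⟩
    rw [map_mul, eval_X, norm_mul, pow_succ, ← mul_assoc]
    exact mul_le_mul (H₁ S hS z hz) ((norm_le_pi_norm z i).trans hz) (norm_nonneg _)
      (by positivity)

/-- `T^C exp(-c √T) → 0` -/
private theorem decay (C : ℕ) (c : ℝ) (hc : 0 < c) (A : ℝ) :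
    ∀ᶠ T : ℝ in atTop, T ^ C * (A * Real.exp (-c * Real.sqrt T)) < 1 := by
  have h1 : Tendsto (fun s : ℝ => s ^ (2 * C) * Real.exp (-c * s)) atTop (𝓝 0) := by
    have := Real.tendsto_pow_mul_exp_neg_atTop_nhds_zero (2 * C)
    have h2 : Tendsto (fun s : ℝ => c * s) atTop atTop := tendsto_id.const_mul_atTop hc
    have h3 := (this.comp h2).const_mul ((c ^ (2 * C))⁻¹)
    rw [mul_zero] at h3
    refine h3.congr fun s => ?_
    simp only [Function.comp_apply]
    rw [mul_pow, neg_mul]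
    field_simp
  have h2 : Tendsto (fun T : ℝ => T ^ C * (A * Real.exp (-c * Real.sqrt T))) atTop (𝓝 0) := by
    have h3 := (h1.comp Real.tendsto_sqrt_atTop).const_mul A
    rw [mul_zero] at h3
    refine h3.congr' ?_
    filter_upwards [eventually_ge_atTop (0 : ℝ)] with T hT
    simp only [Function.comp_apply]
    rw [pow_mul, Real.sq_sqrt hT]
    ring
  exact h2.eventually_lt_const one_pos

/-- `K log T ≤ c √T` -/
private theorem log_small (K c : ℝ) (hc : 0 < c) :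
    ∀ᶠ T : ℝ in atTop, K * Real.log T < c * Real.sqrt T := by
  have h1 : Tendsto (fun s : ℝ => Real.log s / s) atTop (𝓝 0) := by
    have := Real.isLittleO_log_id_atTop.tendsto_div_nhds_zero
    simpa using this
  have h2 : Tendsto (fun T : ℝ => K * (2 * (Real.log (Real.sqrt T) / Real.sqrt T))) atTop (𝓝 0) := by
    have h3 := ((h1.comp Real.tendsto_sqrt_atTop).const_mul 2).const_mul K
    simpa using h3
  filter_upwards [h2.eventually_lt_const hc, eventually_gt_atTop (0 : ℝ)] with T hT hT0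
  have h3 : 0 < Real.sqrt T := Real.sqrt_pos.2 hT0
  rw [Real.log_sqrt hT0.le] at hT
  have h4 : K * (2 * (Real.log T / 2 / Real.sqrt T)) = K * Real.log T / Real.sqrt T := by ring
  rw [h4, div_lt_iff₀ h3] at hT
  exact hT

theorem flatII {m : ℕ} (F N : MvPolynomial (Fin (m + 1)) ℂ)
    (Q : Ideal (MvPolynomial (Fin (m + 1)) ℂ)) (Δ : MvPolynomial (Fin m) ℂ)
    (hΔ : ∀ x : Fin m → ℂ, eval x Δ ≠ 0 →
      (fp F x).natDegree = degreeOf 0 F ∧ (fp F x).Separable)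
    (α : Fin m → ℝ)
    (hΔα : eval (fun j => (α j : ℂ)) (homogeneousComponent Δ.totalDegree Δ) ≠ 0) (κ : ℂ)
    (hκ : (pj F fun j => (α j : ℂ)).eval κ = 0) (hne : (pj F fun j => (α j : ℂ)) ≠ 0)
    (k : MvPolynomial (Fin m) ℂ) (hk : k = Polynomial.eval (C κ) (finSuccEquiv ℂ m F))
    (hkα : eval (fun j => (α j : ℂ)) (homogeneousComponent k.totalDegree k) ≠ 0)
    (hκF : ∃ T : ℝ, eval (Fin.cons κ (ipt T α) : Fin (m + 1) → ℂ) F ≠ 0)
    (hN : ∃ (T : ℝ) (y : ℂ), eval (Fin.cons y (ipt T α) : Fin (m + 1) → ℂ) N ≠ 0)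
    (e : ℕ) (he : 1 ≤ e)
    (v : Fin m → ℤ) (b : Fin m → ℂ → ℂ) (hb : ∀ j, AnalyticAt ℂ (b j) 0)
    (hW : ∀ᶠ t in 𝓝[≠] (0 : ℂ), (Fin.cons (Complex.exp (κ + t ^ e))
        (fun j => t ^ v j * Complex.exp (b j t)) : Fin (m + 1) → ℂ) ∈ Tz Q)
    (hsol : ∀ z : Fin (m + 1) → ℂ, eval z F = 0 → (fun j => Complex.exp (z j)) ∈ Tz Q →
      eval (Fin.cons (Complex.exp (z 0)) fun j => z j.succ : Fin (m + 1) → ℂ) N = 0) :
    False := by
  classical
  obtain ⟨r₁, hr₁, hr₁1, hxi⟩ := xi Q κ e he v b hb hW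
  obtain ⟨r₂, C₂, hr₂, hlow⟩ := lower F N κ α hκF hN
  obtain ⟨η₁, ρ, hη₁, hρ, hsh⟩ := bsheet F Δ hΔ α hΔα κ hne (min r₁ r₂) (lt_min hr₁ hr₂)
  obtain ⟨η₂, C₁, hη₂, hkf⟩ := kap_far F κ α k hk hkα
  obtain ⟨η, hη, hηη₁, hηη₂⟩ : ∃ η : ℝ, 0 < η ∧ η ≤ η₁ ∧ η ≤ η₂ :=
    ⟨min η₁ η₂, lt_min hη₁ hη₂, min_le_left _ _, min_le_right _ _⟩
  obtain ⟨K, hK, hxiT⟩ := hxi η C₁ hη
  obtain ⟨c, R₀, hc, hc1, hflat⟩ := flat m
  obtain ⟨C₃, d, hC₃, hgr⟩ := growth N
  -- the size of the arguments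
  obtain ⟨A, hA1, hA⟩ : ∃ A : ℝ, 1 ≤ A ∧ Real.exp (‖κ‖ + 1) + ‖fun j : Fin m => (α j : ℂ)‖ + η ≤ A :=
    ⟨max 1 _, le_max_left _ _, le_max_right _ _⟩
  have hsq : ∀ᶠ T : ℝ in atTop, Real.sqrt T ≤ η * T := by
    have h1 : Tendsto (fun T : ℝ => Real.sqrt T) atTop atTop := Real.tendsto_sqrt_atTop
    filter_upwards [h1.eventually_ge_atTop (1 / η), eventually_ge_atTop (0 : ℝ)] with T hT hT0
    rw [div_le_iff₀ hη] at hT
    calc Real.sqrt T = Real.sqrt T * 1 := (mul_one _).symm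
      _ ≤ Real.sqrt T * (Real.sqrt T * η) := by gcongr
      _ = η * (Real.sqrt T * Real.sqrt T) := by ring
      _ = η * T := by rw [Real.mul_self_sqrt hT0]
  have hR : ∀ᶠ T : ℝ in atTop, R₀ ≤ Real.sqrt T / 8 := by
    have h1 : Tendsto (fun T : ℝ => Real.sqrt T / 8) atTop atTop :=
      Real.tendsto_sqrt_atTop.atTop_div_const (by norm_num)
    exact h1.eventually_ge_atTop _
  have hroot := root_near F α κ hκ hne ρ hρ
  obtain ⟨T, hT1, hTsq, hTR, ⟨X, hX, hXκ⟩, hTsh, hTkf, hTxi, hTlow, hTdec, hlog1, hlog2, hlog3⟩ :=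
    ((eventually_ge_atTop (1 : ℝ)).and (hsq.and (hR.and (hroot.and (hsh.and (hkf.and (hxiT.and
      (hlow.and ((decay (d + C₂) (c / 8) (by positivity) (C₃ * A ^ d)).and
      ((log_small (8 * K) (1 / 2) (by norm_num)).and
      ((log_small K (1 / 32) (by norm_num)).and
        (log_small K (c / 8) (by positivity))))))))))))).exists
  have hT0 : 0 < T := by linarith
  have hs0 : 0 < Real.sqrt T := Real.sqrt_pos.2 hT0
  set a : Fin m → ℂ := ipt T α with ha
  obtain ⟨X₀, hXd, hXa, hX₀⟩ := hTsh X hX hXκ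
  have hb1 : Metric.ball a (η * T) ⊆ Metric.ball a (η₁ * T) :=
    Metric.ball_subset_ball (by gcongr)
  have hb2 : Metric.ball a (η * T) ⊆ Metric.ball a (η₂ * T) :=
    Metric.ball_subset_ball (by gcongr)
  have hX₀r₁ : ∀ x ∈ Metric.ball a (η * T), ‖X₀ x - κ‖ ≤ r₁ := fun x hx =>
    ((hX₀ x (hb1 hx)).2).trans (min_le_left _ _)
  have hX₀F : ∀ x ∈ Metric.ball a (η * T), eval (Fin.cons (X₀ x) x : Fin (m + 1) → ℂ) F = 0 :=
    fun x hx => (hX₀ x (hb1 hx)).1
  obtain ⟨Ξ, hΞd, hΞb, hΞW⟩ := hTxi a X₀ (hXd.mono hb1) (fun x hx =>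
    ⟨hX₀r₁ x hx, hTkf x (hb2 hx) (X₀ x) ((hX₀r₁ x hx).trans hr₁1) (hX₀F x hx)⟩)
  have hbs : Metric.ball a (Real.sqrt T) ⊆ Metric.ball a (η * T) :=
    Metric.ball_subset_ball hTsq
  have hbh : Metric.ball a (Real.sqrt T / 2) ⊆ Metric.ball a (Real.sqrt T) :=
    Metric.ball_subset_ball (by linarith)
  have hlogT : 0 ≤ Real.log T := Real.log_nonneg hT1
  have hLip : ∀ x ∈ Metric.ball a (Real.sqrt T / 2), ∀ y ∈ Metric.ball a (Real.sqrt T / 2),
      ‖Ξ x - Ξ y‖ ≤ 1 / 2 * ‖x - y‖ := by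
    intro x hx y hy
    refine (lip_ball a (Real.sqrt T) (K * Real.log T) hs0 Ξ hΞd hΞb x hx y hy).trans ?_
    refine mul_le_mul_of_nonneg_right ?_ (norm_nonneg _)
    rw [div_le_iff₀ hs0]
    linarith
  obtain ⟨ψ, hψd, hψ⟩ := near_id a (Real.sqrt T / 2) (by positivity) Ξ (hΞd.mono hbh)
    (fun x hx => (hΞb x (hbh hx)).trans (by linarith)) hLip
  have h8 : Real.sqrt T / 2 / 4 = Real.sqrt T / 8 := by ring
  rw [h8] at hψd hψ
  have haI : (fun j => Complex.I * ((T * α j : ℝ) : ℂ)) = a := by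
    funext j
    rw [ha, ipt]
    push_cast
    ring
  -- the function
  have hfd : DifferentiableOn ℂ (fun y : Fin m → ℂ =>
      eval (Fin.cons (Complex.exp (X₀ (ψ y))) (ψ y) : Fin (m + 1) → ℂ) N)
      (Metric.ball a (Real.sqrt T / 8)) := by
    have h1 : Differentiable ℂ fun z : Fin (m + 1) → ℂ => eval z N := by
      have h7 : ∀ z, AnalyticAt ℂ (fun q : Fin (m + 1) → ℂ => eval q N) z := by
        intro z
        have h7 := AnalyticAt.aeval_mvPolynomial (𝕜 := ℂ) (B := ℂ)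
          (f := fun u : Fin (m + 1) → ℂ => u) (z := z) (fun i =>
            (ContinuousLinearMap.proj (R := ℂ) (φ := fun _ : Fin (m + 1) => ℂ) i).analyticAt z) N
        simpa [MvPolynomial.aeval_eq_eval] using h7
      exact fun z => (h7 z).differentiableAt
    have h2 : DifferentiableOn ℂ (fun y : Fin m → ℂ =>
        (Fin.cons (Complex.exp (X₀ (ψ y))) (ψ y) : Fin (m + 1) → ℂ))
        (Metric.ball a (Real.sqrt T / 8)) := by
      rw [differentiableOn_pi]
      intro i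
      refine Fin.cases ?_ (fun j => ?_) i
      · simp only [Fin.cons_zero]
        refine DifferentiableOn.cexp ?_
        exact (hXd.mono hb1).comp hψd fun y hy => hbs (hbh (hψ y hy).1)
      · simp only [Fin.cons_succ]
        exact (differentiableOn_pi.1 hψd) j
    exact h1.comp_differentiableOn h2
  have hfb : ∀ x ∈ Metric.ball a (η * T),
      ‖eval (Fin.cons (Complex.exp (X₀ x)) x : Fin (m + 1) → ℂ) N‖ ≤ C₃ * (A * T) ^ d := by
    intro x hx
    refine hgr (A * T) (by nlinarith) _ ?_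
    have hAT : Real.exp (‖κ‖ + 1) + (‖fun j : Fin m => (α j : ℂ)‖ + η) * T ≤ A * T := by
      have h1 : 0 ≤ Real.exp (‖κ‖ + 1) := (Real.exp_pos _).le
      have h2 : (Real.exp (‖κ‖ + 1) + ‖fun j : Fin m => (α j : ℂ)‖ + η) * T ≤ A * T := by gcongr
      nlinarith
    have h3 : 0 ≤ (‖fun j : Fin m => (α j : ℂ)‖ + η) * T := by positivity
    rw [pi_norm_le_iff_of_nonneg (by positivity)]
    intro i
    refine Fin.cases ?_ (fun j => ?_) i
    · rw [Fin.cons_zero, Complex.norm_exp]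
      have h4 : (X₀ x).re ≤ ‖κ‖ + 1 := by
        have h5 := hX₀r₁ x hx
        have h6 : ‖X₀ x‖ ≤ ‖X₀ x - κ‖ + ‖κ‖ := by
          have := norm_add_le (X₀ x - κ) κ
          rwa [sub_add_cancel] at this
        have h7 := Complex.re_le_norm (X₀ x)
        linarith
      have := Real.exp_le_exp.2 h4
      linarith
    · rw [Fin.cons_succ]
      have h5 : ‖x - a‖ < η * T := by rwa [Metric.mem_ball, dist_eq_norm] at hx
      have h6 : ‖x‖ ≤ ‖x - a‖ + ‖a‖ := by
        have := norm_add_le (x - a) a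
        rwa [sub_add_cancel] at this
      have h7 : ‖a‖ ≤ ‖fun j : Fin m => (α j : ℂ)‖ * T := by
        rw [pi_norm_le_iff_of_nonneg (by positivity)]
        intro i
        rw [ha, ipt, norm_mul, norm_mul, Complex.norm_I, one_mul, Complex.norm_real,
          Real.norm_of_nonneg hT0.le, mul_comm]
        gcongr
        exact norm_le_pi_norm (fun j : Fin m => (α j : ℂ)) i
      have h8 := norm_le_pi_norm x j
      have h9 := Real.exp_pos (‖κ‖ + 1)
      nlinarith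
  have hlat : ∀ l : Fin m → ℤ, (fun j => 2 * Real.pi * Complex.I * l j) ∈
      Metric.ball a (Real.sqrt T / 8) →
      eval (Fin.cons (Complex.exp (X₀ (ψ fun j => 2 * Real.pi * Complex.I * l j)))
        (ψ fun j => 2 * Real.pi * Complex.I * l j) : Fin (m + 1) → ℂ) N = 0 := by
    intro l hl
    obtain ⟨h1, h2⟩ := hψ _ hl
    set x : Fin m → ℂ := ψ fun j => 2 * Real.pi * Complex.I * l j with hx
    have h3 := hsol (Fin.cons (X₀ x) x) (hX₀F x (hbs (hbh h1))) (by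
      have h4 := hΞW x (hbh h1)
      convert h4 using 2 with i
      refine Fin.cases ?_ (fun j => ?_) i
      · simp only [Fin.cons_zero]
      · simp only [Fin.cons_succ]
        have h5 := congrFun h2 j
        simp only [Pi.sub_apply] at h5
        have h6 : x j = Ξ x j + l j * (2 * Real.pi * Complex.I) := by
          linear_combination h5
        rw [h6, Complex.exp_add, Complex.exp_int_mul_two_pi_mul_I, mul_one])
    simpa using h3
  have hfl := hflat (Real.sqrt T / 8) (C₃ * (A * T) ^ d) hTR (fun j => T * α j)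
    (fun y => eval (Fin.cons (Complex.exp (X₀ (ψ y))) (ψ y) : Fin (m + 1) → ℂ) N)
    (by rw [haI]; exact hfd)
    (by
      rw [haI]
      exact fun y hy => hfb _ (hbs (hbh (hψ y hy).1)))
    (by rw [haI]; exact hlat)
  rw [haI] at hfl
  have haball : a ∈ Metric.ball a (Real.sqrt T / 2) := Metric.mem_ball_self (by positivity)
  have hΞa : ‖Ξ a‖ < c * (Real.sqrt T / 8) := by
    refine (hΞb a (hbh haball)).trans_lt ?_
    calc K * Real.log T < c / 8 * Real.sqrt T := hlog3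
      _ = c * (Real.sqrt T / 8) := by ring
  have hya : a - Ξ a ∈ Metric.ball a (c * (Real.sqrt T / 8)) := by
    rw [Metric.mem_ball, dist_eq_norm, sub_sub_cancel_left, norm_neg]
    exact hΞa
  have hya' : a - Ξ a ∈ Metric.ball a (Real.sqrt T / 8) := by
    refine Metric.ball_subset_ball ?_ hya
    nlinarith
  obtain ⟨h1, h2⟩ := hψ _ hya'
  have hψa : ψ (a - Ξ a) = a := by
    have h3 := hLip _ h1 a haball
    have h4 : ψ (a - Ξ a) - a = Ξ (ψ (a - Ξ a)) - Ξ a := by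
      have : ψ (a - Ξ a) = (a - Ξ a) + Ξ (ψ (a - Ξ a)) := by
        rw [← sub_eq_iff_eq_add]
        exact h2
      linear_combination this
    rw [← h4] at h3
    have h5 : ‖ψ (a - Ξ a) - a‖ = 0 := by
      have := norm_nonneg (ψ (a - Ξ a) - a)
      linarith
    exact sub_eq_zero.1 (norm_eq_zero.1 h5)
  have h3 := hfl _ hya
  simp only [hψa] at h3
  have h4 := hTlow (X₀ a) (((hX₀ a (Metric.mem_ball_self (by positivity))).2).trans
    (min_le_right _ _)) (hX₀F a (Metric.mem_ball_self (by positivity)))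
  have h5 : T ^ C₂ * ‖eval (Fin.cons (Complex.exp (X₀ a)) a : Fin (m + 1) → ℂ) N‖ ≤
      T ^ C₂ * (C₃ * (A * T) ^ d * Real.exp (-c * (Real.sqrt T / 8))) := by gcongr
  have h6 : T ^ C₂ * (C₃ * (A * T) ^ d * Real.exp (-c * (Real.sqrt T / 8))) =
      T ^ (d + C₂) * (C₃ * A ^ d * Real.exp (-(c / 8) * Real.sqrt T)) := by
    have h7 : -c * (Real.sqrt T / 8) = -(c / 8) * Real.sqrt T := by ring
    rw [h7, mul_pow, pow_add]
    ring
  linarith

end Pool.Agent.EXQ
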