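import Pool.Agent.EXQ.Defs

/-!
# EXQ / TopCh: linear change of coordinates and the leading form
-/

set_option autoImplicit false

namespace Pool.Agent.EXQ

open MvPolynomial

/-- the substitution `x = B' x'` -/
noncomputable def sb {n : ℕ} (B' : Matrix (Fin n) (Fin n) ℤ) :
    MvPolynomial (Fin n) ℂ →ₐ[ℂ] MvPolynomial (Fin n) ℂ :=
  aeval fun i => ∑ j, (B' i j : ℂ) • (X j : MvPolynomial (Fin n) ℂ)

private theorem sb_X {n : ℕ} (B' : Matrix (Fin n) (Fin n) ℤ) (i : Fin n) :
    sb B' (X i) = ∑ j, (B' i j : ℂ) • (X j : MvPolynomial (Fin n) ℂ) := by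
  rw [sb, aeval_X]

private theorem sb_sb {n : ℕ} (B B' : Matrix (Fin n) (Fin n) ℤ) (h : B' * B = 1)
    (F : MvPolynomial (Fin n) ℂ) : sb B (sb B' F) = F := by
  have h1 : (sb B).comp (sb B') = AlgHom.id ℂ _ := by
    refine algHom_ext fun i => ?_
    rw [AlgHom.comp_apply, sb_X, map_sum, AlgHom.id_apply]
    simp only [map_smul, sb_X, Finset.smul_sum, smul_smul]
    rw [Finset.sum_comm]
    have h2 : ∀ k, ∑ j, ((B' i j : ℂ) * (B j k : ℂ)) • (X k : MvPolynomial (Fin n) ℂ) =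
        (((1 : Matrix (Fin n) (Fin n) ℤ) i k : ℤ) : ℂ) • X k := by
      intro k
      rw [← Finset.sum_smul, ← h, Matrix.mul_apply]
      push_cast
      rfl
    rw [Finset.sum_congr rfl fun k _ => h2 k, Finset.sum_eq_single i]
    · simp
    · intro k _ hk
      rw [Matrix.one_apply_ne (Ne.symm hk), Int.cast_zero, zero_smul]
    · intro hi
      exact absurd (Finset.mem_univ i) hi
  exact DFunLike.congr_fun h1 F

private theorem inv_comm {n : ℕ} {B B' : Matrix (Fin n) (Fin n) ℤ} (h : B * B' = 1) :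
    B' * B = 1 := mul_eq_one_comm.1 h

theorem sb_irreducible {n : ℕ} (B B' : Matrix (Fin n) (Fin n) ℤ) (hBB' : B * B' = 1)
    (F : MvPolynomial (Fin n) ℂ) (hF : Irreducible F) : Irreducible (sb B' F) := by
  let e : MvPolynomial (Fin n) ℂ ≃ₐ[ℂ] MvPolynomial (Fin n) ℂ :=
    AlgEquiv.ofAlgHom (sb B') (sb B) (AlgHom.ext fun F => sb_sb B' B hBB' F)
      (AlgHom.ext fun F => sb_sb B B' (inv_comm hBB') F)
  exact (MulEquiv.irreducible_iff e).2 hF

private theorem sb_isHom {n : ℕ} (B' : Matrix (Fin n) (Fin n) ℤ) {F : MvPolynomial (Fin n) ℂ}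
    {d : ℕ} (h : F.IsHomogeneous d) : (sb B' F).IsHomogeneous d := by
  have h1 := h.aeval (n := 1) (S := ℂ)
    (fun i => ∑ j, (B' i j : ℂ) • (X j : MvPolynomial (Fin n) ℂ)) (fun i => by
      refine IsHomogeneous.sum _ _ _ fun j _ => ?_
      rw [smul_eq_C_mul]
      exact (isHomogeneous_X ℂ j).C_mul _)
  rwa [one_mul] at h1

private theorem sb_comp {n : ℕ} (B' : Matrix (Fin n) (Fin n) ℤ) (F : MvPolynomial (Fin n) ℂ)
    (d : ℕ) : homogeneousComponent d (sb B' F) = sb B' (homogeneousComponent d F) := by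
  have h1 : ∀ i, homogeneousComponent d (sb B' (homogeneousComponent i F)) =
      if d = i then sb B' (homogeneousComponent i F) else 0 := fun i =>
    homogeneousComponent_of_mem ((mem_homogeneousSubmodule _ _).2
      (sb_isHom B' (homogeneousComponent_isHomogeneous i F)))
  conv_lhs => rw [← sum_homogeneousComponent F, map_sum, map_sum]
  rw [Finset.sum_congr rfl fun i _ => h1 i, Finset.sum_ite_eq]
  split_ifs with h
  · rfl
  · rw [Finset.mem_range, not_lt] at h
    rw [homogeneousComponent_eq_zero _ _ (by omega), map_zero]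

private theorem sb_deg_le {n : ℕ} (B' : Matrix (Fin n) (Fin n) ℤ) (F : MvPolynomial (Fin n) ℂ) :
    (sb B' F).totalDegree ≤ F.totalDegree := by
  conv_lhs => rw [← sum_homogeneousComponent F, map_sum]
  refine totalDegree_finsetSum_le fun i hi => ?_
  rw [Finset.mem_range] at hi
  exact (sb_isHom B' (homogeneousComponent_isHomogeneous i F)).totalDegree_le.trans (by omega)

theorem sb_top {n : ℕ} (B B' : Matrix (Fin n) (Fin n) ℤ) (hBB' : B * B' = 1)
    (F : MvPolynomial (Fin n) ℂ) :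
    homogeneousComponent (sb B' F).totalDegree (sb B' F) =
      sb B' (homogeneousComponent F.totalDegree F) := by
  have h1 : (sb B' F).totalDegree = F.totalDegree := by
    refine le_antisymm (sb_deg_le B' F) ?_
    have h2 := sb_deg_le B (sb B' F)
    rwa [sb_sb B B' (inv_comm hBB')] at h2
  rw [h1, sb_comp]

private theorem sb_sum {m : ℕ} (B' : Matrix (Fin (m + 1)) (Fin (m + 1)) ℤ) (a : Fin (m + 1) → ℤ) :
    sb B' (∑ j, C (a j : ℂ) * X j) =
      ∑ k, C (((∑ j, a j * B' j k : ℤ)) : ℂ) * (X k : MvPolynomial (Fin (m + 1)) ℂ) := by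
  rw [map_sum]
  have h1 : ∀ j, sb B' (C (a j : ℂ) * X j) =
      ∑ k, C ((a j * B' j k : ℤ) : ℂ) * (X k : MvPolynomial (Fin (m + 1)) ℂ) := by
    intro j
    rw [map_mul, sb_X, ← algebraMap_eq, AlgHom.commutes, algebraMap_eq, Finset.mul_sum]
    refine Finset.sum_congr rfl fun k _ => ?_
    rw [smul_eq_C_mul, ← mul_assoc, ← C_mul]
    push_cast
    rfl
  rw [Finset.sum_congr rfl fun j _ => h1 j, Finset.sum_comm]
  refine Finset.sum_congr rfl fun k _ => ?_
  rw [← Finset.sum_mul, ← map_sum]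
  push_cast
  rfl

/-- `a = g B_0`: the form `∑ a_j x_j` becomes `g x'_0` -/
theorem sb_form {m : ℕ} (B B' : Matrix (Fin (m + 1)) (Fin (m + 1)) ℤ) (hBB' : B * B' = 1)
    (c : ℂ) (g : ℤ) (a : Fin (m + 1) → ℤ) (ha : ∀ j, a j = g * B 0 j) :
    sb B' (C c * ∑ j, C (a j : ℂ) * X j) = C (c * g) * X 0 := by
  rw [map_mul, sb_sum, ← algebraMap_eq, AlgHom.commutes, algebraMap_eq]
  have h1 : ∀ k, ∑ j, a j * B' j k = g * (1 : Matrix (Fin (m + 1)) (Fin (m + 1)) ℤ) 0 k := by
    intro k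
    rw [← hBB', Matrix.mul_apply, Finset.mul_sum]
    exact Finset.sum_congr rfl fun j _ => by rw [ha j, mul_assoc]
  rw [Finset.sum_eq_single (0 : Fin (m + 1))]
  · rw [h1, Matrix.one_apply_eq, mul_one, C_mul, mul_assoc]
  · intro k _ hk
    rw [h1, Matrix.one_apply_ne (Ne.symm hk), mul_zero, Int.cast_zero, C_0, zero_mul]
  · intro h
    exact absurd (Finset.mem_univ _) h

/-- if `F` becomes `a x'_0 + b` then `F` was a rational linear form plus a constant -/
theorem sb_lin {m : ℕ} (B B' : Matrix (Fin (m + 1)) (Fin (m + 1)) ℤ) (hBB' : B * B' = 1)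
    (F : MvPolynomial (Fin (m + 1)) ℂ) (a b : ℂ) (h : sb B' F = C a * X 0 + C b) :
    F = C a * ∑ j, C (B 0 j : ℂ) * X j + C b := by
  have h1 := congrArg (sb B) h
  rw [sb_sb B B' (inv_comm hBB'), map_add, map_mul, sb_X, ← algebraMap_eq, AlgHom.commutes,
    AlgHom.commutes, algebraMap_eq] at h1
  rw [h1]
  congr 2
  exact Finset.sum_congr rfl fun j _ => smul_eq_C_mul _ _

/-- an integer vector orthogonal to all integer vectors `v` with `B_0 · v = 0` is an integer multiple of `B_0` -/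
theorem mul_of_orth {m : ℕ} (B B' : Matrix (Fin (m + 1)) (Fin (m + 1)) ℤ) (hBB' : B * B' = 1)
    (μ : Fin (m + 1) → ℤ) (hμ : ∀ v : Fin (m + 1) → ℤ, ∑ j, B 0 j * v j = 0 → ∑ j, μ j * v j = 0) :
    ∃ t : ℤ, ∀ j, μ j = t * B 0 j := by
  have h00 : ∑ k, B 0 k * B' k 0 = 1 := by
    have h := congrFun (congrFun hBB' 0) 0
    rw [Matrix.mul_apply, Matrix.one_apply_eq] at h
    exact h
  refine ⟨∑ k, μ k * B' k 0, fun j => ?_⟩
  have h1 := hμ (fun k => (if k = j then 1 else 0) - B 0 j * B' k 0) (by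
    simp only [mul_sub, Finset.sum_sub_distrib, mul_ite, mul_one, mul_zero, Finset.sum_ite_eq',
      Finset.mem_univ, if_true]
    have h2 : ∑ k, B 0 k * (B 0 j * B' k 0) = B 0 j * ∑ k, B 0 k * B' k 0 := by
      rw [Finset.mul_sum]
      exact Finset.sum_congr rfl fun k _ => by ring
    rw [h2, h00]
    ring)
  simp only [mul_sub, Finset.sum_sub_distrib, mul_ite, mul_one, mul_zero, Finset.sum_ite_eq',
    Finset.mem_univ, if_true] at h1
  have h2 : ∑ k, μ k * (B 0 j * B' k 0) = (∑ k, μ k * B' k 0) * B 0 j := by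
    rw [Finset.sum_mul]
    exact Finset.sum_congr rfl fun k _ => by ring
  rw [h2] at h1
  linarith

end Pool.Agent.EXQ
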