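import Pool.Agent.EXQ.CaseX
import Pool.Agent.EXQ.Change
import Pool.Agent.EXQ.TopCh
import Pool.Agent.EXR.LatR
import Pool.Agent.EXM.Perm

/-!
# EXQ / MainP: the product theorem

PROOF.  If `G` is not `C c * ∑ a_j X_j` with integers `a_j`: `EXM.mainM`. Otherwise `a ≠ 0`, `prim_row`: `a_j = g B_0j`; `change`, `sb_form`, `sb_top`:
`X_0` divides the leading form of `sb B' F`; `sb_lin`; the periods of `G` are the `v` with `B_0 · v = 0`, so `μ = t B_0` (`mul_of_orth`)
and `w^μ = (w'_0)^t`; `caseX`.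
-/

set_option autoImplicit false

namespace Pool.Agent.EXQ

open MvPolynomial Filter Topology Pool.Agent.EXP Pool.Agent.EXM

theorem mainP {n : ℕ} (F G : MvPolynomial (Fin n) ℂ) (hF : Irreducible F)
    (hG : Irreducible G) (hGL : G ∣ homogeneousComponent F.totalDegree F)
    (hlin : ∀ (a b : ℂ) (c : Fin n → ℤ), F ≠ C a * ∑ j, C (c j : ℂ) * X j + C b)
    (Q : Ideal (MvPolynomial (Fin n) ℂ)) (hQ : Q.IsPrime)
    (hY : ∀ j, (X j : MvPolynomial (Fin n) ℂ) ∉ Q)
    (hdim : Algebra.trdeg ℂ (MvPolynomial (Fin n) ℂ ⧸ Q) = 1) (μ : Fin n → ℤ)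
    (hμG : ∀ v : Fin n → ℤ, (∀ x : Fin n → ℂ, eval (fun j => x j + v j) G = eval x G) →
      ∑ j, μ j * v j = 0)
    (hμW : ∀ c : ℂ, ∃ w ∈ Tz Q, ∏ j, w j ^ μ j ≠ c) : Dens F Q := by
  by_cases hrat : ∀ (c : ℂ) (a : Fin n → ℤ), G ≠ C c * ∑ j, C (a j : ℂ) * X j
  · exact fun h hh => mainM F G hF hG hGL hrat Q hQ hY hdim μ hμG hμW h hh
  push Not at hrat
  obtain ⟨c, a, hGa⟩ := hrat
  obtain ⟨m, rfl⟩ : ∃ m, n = m + 1 := by
    cases n with
    | zero =>
      exfalso
      obtain ⟨w, -, hw⟩ := hμW 1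
      exact hw (by simp)
    | succ m => exact ⟨m, rfl⟩
  have ha : a ≠ 0 := by
    rintro rfl
    apply hG.ne_zero
    rw [hGa]
    simp
  obtain ⟨g, B, B', -, hBB', hgB⟩ := Pool.Agent.EXR.prim_row a ha
  obtain ⟨Q', hQ', hY', hdim', hfwd, -, hdens⟩ := change B B' hBB' F Q hQ hY hdim
  have hsbG : sb B' G = C (c * g) * X 0 := by
    rw [hGa]
    exact sb_form B B' hBB' c g a hgB
  have hX : X 0 ∣ homogeneousComponent (sb B' F).totalDegree (sb B' F) := by
    rw [sb_top B B' hBB' F]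
    have h1 : sb B' G ∣ sb B' (homogeneousComponent F.totalDegree F) := map_dvd (sb B') hGL
    rw [hsbG] at h1
    exact (dvd_mul_left _ _).trans h1
  have hlin' : ∀ a b : ℂ, sb B' F ≠ C a * X 0 + C b := by
    intro a' b' h
    exact hlin a' b' (B 0) (sb_lin B B' hBB' F a' b' h)
  obtain ⟨t, ht⟩ := mul_of_orth B B' hBB' μ (by
    intro v hv
    apply hμG v
    intro x
    rw [hGa]
    simp only [map_mul, map_sum, eval_C, eval_X]
    congr 1
    have h1 : ∑ j, (a j : ℂ) * (v j : ℂ) = 0 := by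
      have h2 : ∑ j, a j * v j = 0 := by
        have h3 : ∑ j, a j * v j = g * ∑ j, B 0 j * v j := by
          rw [Finset.mul_sum]
          refine Finset.sum_congr rfl fun j _ => ?_
          rw [hgB j]
          ring
        rw [h3, hv, mul_zero]
      exact_mod_cast h2
    simp only [mul_add, Finset.sum_add_distrib]
    rw [h1, add_zero])
  refine hdens (caseX (sb B' F) (sb_irreducible B B' hBB' F hF) hX hlin' Q' hQ' hY' hdim' ?_)
  intro c'
  by_contra hcon
  push Not at hcon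
  obtain ⟨w, hw, hne⟩ := hμW (c' ^ t)
  apply hne
  have h1 : ∏ j, w j ^ B 0 j = c' := hcon _ (hfwd w hw)
  rw [← h1, ← Finset.prod_zpow]
  refine Finset.prod_congr rfl fun j _ => ?_
  rw [ht j, mul_comm, zpow_mul]

end Pool.Agent.EXQ
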