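import Pool.Agent.EXQ.Lim
import Pool.Agent.EXM.Seq

/-!
# EXQ / Phases: Case B (all roots tend to infinity), factor `X_0` of the leading form
-/

set_option autoImplicit false

namespace Pool.Agent.EXQ

open MvPolynomial Filter Topology Pool.Agent.EXP Pool.Agent.EXM

/-- uniform gap for the real parts -/
private theorem ph_gap {m : ℕ} (F : MvPolynomial (Fin (m + 1)) ℂ) (α : Fin m → ℝ)
    (hL1 : ∃ y : ℂ, eval (Fin.cons y (fun j => (α j : ℂ)) : Fin (m + 1) → ℂ)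
      (homogeneousComponent F.totalDegree F) ≠ 0) (C : ℝ) :
    ∃ K : ℝ, ∀ᶠ T : ℝ in atTop, ∀ X : ℂ, eval (Fin.cons X (ipt T α) : Fin (m + 1) → ℂ) F = 0 →
      |X.re| ≤ C * Real.log T → |X.re| ≤ K := by
  by_contra hcon
  push Not at hcon
  have h1 : ∀ k : ℕ, ∃ T : ℝ, (k : ℝ) ≤ T ∧ ∃ X : ℂ,
      eval (Fin.cons X (ipt T α) : Fin (m + 1) → ℂ) F = 0 ∧ |X.re| ≤ C * Real.log T ∧
        (k : ℝ) < |X.re| := by
    intro k
    obtain ⟨T, ⟨X, hX⟩, hT2⟩ := ((hcon k).and_eventually (eventually_ge_atTop (k : ℝ))).exists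
    exact ⟨T, hT2, X, hX⟩
  choose T hT X hX hXC hXk using h1
  have hTt : Tendsto T atTop atTop := tendsto_atTop_mono hT tendsto_natCast_atTop_atTop
  obtain ⟨K, hK⟩ := re_bdd F α hL1 T hTt X hX C (Eventually.of_forall hXC)
  obtain ⟨k, hk, hk2⟩ := (hK.and
    (tendsto_natCast_atTop_atTop.eventually (eventually_ge_atTop K))).exists
  linarith [hXk k]

/-- no bounded roots -/
private theorem ph_nobdd {m : ℕ} (F : MvPolynomial (Fin (m + 1)) ℂ) (α : Fin m → ℝ)
    (hB : ∀ a, 1 ≤ a → topc F a = 0) (hJ : eval (fun j => (α j : ℂ)) (topc F 0) ≠ 0) (M : ℝ) :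
    ∀ᶠ T : ℝ in atTop, ∀ X : ℂ, ‖X‖ ≤ M →
      eval (Fin.cons X (ipt T α) : Fin (m + 1) → ℂ) F ≠ 0 := by
  have h1 : ∀ (x : Fin m → ℂ) (X : ℂ), (pj F x).eval X = eval x (topc F 0) := by
    intro x X
    rw [pj, Polynomial.eval_finsetSum]
    by_cases h0 : 0 ∈ (finSuccEquiv ℂ m F).support
    · rw [Finset.sum_eq_single 0]
      · simp
      · intro a _ ha
        rw [hB a (Nat.one_le_iff_ne_zero.2 ha)]
        simp
      · intro h
        exact absurd h0 h
    · exfalso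
      apply hJ
      rw [topc, Polynomial.notMem_support_iff.1 h0]
      simp
  have h2 : eval (ipt 1 α) (topc F 0) =
      Complex.I ^ xd F * eval (fun j => (α j : ℂ)) (topc F 0) := by
    have h3 := congrArg (Polynomial.eval 0) (pj_smul F Complex.I fun j => (α j : ℂ))
    rw [Polynomial.eval_mul, Polynomial.eval_C, h1, h1] at h3
    rw [← h3]
    have h5 : ipt 1 α = fun j => Complex.I * (α j : ℂ) := by
      funext j
      simp [ipt]
    rw [h5]
  set c := ‖eval (ipt 1 α) (topc F 0)‖ with hc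
  have hc0 : 0 < c := by
    rw [hc, h2]
    exact norm_pos_iff.2 (mul_ne_zero (pow_ne_zero _ Complex.I_ne_zero) hJ)
  obtain ⟨C, hC0, hC⟩ := lim_top F (max ‖ipt 1 α‖ M)
  filter_upwards [eventually_ge_atTop (1 : ℝ), eventually_gt_atTop (C / c)] with T hT1 hT2 X hX h0
  have hT0 : (0 : ℝ) < T := by linarith
  have h3 := hC T hT1 (ipt 1 α) (le_max_left _ _) X (hX.trans (le_max_right _ _))
  have h4 : (fun j => (T : ℂ) * ipt 1 α j) = ipt T α := by
    funext j
    simp only [ipt, Complex.ofReal_one]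
    ring
  rw [h4, h0, zero_div, zero_sub, norm_neg, h1, ← hc] at h3
  rw [div_lt_iff₀ hc0] at hT2
  rw [le_div_iff₀ hT0] at h3
  linarith

private theorem ph_log (K' δ' : ℝ) (hδ' : 0 < δ') :
    ∃ δ : ℝ, 0 < δ ∧ ∀ X b : ℂ, |X.re| ≤ K' → ‖Complex.exp X - b‖ < δ →
      ∃ l : ℂ, Complex.exp l = b ∧ ‖X - l‖ ≤ δ' := by
  refine ⟨Real.exp (-K') * min (1 / 2) (δ' / 2), by positivity, fun X b hX hb => ?_⟩
  set u : ℂ := b * Complex.exp (-X) - 1 with hu
  have h1 : u = (b - Complex.exp X) * Complex.exp (-X) := by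
    rw [hu, sub_mul, ← Complex.exp_add, add_neg_cancel, Complex.exp_zero]
  have h2 : ‖u‖ ≤ min (1 / 2) (δ' / 2) := by
    rw [h1, norm_mul, Complex.norm_exp, Complex.neg_re, norm_sub_rev]
    have h3 : Real.exp (-X.re) ≤ Real.exp K' :=
      Real.exp_le_exp.2 (by linarith [neg_abs_le X.re])
    calc ‖Complex.exp X - b‖ * Real.exp (-X.re)
        ≤ (Real.exp (-K') * min (1 / 2) (δ' / 2)) * Real.exp K' :=
          mul_le_mul hb.le h3 (Real.exp_pos _).le (by positivity)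
      _ = min (1 / 2) (δ' / 2) := by
          rw [mul_right_comm, ← Real.exp_add, neg_add_cancel, Real.exp_zero, one_mul]
  have h3 : ‖u‖ ≤ 1 / 2 := h2.trans (min_le_left _ _)
  have h4 : ‖u‖ ≤ δ' / 2 := h2.trans (min_le_right _ _)
  have h5 : 1 + u ≠ 0 := by
    intro h
    have h6 : u = -1 := by linear_combination h
    rw [h6, norm_neg, norm_one] at h3
    norm_num at h3
  refine ⟨X + Complex.log (1 + u), ?_, ?_⟩
  · rw [Complex.exp_add, Complex.exp_log h5, hu, add_sub_cancel, mul_comm, mul_assoc,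
      ← Complex.exp_add, neg_add_cancel, Complex.exp_zero, mul_one]
  · rw [sub_add_cancel_left, norm_neg]
    refine (Complex.norm_log_one_add_half_le_self h3).trans ?_
    linarith

private theorem ph_sep (K' : ℝ) (B : Set ℂ) (hBf : B.Finite) :
    ∃ δ' : ℝ, 0 < δ' ∧ δ' ≤ 1 / 4 ∧ ∀ l l' : ℂ, |l.re| ≤ K' → Complex.exp l ∈ B →
      Complex.exp l' ∈ B → ‖l' - l‖ < 4 * δ' → l' = l := by
  classical
  obtain ⟨μ, hμ, hμB⟩ : ∃ μ : ℝ, 0 < μ ∧ ∀ b ∈ B, ∀ b' ∈ B, b ≠ b' → μ ≤ ‖b - b'‖ := by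
    set P := (hBf.toFinset ×ˢ hBf.toFinset).filter (fun p => p.1 ≠ p.2) with hP
    rcases P.eq_empty_or_nonempty with h0 | h0
    · refine ⟨1, one_pos, fun b hb b' hb' hne => ?_⟩
      exfalso
      have : (b, b') ∈ P := by
        rw [hP, Finset.mem_filter, Finset.mem_product]
        exact ⟨⟨hBf.mem_toFinset.2 hb, hBf.mem_toFinset.2 hb'⟩, hne⟩
      rw [h0] at this
      exact absurd this (Finset.notMem_empty _)
    · obtain ⟨p, hp, hmin⟩ := P.exists_min_image (fun p => ‖p.1 - p.2‖) h0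
      refine ⟨‖p.1 - p.2‖, norm_pos_iff.2 (sub_ne_zero.2 (Finset.mem_filter.1 hp).2),
        fun b hb b' hb' hne => ?_⟩
      exact hmin (b, b') (by
        rw [hP, Finset.mem_filter, Finset.mem_product]
        exact ⟨⟨hBf.mem_toFinset.2 hb, hBf.mem_toFinset.2 hb'⟩, hne⟩)
  set δ' := min (1 / 4) (μ * Real.exp (-K') / 16) with hδ'
  have hδ'0 : 0 < δ' := lt_min (by norm_num) (by positivity)
  refine ⟨δ', hδ'0, min_le_left _ _, fun l l' hl hlB hlB' hd => ?_⟩
  have hd1 : ‖l' - l‖ < 1 := by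
    have := min_le_left (1 / 4) (μ * Real.exp (-K') / 16)
    rw [← hδ'] at this
    linarith
  have hexp : Complex.exp l' = Complex.exp l := by
    by_contra hne
    have h1 := hμB _ hlB' _ hlB hne
    have h2 : Complex.exp l' - Complex.exp l =
        Complex.exp l * (Complex.exp (l' - l) - 1) := by
      rw [mul_sub, ← Complex.exp_add, mul_one, add_sub_cancel]
    rw [h2, norm_mul, Complex.norm_exp] at h1
    have h3 : ‖Complex.exp (l' - l) - 1‖ ≤ 2 * ‖l' - l‖ := Complex.norm_exp_sub_one_le hd1.le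
    have h4 : Real.exp l.re ≤ Real.exp K' := Real.exp_le_exp.2 ((le_abs_self _).trans hl)
    have h5 : Real.exp l.re * ‖Complex.exp (l' - l) - 1‖ ≤ Real.exp K' * (2 * ‖l' - l‖) :=
      mul_le_mul h4 h3 (norm_nonneg _) (Real.exp_pos _).le
    have h6 : δ' ≤ μ * Real.exp (-K') / 16 := min_le_right _ _
    have h7 : Real.exp K' * (2 * ‖l' - l‖) ≤ Real.exp K' * (2 * (4 * (μ * Real.exp (-K') / 16))) := by
      refine mul_le_mul_of_nonneg_left ?_ (Real.exp_pos _).le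
      linarith
    have h8 : Real.exp K' * (2 * (4 * (μ * Real.exp (-K') / 16))) = μ / 2 := by
      have h9 : Real.exp K' * Real.exp (-K') = 1 := by
        rw [← Real.exp_add, add_neg_cancel, Real.exp_zero]
      linear_combination μ / 2 * h9
    linarith
  obtain ⟨n, hn⟩ := Complex.exp_eq_exp_iff_exists_int.1 hexp
  have h1 : l' - l = n * (2 * Real.pi * Complex.I) := by rw [hn]; ring
  rw [h1] at hd1
  have h2 : ‖(n : ℂ) * (2 * Real.pi * Complex.I)‖ = |(n : ℝ)| * (2 * Real.pi) := by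
    rw [norm_mul, norm_mul, norm_mul, Complex.norm_I, Complex.norm_real, Complex.norm_intCast,
      Real.norm_of_nonneg Real.pi_pos.le]
    simp
  rw [h2] at hd1
  have hn0 : n = 0 := by
    by_contra h0
    have h3 : (1 : ℝ) ≤ |(n : ℝ)| := by
      rw [← Int.cast_abs]
      exact_mod_cast Int.one_le_abs h0
    nlinarith [Real.pi_gt_three]
  rw [hn, hn0]
  simp

private theorem ph_L1 {m e : ℕ} (F R : MvPolynomial (Fin (m + 1)) ℂ)
    (hL : homogeneousComponent F.totalDegree F = X 0 ^ e * R)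
    (α : Fin m → ℝ) (hR : eval (rpt 0 α) R ≠ 0) :
    ∃ y : ℂ, eval (Fin.cons y (fun j => (α j : ℂ)) : Fin (m + 1) → ℂ)
      (homogeneousComponent F.totalDegree F) ≠ 0 := by
  have hc : Continuous fun y : ℂ => (Fin.cons y (fun j => (α j : ℂ)) : Fin (m + 1) → ℂ) := by
    refine continuous_pi fun i => ?_
    refine Fin.cases ?_ (fun j => ?_) i
    · simp only [Fin.cons_zero]
      exact continuous_id
    · simp only [Fin.cons_succ]
      exact continuous_const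
  have h1 : ContinuousAt (fun y : ℂ => eval (Fin.cons y (fun j => (α j : ℂ)) :
      Fin (m + 1) → ℂ) R) 0 := ((MvPolynomial.continuous_eval R).comp hc).continuousAt
  have h2 : eval (Fin.cons (0 : ℂ) (fun j => (α j : ℂ)) : Fin (m + 1) → ℂ) R ≠ 0 := by
    simpa [rpt] using hR
  have h3 := h1.eventually_ne h2
  obtain ⟨y, hy1, hy2⟩ := ((h3.filter_mono nhdsWithin_le_nhds).and
    (self_mem_nhdsWithin : ({0}ᶜ : Set ℂ) ∈ 𝓝[≠] (0 : ℂ))).exists
  refine ⟨y, ?_⟩
  rw [hL, map_mul, map_pow, eval_X, Fin.cons_zero]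
  exact mul_ne_zero (pow_ne_zero _ hy2) hy1

theorem phases {m e : ℕ} (F R : MvPolynomial (Fin (m + 1)) ℂ)
    (hL : homogeneousComponent F.totalDegree F = X 0 ^ e * R) (he : 1 ≤ e)
    (α : Fin m → ℝ) (hR : eval (rpt 0 α) R ≠ 0) (Δ : MvPolynomial (Fin m) ℂ)
    (hΔ : ∀ x : Fin m → ℂ, eval x Δ ≠ 0 →
      (fp F x).natDegree = degreeOf 0 F ∧ (fp F x).Separable)
    (hΔα : eval (fun j => (α j : ℂ)) (homogeneousComponent Δ.totalDegree Δ) ≠ 0)
    (hB : ∀ a, 1 ≤ a → topc F a = 0) (hJ : eval (fun j => (α j : ℂ)) (topc F 0) ≠ 0)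
    (ς : ℝ) (hς : ς ≠ 0) (D : ℝ) (B : Set ℂ) (hBf : B.Finite) :
    ∃ (T : ℕ → ℝ) (X : ℕ → ℂ), Branch F 0 α (fun _ => 0) T X ∧
      ((∀ᶠ k in atTop, ς * (X k).re ≤ -D * Real.log (T k)) ∨
        ∃ lam : ℂ, lam ≠ 0 ∧ lam ∉ B ∧
          Tendsto (fun k => Complex.exp (X k)) atTop (𝓝 lam)) := by
  have hL1 := ph_L1 F R hL α hR
  have hα : eval (rpt 0 α) (X 0 : MvPolynomial (Fin (m + 1)) ℂ) = 0 := by simp [rpt]
  have hG0 : eval (rpt 0 α) (pderiv 0 (X 0 : MvPolynomial (Fin (m + 1)) ℂ)) ≠ 0 := by simp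
  have hh : ∀ j : Fin m, eval (rpt 0 α) (pderiv j.succ (X 0 : MvPolynomial (Fin (m + 1)) ℂ)) =
      -(((fun _ => 0 : Fin m → ℝ) j : ℝ) : ℂ) *
        eval (rpt 0 α) (pderiv 0 (X 0 : MvPolynomial (Fin (m + 1)) ℂ)) := by
    intro j
    rw [pderiv_X_of_ne (Fin.succ_ne_zero j).symm]
    simp
  obtain ⟨η₀, hη₀, hsep⟩ := cluster_sep F 0 α hL1
  have hsh := fun (ε : ℝ) (hε : 0 < ε) => sheet_inf F (X 0) R (isHomogeneous_X _ _) hL he 0 α
    (fun _ => 0) hα hG0 hh hR Δ hΔ hΔα ε hε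
  have hL0 : eval (rpt 0 α) (homogeneousComponent F.totalDegree F) = 0 := by
    rw [hL, map_mul, map_pow, hα, zero_pow (by omega), zero_mul]
  obtain ⟨K, hK⟩ := cluster_min F 0 α hL0 hL1 ς η₀ hη₀
  obtain ⟨C, hC1, hCD⟩ : ∃ C : ℝ, 1 ≤ C ∧ (|D| + |K|) / |ς| ≤ C :=
    ⟨max 1 _, le_max_left _ _, le_max_right _ _⟩
  obtain ⟨K', hK'⟩ := ph_gap F α hL1 C
  by_contra hneg
  have hgr : ∀ᶠ T : ℝ in atTop, ∀ X : ℂ, eval (Fin.cons X (ipt T α) : Fin (m + 1) → ℂ) F = 0 →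
      ‖X - Complex.I * T * (0 : ℝ)‖ ≤ η₀ * T → -D * Real.log T < ς * X.re := by
    by_contra h
    rw [not_eventually] at h
    push Not at h
    obtain ⟨T, hT, hT'⟩ := exists_seq_forall_of_frequently h
    choose X hX1 hX2 hX3 using hT'
    exact hneg ⟨T, X, mk_branch F 0 α (fun _ => 0) η₀ hsep hsh T hT X hX1 hX2,
      Or.inl (Eventually.of_forall hX3)⟩
  have hnb : ∀ δ : ℝ, 0 < δ → ∀ᶠ T : ℝ in atTop, ∀ X : ℂ,
      eval (Fin.cons X (ipt T α) : Fin (m + 1) → ℂ) F = 0 →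
      ‖X - Complex.I * T * (0 : ℝ)‖ ≤ η₀ * T → |X.re| ≤ K' →
        ∃ b ∈ B, ‖Complex.exp X - b‖ < δ := by
    intro δ hδ
    by_contra h
    rw [not_eventually] at h
    push Not at h
    obtain ⟨T, hT, hT'⟩ := exists_seq_forall_of_frequently h
    choose X hX1 hX2 hX3 hX4 using hT'
    have hbd : ∀ k, Complex.exp (X k) ∈ Metric.closedBall (0 : ℂ) (Real.exp K') := by
      intro k
      rw [Metric.mem_closedBall, dist_zero_right, Complex.norm_exp]
      exact Real.exp_le_exp.2 ((le_abs_self _).trans (hX3 k))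
    obtain ⟨lam, -, φ, hφ, hlam⟩ := tendsto_subseq_of_bounded Metric.isBounded_closedBall hbd
    refine hneg ⟨T ∘ φ, X ∘ φ, mk_branch F 0 α (fun _ => 0) η₀ hsep hsh _
      (hT.comp hφ.tendsto_atTop) _ (fun k => hX1 _) (fun k => hX2 _), Or.inr ⟨lam, ?_, ?_, hlam⟩⟩
    · have h5 : Real.exp (-K') ≤ ‖lam‖ := ge_of_tendsto' hlam.norm (fun k => by
        simp only [Function.comp_apply]
        rw [Complex.norm_exp]
        exact Real.exp_le_exp.2 (by linarith [neg_abs_le (X (φ k)).re, hX3 (φ k)]))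
      exact norm_pos_iff.1 (lt_of_lt_of_le (Real.exp_pos _) h5)
    · intro hb
      have h6 : δ ≤ ‖lam - lam‖ := ge_of_tendsto' ((hlam.sub_const lam).norm)
        (fun k => hX4 (φ k) lam hb)
      rw [sub_self, norm_zero] at h6
      linarith
  -- the constants
  obtain ⟨δ', hδ'0, hδ'1, hδ'⟩ := ph_sep (K' + 1) B hBf
  obtain ⟨δ, hδ0, hδ⟩ := ph_log K' δ' hδ'0
  obtain ⟨η, hη, hsh1⟩ := hsh 1 one_pos
  set θ : ℝ := min η η₀ / (4 * (‖ipt 1 α‖ + 1)) with hθ
  have hmin0 : 0 < min η η₀ := lt_min hη hη₀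
  have hα0 : 0 ≤ ‖ipt 1 α‖ := norm_nonneg _
  have hθ0 : 0 < θ := by positivity
  have hθα : θ * ‖ipt 1 α‖ ≤ min η η₀ / 4 := by
    rw [hθ, div_mul_eq_mul_div, div_le_div_iff₀ (by positivity) (by norm_num)]
    nlinarith
  obtain ⟨T₁, hT₁⟩ := eventually_atTop.1 (hK'.and (hgr.and ((hnb δ hδ0).and (hsh1.and
    ((hsep (min η (η₀ / 4)) (lt_min hη (by positivity))).and (hK.and
      ((Real.tendsto_log_atTop.eventually (eventually_ge_atTop (K' + 2))).and
        ((Real.tendsto_log_atTop.eventually (eventually_ge_atTop (1 : ℝ))).and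
          ((eventually_ge_atTop (1 : ℝ)).and (eventually_ge_atTop (8 / η₀)))))))))))
  have hclu : ∀ (X : ℂ) (T : ℝ), X - Complex.I * T * ((0 : ℝ) : ℂ) = X := by
    intro X T
    simp
  -- the start
  obtain ⟨e1, e2, e3, e4, e5, ⟨X₁, hX₁, hX₁c, hX₁K⟩, e7, e8, e9, e10⟩ := hT₁ T₁ le_rfl
  have hT₁0 : 0 < T₁ := by linarith
  have hX₁re : |X₁.re| ≤ K' := by
    refine e1 X₁ hX₁ ?_
    have h2 := e2 X₁ hX₁ hX₁c
    have h5 : |ς * X₁.re| ≤ (|D| + |K|) * Real.log T₁ := by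
      rw [abs_le]
      have h6 := le_abs_self D
      have h7 := le_abs_self K
      have h8 := abs_nonneg D
      have h9 := abs_nonneg K
      constructor
      · nlinarith
      · nlinarith
    rw [abs_mul] at h5
    have h6 : 0 < |ς| := abs_pos.2 hς
    have h7 : |X₁.re| ≤ (|D| + |K|) / |ς| * Real.log T₁ := by
      rw [div_mul_eq_mul_div, le_div_iff₀ h6]
      linarith
    exact h7.trans (mul_le_mul_of_nonneg_right hCD (by linarith))
  have hX₁n : ‖X₁‖ ≤ η₀ / 4 * T₁ := by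
    have h1 := e5 X₁ hX₁ hX₁c
    rw [hclu] at h1
    exact h1.trans (mul_le_mul_of_nonneg_right (min_le_right _ _) hT₁0.le)
  obtain ⟨b, hbB, hb⟩ := e3 X₁ hX₁ hX₁c hX₁re
  obtain ⟨l, hl, hlX⟩ := hδ X₁ b hX₁re hb
  have hlre : |l.re| ≤ K' + 1 := by
    have h1 : |(X₁ - l).re| ≤ ‖X₁ - l‖ := Complex.abs_re_le_norm _
    rw [Complex.sub_re] at h1
    have h2 := abs_sub_abs_le_abs_sub l.re X₁.re
    rw [abs_sub_comm] at h2
    linarith
  have hln : ‖l‖ + δ' ≤ η₀ / 2 * T₁ := by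
    have h1 : ‖l‖ ≤ ‖X₁‖ + ‖X₁ - l‖ := by
      have := norm_sub_norm_le l X₁
      rw [norm_sub_rev] at this
      linarith
    have h2 : 8 ≤ η₀ * T₁ := by
      rw [div_le_iff₀ hη₀] at e10
      linarith
    linarith
  have hlB : Complex.exp l ∈ B := by rw [hl]; exact hbB
  -- the step
  have hstep : ∀ T : ℝ, T₁ ≤ T →
      (∃ X : ℂ, eval (Fin.cons X (ipt T α) : Fin (m + 1) → ℂ) F = 0 ∧ ‖X - l‖ ≤ δ') →
      ∃ X : ℂ, eval (Fin.cons X (ipt ((1 + θ) * T) α) : Fin (m + 1) → ℂ) F = 0 ∧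
        ‖X - l‖ ≤ δ' := by
    rintro T hT ⟨Z, hZ, hZl⟩
    obtain ⟨f1, f2, f3, f4, f5, -, f7, f8, f9, f10⟩ := hT₁ T hT
    have hT0 : 0 < T := by linarith
    have hZn : ‖Z‖ ≤ η₀ / 2 * T := by
      have h1 : ‖Z‖ ≤ ‖l‖ + ‖Z - l‖ := by
        have := norm_sub_norm_le Z l
        linarith
      have h2 : η₀ / 2 * T₁ ≤ η₀ / 2 * T := mul_le_mul_of_nonneg_left hT (by positivity)
      linarith
    have hZc : ‖Z - Complex.I * T * ((0 : ℝ) : ℂ)‖ ≤ η₀ * T := by
      rw [hclu]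
      nlinarith
    have hlogT : K' + 2 ≤ C * Real.log T := by nlinarith
    have hZre : |Z.re| ≤ K' := by
      refine f1 Z hZ ?_
      have h1 : |(Z - l).re| ≤ ‖Z - l‖ := Complex.abs_re_le_norm _
      rw [Complex.sub_re] at h1
      have h2 := abs_sub_abs_le_abs_sub Z.re l.re
      linarith
    obtain ⟨X₀, hXd, hXc, hXs⟩ := f4 Z hZ ((f5 Z hZ hZc).trans
      (mul_le_mul_of_nonneg_right (min_le_left _ _) hT0.le))
    have hdist : ∀ t ∈ Set.Icc T ((1 + θ) * T), ‖ipt t α - ipt T α‖ ≤ min η η₀ / 4 * T := by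
      intro t ht
      have h1 : ipt t α - ipt T α = ((t - T : ℝ) : ℂ) • ipt 1 α := by
        funext j
        simp only [ipt, Pi.sub_apply, Pi.smul_apply, smul_eq_mul, Complex.ofReal_sub,
          Complex.ofReal_one]
        ring
      rw [h1, norm_smul, Complex.norm_real, Real.norm_of_nonneg (by linarith [ht.1])]
      have h2 : t - T ≤ θ * T := by linarith [ht.2]
      calc (t - T) * ‖ipt 1 α‖ ≤ θ * T * ‖ipt 1 α‖ := mul_le_mul_of_nonneg_right h2 hα0
        _ = θ * ‖ipt 1 α‖ * T := by ring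
        _ ≤ min η η₀ / 4 * T := mul_le_mul_of_nonneg_right hθα hT0.le
    have hball : ∀ t ∈ Set.Icc T ((1 + θ) * T), ipt t α ∈ Metric.ball (ipt T α) (η * T) := by
      intro t ht
      rw [Metric.mem_ball, dist_eq_norm]
      refine (hdist t ht).trans_lt ?_
      have h1 := min_le_left η η₀
      nlinarith
    have hiptc : Continuous fun t : ℝ => ipt t α := by
      refine continuous_pi fun j => ?_
      simp only [ipt]
      exact (continuous_const.mul Complex.continuous_ofReal).mul continuous_const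
    set Y : ℝ → ℂ := fun t => X₀ (ipt t α) with hY
    have hYc : ContinuousOn Y (Set.Icc T ((1 + θ) * T)) :=
      hXd.continuousOn.comp hiptc.continuousOn hball
    have hYT : Y T = Z := hXc
    have hYr : ∀ t ∈ Set.Icc T ((1 + θ) * T),
        eval (Fin.cons (Y t) (ipt t α) : Fin (m + 1) → ℂ) F = 0 := fun t ht =>
      (hXs _ (hball t ht)).1
    have hYcl : ∀ t ∈ Set.Icc T ((1 + θ) * T),
        ‖Y t - Complex.I * t * ((0 : ℝ) : ℂ)‖ ≤ η₀ * t := by
      intro t ht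
      rw [hclu]
      have h1 := (hXs _ (hball t ht)).2
      simp only [Complex.ofReal_zero, zero_mul, Finset.sum_const_zero, sub_zero, one_mul] at h1
      have h2 := h1.trans (hdist t ht)
      have h3 : ‖Y t‖ ≤ ‖Z‖ + ‖Y t - Z‖ := by
        have := norm_sub_norm_le (Y t) Z
        linarith
      have h4 := min_le_right η η₀
      have h5 : η₀ * T ≤ η₀ * t := mul_le_mul_of_nonneg_left ht.1 hη₀.le
      have h6 : ‖Y t - Z‖ ≤ min η η₀ / 4 * T := h2
      nlinarith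
    have hYre : ∀ t ∈ Set.Icc T ((1 + θ) * T), |(Y t).re| ≤ K' := by
      intro t ht
      by_contra hcon
      have h1 : C * Real.log t < |(Y t).re| := by
        by_contra h
        push Not at h
        exact hcon ((hT₁ t (hT.trans ht.1)).1 (Y t) (hYr t ht) h)
      have hlog : ∀ s, T ≤ s → C * Real.log T ≤ C * Real.log s := fun s hs =>
        mul_le_mul_of_nonneg_left (Real.log_le_log hT0 hs) (by linarith)
      have hsub : Set.Icc T t ⊆ Set.Icc T ((1 + θ) * T) := Set.Icc_subset_Icc_right ht.2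
      have h2 := intermediate_value_Icc (f := fun s => |(Y s).re|) ht.1
        ((Complex.continuous_re.comp_continuousOn (hYc.mono hsub)).abs)
      obtain ⟨s, hs, hsv⟩ := h2 (show K' + 1 ∈ Set.Icc (|(Y T).re|) (|(Y t).re|) from
        ⟨by rw [hYT]; linarith, by linarith [hlog t ht.1]⟩)
      simp only at hsv
      have h3 := (hT₁ s (hT.trans hs.1)).1 (Y s) (hYr s (hsub hs))
        (by linarith [hlog s hs.1])
      linarith
    have hYl : ∀ t ∈ Set.Icc T ((1 + θ) * T), ‖Y t - l‖ < 3 * δ' → ‖Y t - l‖ ≤ δ' := by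
      intro t ht h3
      obtain ⟨b', hb'B, hb'⟩ := (hT₁ t (hT.trans ht.1)).2.2.1 (Y t) (hYr t ht) (hYcl t ht)
        (hYre t ht)
      obtain ⟨l', hl', hl'Y⟩ := hδ (Y t) b' (hYre t ht) hb'
      have h4 : ‖l' - l‖ < 4 * δ' := by
        have h5 : l' - l = (Y t - l) - (Y t - l') := by ring
        rw [h5]
        refine (norm_sub_le _ _).trans_lt ?_
        linarith
      have h5 := hδ' l l' hlre hlB (by rw [hl']; exact hb'B) h4
      rw [← h5]
      exact hl'Y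
    have hend : (1 + θ) * T ∈ Set.Icc T ((1 + θ) * T) := ⟨by nlinarith, le_rfl⟩
    refine ⟨Y ((1 + θ) * T), hYr _ hend, ?_⟩
    by_contra hcon
    have h1 : 3 * δ' ≤ ‖Y ((1 + θ) * T) - l‖ := by
      by_contra h
      push Not at h
      exact hcon (hYl _ hend h)
    have h2 := intermediate_value_Icc (f := fun s => ‖Y s - l‖) hend.1
      ((hYc.sub continuousOn_const).norm)
    obtain ⟨s, hs, hsv⟩ := h2 (show 2 * δ' ∈ Set.Icc (‖Y T - l‖) (‖Y ((1 + θ) * T) - l‖) from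
      ⟨by rw [hYT]; linarith, by linarith⟩)
    simp only at hsv
    have h3 := hYl s hs (by linarith)
    linarith
  have hall : ∀ j : ℕ, T₁ ≤ (1 + θ) ^ j * T₁ ∧
      ∃ X : ℂ, eval (Fin.cons X (ipt ((1 + θ) ^ j * T₁) α) : Fin (m + 1) → ℂ) F = 0 ∧
        ‖X - l‖ ≤ δ' := by
    intro j
    induction j with
    | zero => exact ⟨by simp, X₁, by simpa using hX₁, hlX⟩
    | succ j ih =>
      have h1 : (1 + θ) ^ (j + 1) * T₁ = (1 + θ) * ((1 + θ) ^ j * T₁) := by ring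
      rw [h1]
      exact ⟨by nlinarith [ih.1], hstep _ ih.1 ih.2⟩
  obtain ⟨T₃, hT₃⟩ := eventually_atTop.1 (ph_nobdd F α hB hJ (‖l‖ + δ'))
  obtain ⟨j, hj⟩ := pow_unbounded_of_one_lt (T₃ / T₁) (by linarith : 1 < 1 + θ)
  rw [div_lt_iff₀ hT₁0] at hj
  obtain ⟨Z, hZ, hZl⟩ := (hall j).2
  exact hT₃ _ hj.le Z (by
    have := norm_sub_norm_le Z l
    linarith) hZ

end Pool.Agent.EXQ
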