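import Mathlib

/-!
# EXQ / Ratio: a function without zeros, of polynomial size, is nearly constant on `ball a √T`

PROOF.  On the complex line `s ↦ a + s u` (`|u| ≤ 1`, `|s| < η T`) the function `g(s) = f(a + s u)` has no zeros, so `g = exp G` (disc);
`Re G ≤ 0`, `Re G(0) ≥ -C log T`. Borel-Caratheodory (or Schwarz lemma for the half plane): `|G(s) - G(0)| ≤ 2 |s| / (η T - |s|) * C log T → 0`
uniformly for `|s| ≤ √T`.
-/

set_option autoImplicit false

namespace Pool.Agent.EXQ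

open Filter Topology

/-- A holomorphic function without zeros on a disc has a logarithm. -/
private theorem log_disc (g : ℂ → ℂ) (R : ℝ) (hR : 0 < R)
    (hg : DifferentiableOn ℂ g (Metric.ball 0 R)) (h0 : ∀ z ∈ Metric.ball (0 : ℂ) R, g z ≠ 0) :
    ∃ G : ℂ → ℂ, DifferentiableOn ℂ G (Metric.ball 0 R) ∧ G 0 = 0 ∧
      ∀ z ∈ Metric.ball (0 : ℂ) R, g z = g 0 * Complex.exp (G z) := by
  have h1 : DifferentiableOn ℂ (fun z => deriv g z / g z) (Metric.ball 0 R) :=
    (hg.deriv Metric.isOpen_ball).div hg h0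
  obtain ⟨G, hG0, hG⟩ := h1.isExactOn_ball.with_val_at 0 0
  have hGd : DifferentiableOn ℂ G (Metric.ball 0 R) := fun z hz =>
    (hG z hz).differentiableAt.differentiableWithinAt
  refine ⟨G, hGd, hG0, fun z hz => ?_⟩
  have hd : ∀ z ∈ Metric.ball (0 : ℂ) R,
      HasDerivAt (fun z => g z * Complex.exp (-G z)) 0 z := by
    intro z hz
    have h2 : HasDerivAt g (deriv g z) z :=
      (hg.differentiableAt (Metric.isOpen_ball.mem_nhds hz)).hasDerivAt
    have h3 := h2.mul ((hG z hz).neg.cexp)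
    refine h3.congr_deriv ?_
    have := h0 z hz
    field_simp
    ring
  have h4 : (fun z => g z * Complex.exp (-G z)) z = (fun z => g z * Complex.exp (-G z)) 0 := by
    refine IsOpen.is_const_of_deriv_eq_zero Metric.isOpen_ball
      (convex_ball (0 : ℂ) R).isPreconnected
      (fun w hw => (hd w hw).differentiableAt.differentiableWithinAt)
      (fun w hw => (hd w hw).deriv) hz (Metric.mem_ball_self hR)
  simp only [hG0, neg_zero, Complex.exp_zero, mul_one] at h4
  rw [← h4, mul_assoc, ← Complex.exp_add]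
  simp

private theorem ratio_aux {m : ℕ} (η : ℝ) (hη : 0 < η) (C : ℕ) (T : ℝ) (hT : 1 ≤ T)
    (hR : 1 < η * Real.sqrt T) (a : Fin m → ℂ) (f : (Fin m → ℂ) → ℂ)
    (hf : DifferentiableOn ℂ f (Metric.ball a (η * T)))
    (hb : ∀ x ∈ Metric.ball a (η * T), ‖f x‖ ≤ 1 ∧ 1 ≤ T ^ C * ‖f x‖)
    (x : Fin m → ℂ) (hx : x ∈ Metric.ball a (Real.sqrt T)) :
    ∃ w : ℂ, f x / f a = Complex.exp w ∧
      ‖w‖ ≤ 2 * (C * Real.log T + 1) / (η * Real.sqrt T - 1) := by
  have hT0 : 0 < T := by linarith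
  have hsq : 0 < Real.sqrt T := Real.sqrt_pos.2 hT0
  have hlog : 0 ≤ Real.log T := Real.log_nonneg hT
  set u : Fin m → ℂ := x - a with hu
  have hun : ‖u‖ < Real.sqrt T := by
    rw [hu, ← dist_eq_norm]
    exact hx
  set R : ℝ := η * Real.sqrt T with hRdef
  have hR0 : 0 < R := by linarith
  have hmaps : ∀ s ∈ Metric.ball (0 : ℂ) R, a + s • u ∈ Metric.ball a (η * T) := by
    intro s hs
    rw [mem_ball_zero_iff] at hs
    rw [Metric.mem_ball, dist_eq_norm, add_sub_cancel_left, norm_smul]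
    have h1 : ‖s‖ * ‖u‖ ≤ ‖s‖ * Real.sqrt T := mul_le_mul_of_nonneg_left hun.le (norm_nonneg _)
    have h2 : ‖s‖ * Real.sqrt T < R * Real.sqrt T := mul_lt_mul_of_pos_right hs hsq
    have h3 : R * Real.sqrt T = η * T := by
      rw [hRdef, mul_assoc, Real.mul_self_sqrt hT0.le]
    linarith
  set g : ℂ → ℂ := fun s => f (a + s • u) with hg
  have hgd : DifferentiableOn ℂ g (Metric.ball 0 R) := by
    refine hf.comp ?_ hmaps
    exact ((differentiable_id.smul_const u).const_add a).differentiableOn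
  have hpos : ∀ y ∈ Metric.ball a (η * T), 0 < ‖f y‖ := by
    intro y hy
    by_contra hcon
    have h1 := (hb y hy).2
    have h2 : ‖f y‖ = 0 := le_antisymm (not_lt.1 hcon) (norm_nonneg _)
    rw [h2, mul_zero] at h1
    linarith
  obtain ⟨G, hGd, hG0, hG⟩ := log_disc g R hR0 hgd (fun z hz => norm_pos_iff.1 (hpos _ (hmaps z hz)))
  have hmem0 : (0 : ℂ) ∈ Metric.ball (0 : ℂ) R := Metric.mem_ball_self hR0
  have hmem1 : (1 : ℂ) ∈ Metric.ball (0 : ℂ) R := by
    rw [mem_ball_zero_iff, norm_one]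
    exact hR
  have hg0 : g 0 = f a := by simp [hg]
  have hg1 : g 1 = f x := by simp [hg, hu]
  have hre : ∀ z ∈ Metric.ball (0 : ℂ) R, (G z).re ≤ C * Real.log T + 1 := by
    intro z hz
    have h1 := congrArg norm (hG z hz)
    rw [norm_mul, Complex.norm_exp] at h1
    have h2 := (hb _ (hmaps z hz)).1
    have h3 := (hb _ (hmaps 0 hmem0)).2
    change ‖g z‖ ≤ 1 at h2
    change 1 ≤ T ^ C * ‖g 0‖ at h3
    have h4 : Real.exp (G z).re ≤ T ^ C := by
      have h5 : 0 < T ^ C := by positivity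
      have h6 : 0 < Real.exp (G z).re := Real.exp_pos _
      calc Real.exp (G z).re ≤ (T ^ C * ‖g 0‖) * Real.exp (G z).re :=
            le_mul_of_one_le_left h6.le h3
        _ = T ^ C * ‖g z‖ := by rw [h1]; ring
        _ ≤ T ^ C := mul_le_of_le_one_right h5.le h2
    have h5 := Real.log_le_log (Real.exp_pos _) h4
    rw [Real.log_exp, Real.log_pow] at h5
    linarith
  have h1 := Complex.borelCaratheodory_zero (f := G) (R := R) (M := C * Real.log T + 1)
    (z := 1) (by positivity) hGd (fun z hz => hre z hz) hR0 hmem1 hG0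
  refine ⟨G 1, ?_, ?_⟩
  · have h2 := hG 1 hmem1
    rw [hg0, hg1] at h2
    have h3 : f a ≠ 0 := by
      rw [← hg0]
      exact norm_pos_iff.1 (hpos _ (hmaps 0 hmem0))
    rw [h2, mul_div_cancel_left₀ _ h3]
  · rw [norm_one, mul_one] at h1
    exact h1

theorem ratio_near {m : ℕ} (η : ℝ) (hη : 0 < η) (C : ℕ) (δ : ℝ) (hδ : 0 < δ) :
    ∀ᶠ T : ℝ in atTop, ∀ (a : Fin m → ℂ) (f : (Fin m → ℂ) → ℂ),
      DifferentiableOn ℂ f (Metric.ball a (η * T)) →
      (∀ x ∈ Metric.ball a (η * T), ‖f x‖ ≤ 1 ∧ 1 ≤ T ^ C * ‖f x‖) →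
      ∀ x ∈ Metric.ball a (Real.sqrt T), ‖f x / f a - 1‖ ≤ δ := by
  set κ : ℝ := min 1 (δ / 2) with hκ
  have hκ0 : 0 < κ := lt_min one_pos (by linarith)
  have h1 : Tendsto (fun T : ℝ => (C * Real.log T + 1) / Real.sqrt T) atTop (𝓝 0) := by
    have h2 : Tendsto (fun T : ℝ => Real.log T / Real.sqrt T) atTop (𝓝 0) := by
      have h3 := (isLittleO_log_rpow_atTop (r := 1 / 2) (by norm_num)).tendsto_div_nhds_zero
      refine h3.congr fun T => ?_
      rw [Real.sqrt_eq_rpow]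
    have h4 : Tendsto (fun T : ℝ => 1 / Real.sqrt T) atTop (𝓝 0) :=
      tendsto_const_nhds.div_atTop Real.tendsto_sqrt_atTop
    have h5 := (h2.const_mul (C : ℝ)).add h4
    rw [mul_zero, add_zero] at h5
    refine h5.congr fun T => ?_
    ring
  have h2 : ∀ᶠ T : ℝ in atTop, (C * Real.log T + 1) / Real.sqrt T ≤ κ * η / 4 :=
    h1.eventually (ge_mem_nhds (by positivity))
  have h3 : ∀ᶠ T : ℝ in atTop, 2 / η ≤ Real.sqrt T :=
    Real.tendsto_sqrt_atTop.eventually_ge_atTop _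
  filter_upwards [h2, h3, eventually_ge_atTop (1 : ℝ)] with T hT2 hT3 hT1 a f hf hb x hx
  have hsq : 0 < Real.sqrt T := Real.sqrt_pos.2 (by linarith)
  have hR : 2 ≤ η * Real.sqrt T := by
    rw [div_le_iff₀ hη] at hT3
    linarith
  obtain ⟨w, hw, hwn⟩ := ratio_aux η hη C T hT1 (by linarith) a f hf hb x hx
  have hw2 : ‖w‖ ≤ κ := by
    refine hwn.trans ?_
    rw [div_le_iff₀ hsq] at hT2
    rw [div_le_iff₀ (by linarith)]
    nlinarith [mul_pos hκ0 hη, mul_le_mul_of_nonneg_left hR hκ0.le]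
  rw [hw]
  have h4 := Complex.norm_exp_sub_one_le (x := w) (hw2.trans (min_le_left _ _))
  have h5 : κ ≤ δ / 2 := min_le_right _ _
  linarith

end Pool.Agent.EXQ
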